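import Pool.Agent.TH632.Count
import Pool.Agent.TH158.J8
import Pool.Agent.TH641.J10

/-!
# Flow data from an open PL manifold
-/

open Set Topology

namespace Pool.Agent.TH632

universe u

theorem isCompact_simplex {V : Type u} (s : Finset V) : IsCompact (simplex s) := by
  have h : IsCompact (Set.univ.pi (fun _ : V => Set.Icc (0 : ℝ) 1)) :=
    isCompact_univ_pi fun _ => isCompact_Icc
  apply h.of_isClosed_subset (isClosed_simplex s)
  intro x hx v _
  exact ⟨hx.1 v, simplex_le_one hx v⟩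

open scoped Classical in
section

variable {V : Type u}

theorem neighbor_finite {m : ℕ} (hm : 2 ≤ m) {K : PreAbstractSimplicialComplex V}
    (hK : IsPLManifold m K) (x : {σ : Finset V // σ ∈ K.faces ∧ σ.card = m + 1}) :
    ((TH641.J10.dualGraph m K).neighborSet x).Finite := by
  have h1 : (⋃ v ∈ (x.1 : Set V), {s ∈ K.faces | v ∈ s}).Finite :=
    Set.Finite.biUnion x.1.finite_toSet fun v _ => hK.1 v
  apply (h1.preimage (f := fun σ : {σ : Finset V // σ ∈ K.faces ∧ σ.card = m + 1} => σ.1)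
    (Subtype.val_injective.injOn)).subset
  intro y hy
  have hy' : x ≠ y ∧ (x.1 ∩ y.1).card = m := hy
  obtain ⟨v, hv⟩ := Finset.card_pos.mp (by rw [hy'.2]; omega : 0 < (x.1 ∩ y.1).card)
  rw [Finset.mem_inter] at hv
  exact Set.mem_biUnion (x := v) hv.1 ⟨y.2.1, hv.2⟩

theorem realization_eq {m : ℕ} {K : PreAbstractSimplicialComplex V}
    (hK : IsPLManifold m K) :
    realization K = ⋃ σ ∈ {σ | σ ∈ K.faces ∧ σ.card = m + 1}, simplex σ := by
  apply Set.Subset.antisymm
  · intro x hx
    obtain ⟨s, hs, hxs⟩ := Set.mem_iUnion₂.mp hx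
    obtain ⟨σ, h1, h2, h3⟩ := TH641.J10.exists_cell' hK hs
    exact Set.mem_biUnion (x := σ) ⟨h1, h3⟩ (simplex_mono h2 hxs)
  · intro x hx
    obtain ⟨s, hs, hxs⟩ := Set.mem_iUnion₂.mp hx
    exact Set.mem_biUnion (x := s) hs.1 hxs

theorem infinite_cells {m : ℕ} {K : PreAbstractSimplicialComplex V}
    (hK : IsPLManifold m K) [NoncompactSpace (realization K)] :
    {σ | σ ∈ K.faces ∧ σ.card = m + 1}.Infinite := by
  intro hfin
  have h1 : IsCompact (realization K) := by
    rw [realization_eq hK]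
    exact hfin.isCompact_biUnion fun σ _ => isCompact_simplex σ
  have h2 : CompactSpace (realization K) := isCompact_iff_compactSpace.mp h1
  exact (not_compactSpace_iff.mpr inferInstance) h2

theorem countable_cells {m : ℕ} (hm : 2 ≤ m) {K : PreAbstractSimplicialComplex V}
    (hK : IsPLManifold m K) [ConnectedSpace (realization K)] :
    {σ | σ ∈ K.faces ∧ σ.card = m + 1}.Countable := by
  have hG := TH641.J10.dualGraph_connected (m := m) (by omega) hK
  obtain ⟨o⟩ := hG.nonempty
  have huniv : (Set.univ : Set {σ : Finset V // σ ∈ K.faces ∧ σ.card = m + 1}) =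
      ⋃ i, JobEscape.B (TH641.J10.dualGraph m K) o i := by
    symm
    rw [Set.eq_univ_iff_forall]
    intro x
    obtain ⟨i, hi⟩ := JobEscape.exists_mem (o := o) hG x
    exact Set.mem_iUnion.mpr ⟨i, hi⟩
  have hc : (Set.univ : Set {σ : Finset V // σ ∈ K.faces ∧ σ.card = m + 1}).Countable := by
    rw [huniv]
    exact Set.countable_iUnion fun i =>
      (JobEscape.B_finite (neighbor_finite hm hK) i).countable
  have := Set.countable_univ_iff.mp hc
  exact Set.countable_coe_iff.mp this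

theorem card_two_aux {m : ℕ} {σ τ : Finset V} (hσ : σ.card = m + 1)
    (h : (σ ∩ τ).card = m) : ∃ v ∈ σ, v ∉ τ ∧ ∀ w ∈ σ, w ∉ τ → w = v := by
  have h1 : (σ \ τ).card = 1 := by
    have := Finset.card_sdiff_add_card_inter σ τ
    omega
  obtain ⟨v, hv⟩ := Finset.card_eq_one.mp h1
  have hv' : v ∈ σ \ τ := by rw [hv]; exact Finset.mem_singleton_self v
  rw [Finset.mem_sdiff] at hv'
  refine ⟨v, hv'.1, hv'.2, ?_⟩
  intro w hw hwτ
  have : w ∈ σ \ τ := Finset.mem_sdiff.mpr ⟨hw, hwτ⟩
  rw [hv] at this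
  exact Finset.mem_singleton.mp this

/-- a cell containing all vertices of `σ` but `v` is `insert c (σ.erase v)` -/
theorem cell_insert {m : ℕ} {σ τ : Finset V} (hσ : σ.card = m + 1) (hτ : τ.card = m + 1)
    {v : V} (hv : v ∈ σ) (hne : τ ≠ σ) (h : ∀ w ∈ σ, w ≠ v → w ∈ τ) :
    ∃ c, c ≠ v ∧ c ∉ σ.erase v ∧ τ = insert c (σ.erase v) := by
  have hsub : σ.erase v ⊆ τ := fun w hw =>
    h w (Finset.mem_of_mem_erase hw) (Finset.ne_of_mem_erase hw)
  have hc : (σ.erase v).card = m := by
    rw [Finset.card_erase_of_mem hv, hσ]; rfl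
  have h1 : (τ \ σ.erase v).card = 1 := by
    rw [Finset.card_sdiff_of_subset hsub, hc, hτ]; omega
  obtain ⟨c, hc'⟩ := Finset.card_eq_one.mp h1
  have hcm : c ∈ τ \ σ.erase v := by rw [hc']; exact Finset.mem_singleton_self c
  rw [Finset.mem_sdiff] at hcm
  have hτe : τ = insert c (σ.erase v) := by
    symm
    apply Finset.eq_of_subset_of_card_le
    · exact Finset.insert_subset hcm.1 hsub
    · rw [Finset.card_insert_of_notMem hcm.2, hc, hτ]
  refine ⟨c, ?_, hcm.2, hτe⟩
  rintro rfl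
  apply hne
  rw [hτe, Finset.insert_erase hv]

/-- the flow data of an open PL manifold -/
theorem exists_flowData {m : ℕ} (hm : 2 ≤ m) {K : PreAbstractSimplicialComplex V}
    (hK : IsPLManifold m K) [ConnectedSpace (realization K)]
    [NoncompactSpace (realization K)] :
    ∃ D : FlowData V m, D.C = {σ | σ ∈ K.faces ∧ σ.card = m + 1} := by
  have hG := TH641.J10.dualGraph_connected (m := m) (by omega) hK
  have hinf : Infinite {σ : Finset V // σ ∈ K.faces ∧ σ.card = m + 1} :=
    (infinite_cells hK).to_subtype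
  obtain ⟨φ, ρ, hφ⟩ := JobEscape.exists_escape (TH641.J10.dualGraph m K) hG
    (neighbor_finite hm hK) hinf
  have hV : Nonempty V := by
    obtain ⟨σ⟩ := hG.nonempty
    obtain ⟨v, _⟩ := Finset.card_pos.mp (by rw [σ.2.2]; omega : 0 < σ.1.card)
    exact ⟨v⟩
  let C : Set (Finset V) := {σ | σ ∈ K.faces ∧ σ.card = m + 1}
  let par : Finset V → Finset V := fun σ => if h : σ ∈ C then (φ ⟨σ, h⟩).1 else ∅
  let rank : Finset V → ℕ := fun σ => if h : σ ∈ C then ρ ⟨σ, h⟩ else 0
  let apex : Finset V → V := fun σ => Classical.epsilon (fun v => v ∈ σ ∧ v ∉ par σ)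
  have hpar : ∀ σ (h : σ ∈ C), par σ = (φ ⟨σ, h⟩).1 := fun σ h => dif_pos h
  have hrank : ∀ σ (h : σ ∈ C), rank σ = ρ ⟨σ, h⟩ := fun σ h => dif_pos h
  have hparC : ∀ σ ∈ C, par σ ∈ C := by
    intro σ h
    rw [hpar σ h]
    exact (φ ⟨σ, h⟩).2
  have hinter : ∀ σ ∈ C, (σ ∩ par σ).card = m := by
    intro σ h
    rw [hpar σ h]
    exact (hφ ⟨σ, h⟩).1.2
  have hapex : ∀ σ ∈ C, apex σ ∈ σ ∧ apex σ ∉ par σ := by
    intro σ h
    obtain ⟨v, hv, hvp, _⟩ := card_two_aux h.2 (hinter σ h)
    exact Classical.epsilon_spec (p := fun v => v ∈ σ ∧ v ∉ par σ) ⟨v, hv, hvp⟩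
  have herase : ∀ σ ∈ C, ∀ v ∈ σ, σ.erase v ∈ K.faces ∧ (σ.erase v).card = m := by
    intro σ h v hv
    have hc : (σ.erase v).card = m := by
      rw [Finset.card_erase_of_mem hv, h.2]; rfl
    refine ⟨TH641.J10.face_of_subset h.1 (Finset.erase_subset _ _)
      (Finset.card_pos.mp (by rw [hc]; omega)), hc⟩
  refine ⟨{ C := C, card := fun σ h => h.2, apex := apex, par := par, rank := rank,
            apex_mem := fun σ h => (hapex σ h).1, par_mem := hparC,
            par_sub := ?_, rank_lt := ?_, two_ex := ?_, two_uniq := ?_, locfin := ?_,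
            mpos := hm }, rfl⟩
  · intro σ h v hv hne
    by_contra hcon
    obtain ⟨w, hw, hwp, huniq⟩ := card_two_aux h.2 (hinter σ h)
    exact hne ((huniq v hv hcon).trans (huniq _ (hapex σ h).1 (hapex σ h).2).symm)
  · intro σ h
    rw [hrank σ h, hrank _ (hparC σ h)]
    have h1 := (hφ ⟨σ, h⟩).2
    have h2 : (⟨par σ, hparC σ h⟩ : {σ : Finset V // σ ∈ K.faces ∧ σ.card = m + 1}) =
        φ ⟨σ, h⟩ := Subtype.ext (hpar σ h)
    rw [h2]
    exact h1
  · intro σ h v hv
    obtain ⟨he1, he2⟩ := herase σ h v hv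
    obtain ⟨a, b, hab, ha, hb, hfa, hfb, hall⟩ := TH641.J10.exists_two hK he1 he2
    have hvab := hall v (Finset.notMem_erase v σ) (by rw [Finset.insert_erase hv]; exact h.1)
    have key : ∀ c, c ≠ v → c ∉ σ.erase v → insert c (σ.erase v) ∈ K.faces →
        ∃ τ ∈ C, τ ≠ σ ∧ ∀ w ∈ σ, w ≠ v → w ∈ τ := by
      intro c hcv hc hf
      refine ⟨insert c (σ.erase v), ⟨hf, by rw [Finset.card_insert_of_notMem hc, he2]⟩, ?_, ?_⟩
      · intro heq
        have : v ∈ insert c (σ.erase v) := by rw [heq]; exact hv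
        rcases Finset.mem_insert.mp this with h1 | h1
        · exact hcv h1.symm
        · exact Finset.notMem_erase v σ h1
      · intro w hw hwv
        exact Finset.mem_insert_of_mem (Finset.mem_erase.mpr ⟨hwv, hw⟩)
    rcases hvab with rfl | rfl
    · exact key b (fun e => hab e.symm) hb hfb
    · exact key a hab ha hfa
  · intro σ h v hv τ hτ τ' hτ' hne hne' hsub hsub'
    obtain ⟨he1, he2⟩ := herase σ h v hv
    obtain ⟨a, b, hab, ha, hb, hfa, hfb, hall⟩ := TH641.J10.exists_two hK he1 he2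
    have hvab := hall v (Finset.notMem_erase v σ) (by rw [Finset.insert_erase hv]; exact h.1)
    obtain ⟨c, hcv, hc, rfl⟩ := cell_insert h.2 hτ.2 hv hne hsub
    obtain ⟨c', hcv', hc', rfl⟩ := cell_insert h.2 hτ'.2 hv hne' hsub'
    have h1 := hall c hc hτ.1
    have h2 := hall c' hc' hτ'.1
    have : c = c' := by
      rcases hvab with rfl | rfl
      · rcases h1 with h1 | h1
        · exact absurd h1 hcv
        · rcases h2 with h2 | h2
          · exact absurd h2 hcv'
          · exact h1.trans h2.symm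
      · rcases h1 with h1 | h1
        · rcases h2 with h2 | h2
          · exact h1.trans h2.symm
          · exact absurd h2 hcv'
        · exact absurd h1 hcv
    rw [this]
  · intro v
    apply (hK.1 v).subset
    rintro σ ⟨h1, h2⟩
    exact ⟨h1.1, h2⟩

theorem space_eq {m : ℕ} {K : PreAbstractSimplicialComplex V} (hK : IsPLManifold m K)
    {D : FlowData V m} (hD : D.C = {σ | σ ∈ K.faces ∧ σ.card = m + 1}) :
    D.space = realization K := by
  rw [realization_eq hK]
  ext x
  simp only [FlowData.space, hD, Set.mem_iUnion, Set.mem_ofPred_eq, exists_prop]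

theorem orientation_of {m : ℕ} {K : PreAbstractSimplicialComplex V}
    {D : FlowData V m} (hD : D.C = {σ | σ ∈ K.faces ∧ σ.card = m + 1})
    (ho : IsOrientable m K) : ∃ o : (Fin (m + 1) → V) → ℤˣ, D.IsOrientation o := by
  obtain ⟨o, h1, h2⟩ := ho
  have key : ∀ t, D.OC t → IsOrderedCell m K t := by
    intro t ht
    refine ⟨ht.1, ?_⟩
    have := ht.2
    rw [hD] at this
    exact this.1
  exact ⟨o, fun t ht π => h1 t (key t ht) π, fun t t' ht ht' h h' => h2 t t' (key t ht)
    (key t' ht') h h'⟩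

end

end Pool.Agent.TH632
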