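import Pool.Agent.TH632.PLMap2

/-!
# The branch set is a subpolyhedron of codimension two
-/

open Set Topology

namespace Pool.Agent.TH632

section

variable {m : ℕ}

/-- linear part of the constraint `i` -/
noncomputable def lcl (i : Fin (m + 1)) : (Fin m → ℝ) →ₗ[ℝ] ℝ :=
  Fin.cases ((1 / (m : ℝ)) • ∑ k, (pr k : (Fin m → ℝ) →ₗ[ℝ] ℝ)) (fun k => pr k) i

theorem lcl_zero (y : Fin m → ℝ) : lcl 0 y = (1 / (m : ℝ)) * ∑ k, y k := by
  simp [lcl]

theorem lcl_succ (k : Fin m) (y : Fin m → ℝ) : lcl k.succ y = y k := by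
  simp [lcl]

/-- constant part -/
noncomputable def lcc (i : Fin (m + 1)) : ℝ := if i = 0 then - (1 / (m : ℝ)) else 0

theorem Lc_eq_lcl (y : Fin m → ℝ) (i : Fin (m + 1)) : Lc y i = lcl i y + lcc i := by
  refine Fin.cases ?_ (fun k => ?_) i
  · rw [Lc_zero, lcl_zero, lcc, if_pos rfl]
    ring
  · rw [Lc_succ, lcl_succ, lcc, if_neg (Fin.succ_ne_zero k), add_zero]

theorem lcl_sub (y z : Fin m → ℝ) (i : Fin (m + 1)) : lcl i (y - z) = Lc y i - Lc z i := by
  rw [Lc_eq_lcl, Lc_eq_lcl, map_sub]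
  ring

theorem Lc_add_smul (y v : Fin m → ℝ) (a : ℝ) (i : Fin (m + 1)) :
    Lc (y + a • v) i = Lc y i + a * lcl i v := by
  rw [Lc_eq_lcl, Lc_eq_lcl, map_add, map_smul, smul_eq_mul]
  ring

/-- a stratum of the branch set -/
def Bst (i j : Fin (m + 1)) : Set (Fin m → ℝ) :=
  {y | (∀ k, 0 ≤ Lc y k) ∧ Lc y i = 0 ∧ Lc y j = 0}

theorem polyhedron_Bst (i j : Fin (m + 1)) : IsPolyhedron (Bst i j) := by
  have h : Bst i j = {y : Fin m → ℝ | ∀ q : Fin (m + 1) ⊕ Fin 2,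
      (Sum.elim (fun k => - lcl k) (fun b => if b = 0 then lcl i else lcl j) q :
        (Fin m → ℝ) →ₗ[ℝ] ℝ) y ≤
      Sum.elim (fun k => lcc k) (fun b => if b = 0 then - lcc i else - lcc j) q} := by
    ext y
    simp only [Bst, Set.mem_ofPred_eq, Sum.forall, Sum.elim_inl, Sum.elim_inr, Fin.forall_fin_two,
      if_true, LinearMap.neg_apply]
    have h10 : (1 : Fin 2) ≠ 0 := by decide
    simp only [h10, if_false]
    constructor
    · rintro ⟨h1, h2, h3⟩
      rw [Lc_eq_lcl] at h2 h3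
      refine ⟨fun k => ?_, by linarith, by linarith⟩
      have := h1 k
      rw [Lc_eq_lcl] at this
      linarith
    · rintro ⟨h1, h2, h3⟩
      have h4 : ∀ k, 0 ≤ Lc y k := by
        intro k
        rw [Lc_eq_lcl]
        have := h1 k
        linarith
      refine ⟨h4, le_antisymm ?_ (h4 i), le_antisymm ?_ (h4 j)⟩
      · rw [Lc_eq_lcl]; linarith
      · rw [Lc_eq_lcl]; linarith
  rw [h]
  exact IsPolyhedron.of_finite _ _

theorem lcl_surj_aux (hm : 2 ≤ m) (l : Fin m) (a b : ℝ) :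
    ∃ y : Fin m → ℝ, lcl 0 y = a ∧ lcl l.succ y = b := by
  have hm' : (0 : ℝ) < m := by positivity
  obtain ⟨k, hk⟩ : ∃ k : Fin m, k ≠ l := by
    by_cases h : l = ⟨0, by omega⟩
    · refine ⟨⟨1, by omega⟩, ?_⟩
      rw [h]
      simp
    · exact ⟨⟨0, by omega⟩, fun e => h e.symm⟩
  refine ⟨Pi.single l b + Pi.single k (m * a - b), ?_, ?_⟩
  · rw [lcl_zero]
    simp only [Pi.add_apply, Finset.sum_add_distrib, Finset.sum_pi_single', Finset.mem_univ,
      if_true]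
    field_simp
    ring
  · rw [lcl_succ]
    simp [Pi.single_eq_of_ne hk.symm]

theorem lcl_surj (hm : 2 ≤ m) {i j : Fin (m + 1)} (hij : i ≠ j) (a b : ℝ) :
    ∃ y : Fin m → ℝ, lcl i y = a ∧ lcl j y = b := by
  by_cases hi : i = 0
  · subst hi
    obtain ⟨l, rfl⟩ := Fin.exists_succ_eq.mpr hij.symm
    exact lcl_surj_aux hm l a b
  · by_cases hj : j = 0
    · subst hj
      obtain ⟨l, rfl⟩ := Fin.exists_succ_eq.mpr hij
      obtain ⟨y, h1, h2⟩ := lcl_surj_aux hm l b a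
      exact ⟨y, h2, h1⟩
    · obtain ⟨k, rfl⟩ := Fin.exists_succ_eq.mpr hi
      obtain ⟨l, rfl⟩ := Fin.exists_succ_eq.mpr hj
      have hkl : k ≠ l := fun e => hij (by rw [e])
      refine ⟨Pi.single k a + Pi.single l b, ?_, ?_⟩
      · rw [lcl_succ]
        simp [Pi.single_eq_of_ne hkl]
      · rw [lcl_succ]
        simp [Pi.single_eq_of_ne hkl.symm]

theorem finrank_ker_lcl (hm : 2 ≤ m) {i j : Fin (m + 1)} (hij : i ≠ j) :
    Module.finrank ℝ (LinearMap.ker ((lcl i).prod (lcl j) : (Fin m → ℝ) →ₗ[ℝ] ℝ × ℝ)) = m - 2 := by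
  have h1 := LinearMap.finrank_range_add_finrank_ker
    ((lcl i).prod (lcl j) : (Fin m → ℝ) →ₗ[ℝ] ℝ × ℝ)
  have h2 : LinearMap.range ((lcl i).prod (lcl j) : (Fin m → ℝ) →ₗ[ℝ] ℝ × ℝ) = ⊤ := by
    rw [LinearMap.range_eq_top]
    rintro ⟨a, b⟩
    obtain ⟨y, ha, hb⟩ := lcl_surj hm hij a b
    exact ⟨y, by rw [LinearMap.prod_apply]; simp [ha, hb]⟩
  rw [h2, finrank_top, Module.finrank_prod, Module.finrank_self, Module.finrank_fin_fun] at h1
  omega

theorem vectorSpan_Bst_le (i j : Fin (m + 1)) :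
    vectorSpan ℝ (Bst i j) ≤
      LinearMap.ker ((lcl i).prod (lcl j) : (Fin m → ℝ) →ₗ[ℝ] ℝ × ℝ) := by
  rw [vectorSpan_def, Submodule.span_le]
  rintro _ ⟨y, hy, z, hz, rfl⟩
  change (lcl i (y - z), lcl j (y - z)) = (0, 0)
  rw [lcl_sub, lcl_sub, hy.2.1, hy.2.2, hz.2.1, hz.2.2, sub_self]

theorem vectorSpan_Bst_ge {i j : Fin (m + 1)} {y : Fin m → ℝ} (hi : Lc y i = 0)
    (hj : Lc y j = 0) (hy : ∀ k, k ≠ i → k ≠ j → 0 < Lc y k) :
    LinearMap.ker ((lcl i).prod (lcl j) : (Fin m → ℝ) →ₗ[ℝ] ℝ × ℝ) ≤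
      vectorSpan ℝ (Bst i j) := by
  intro v hv
  have hv' : (lcl i).prod (lcl j) v = 0 := hv
  rw [LinearMap.prod_apply] at hv'
  have hvi : lcl i v = 0 := congrArg Prod.fst hv'
  have hvj : lcl j v = 0 := congrArg Prod.snd hv'
  have hyB : y ∈ Bst i j := by
    refine ⟨fun k => ?_, hi, hj⟩
    by_cases hki : k = i
    · rw [hki, hi]
    · by_cases hkj : k = j
      · rw [hkj, hj]
      · exact (hy k hki hkj).le
  have hev : ∀ᶠ ε in 𝓝[>] (0 : ℝ), ∀ k, k ≠ i → k ≠ j → 0 < Lc (y + ε • v) k := by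
    rw [Filter.eventually_all]
    intro k
    by_cases hk : k ≠ i ∧ k ≠ j
    · have hc : Continuous (fun ε : ℝ => Lc y k + ε * lcl k v) := by fun_prop
      have h0 : (0 : ℝ) < Lc y k + 0 * lcl k v := by
        rw [zero_mul, add_zero]; exact hy k hk.1 hk.2
      have := (hc.continuousAt (x := 0)).eventually_const_lt h0
      apply (this.filter_mono nhdsWithin_le_nhds).mono
      intro ε hε _ _
      rw [Lc_add_smul]
      exact hε
    · apply Filter.Eventually.of_forall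
      intro ε h1 h2
      exact absurd ⟨h1, h2⟩ hk
  obtain ⟨ε, hε, hpos⟩ := (hev.and self_mem_nhdsWithin).exists
  have hpos' : (0 : ℝ) < ε := hpos
  have hεB : y + ε • v ∈ Bst i j := by
    refine ⟨fun k => ?_, ?_, ?_⟩
    · by_cases hki : k = i
      · rw [hki, Lc_add_smul, hi, hvi]; simp
      · by_cases hkj : k = j
        · rw [hkj, Lc_add_smul, hj, hvj]; simp
        · exact (hε k hki hkj).le
    · rw [Lc_add_smul, hi, hvi]; simp
    · rw [Lc_add_smul, hj, hvj]; simp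
  have h1 := vsub_mem_vectorSpan ℝ hεB hyB
  have h2 : (y + ε • v) -ᵥ y = ε • v := by
    rw [vsub_eq_sub]; abel
  rw [h2] at h1
  have h3 := Submodule.smul_mem _ ε⁻¹ h1
  rw [smul_smul, inv_mul_cancel₀ hpos'.ne', one_smul] at h3
  exact h3

theorem isSubpolyhedron_Bset (hm : 2 ≤ m) : IsSubpolyhedronOfDim (m - 2) (Bset m) := by
  let ι := {q : Fin (m + 1) × Fin (m + 1) // q.1 ≠ q.2}
  obtain ⟨n, ⟨e⟩⟩ := Finite.exists_equiv_fin ι
  have hm1 : (1 : Fin (m + 1)) = Fin.succ ⟨0, by omega⟩ := by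
    apply Fin.ext
    simp only [Fin.succ_mk, zero_add]
    rw [Fin.val_one']
    exact Nat.mod_eq_of_lt (by omega)
  have h01 : (0 : Fin (m + 1)) ≠ 1 := by
    rw [hm1]; exact (Fin.succ_ne_zero _).symm
  refine ⟨n, fun a => Bst (e.symm a).1.1 (e.symm a).1.2, ?_, ?_, ?_⟩
  · ext y
    simp only [Set.mem_iUnion]
    constructor
    · rintro ⟨h1, i, j, hij, hi, hj⟩
      refine ⟨e ⟨(i, j), hij⟩, ?_⟩
      rw [Equiv.symm_apply_apply]
      exact ⟨h1, hi, hj⟩
    · rintro ⟨a, h1, hi, hj⟩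
      exact ⟨h1, _, _, (e.symm a).2, hi, hj⟩
  · intro a
    refine ⟨polyhedron_Bst _ _, ?_⟩
    rw [← finrank_ker_lcl hm (e.symm a).2]
    exact Submodule.finrank_mono (vectorSpan_Bst_le _ _)
  · refine ⟨e ⟨(0, 1), h01⟩, ?_⟩
    beta_reduce
    rw [Equiv.symm_apply_apply]
    -- an inner point
    have hmR : (1 : ℝ) < m := by exact_mod_cast (by omega : 1 < m)
    have hm0 : (0 : ℝ) < m - 1 := by linarith
    let y : Fin m → ℝ := fun k => if k = ⟨0, by omega⟩ then 0 else 1 / ((m : ℝ) - 1)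
    have hsum : ∑ k, y k = 1 := by
      have h1 : ∀ k : Fin m, y k = 1 / ((m : ℝ) - 1) -
          if k = ⟨0, by omega⟩ then 1 / ((m : ℝ) - 1) else 0 := by
        intro k
        simp only [y]
        split_ifs <;> ring
      rw [Finset.sum_congr rfl fun k _ => h1 k, Finset.sum_sub_distrib]
      simp only [Finset.sum_const, Finset.card_univ, Fintype.card_fin, nsmul_eq_mul,
        Finset.sum_ite_eq', Finset.mem_univ, if_true]
      field_simp
    have hy0 : Lc y 0 = 0 := by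
      rw [Lc_zero, hsum]; simp
    have hy1 : Lc y 1 = 0 := by
      rw [hm1, Lc_succ]; simp [y]
    have hyk : ∀ k, k ≠ 0 → k ≠ 1 → 0 < Lc y k := by
      intro k hk0 hk1
      obtain ⟨l, rfl⟩ := Fin.exists_succ_eq.mpr hk0
      rw [Lc_succ]
      have : l ≠ ⟨0, by omega⟩ := by
        intro e
        exact hk1 (by rw [hm1, e])
      simp only [y, if_neg this]
      positivity
    refine ⟨⟨y, ?_, hy0, hy1⟩, ?_⟩
    · intro k
      by_cases h0 : k = 0
      · rw [h0, hy0]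
      · by_cases h1 : k = 1
        · rw [h1, hy1]
        · exact (hyk k h0 h1).le
    · rw [← finrank_ker_lcl hm h01]
      apply le_antisymm
      · exact Submodule.finrank_mono (vectorSpan_Bst_le _ _)
      · exact Submodule.finrank_mono (vectorSpan_Bst_ge hy0 hy1 hyk)

end

end Pool.Agent.TH632
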