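import Pool.Agent.TH632.Flow3

/-!
# Chambers
-/

open Set

namespace Pool.Agent.TH632

universe u

namespace FlowData

variable {V : Type u} {m : ℕ} (D : FlowData V m)

open scoped Classical in
/-- the set of values of an ordered cell -/
noncomputable def im (c : Fin (m + 1) → V) : Finset V := Finset.univ.image c

theorem mem_im {c : Fin (m + 1) → V} {v : V} : v ∈ im c ↔ ∃ i, c i = v := by
  simp [im]

theorem apply_mem_im (c : Fin (m + 1) → V) (i : Fin (m + 1)) : c i ∈ im c := mem_im.mpr ⟨i, rfl⟩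

theorem card_im {c : Fin (m + 1) → V} (hc : Function.Injective c) : (im c).card = m + 1 := by
  classical
  rw [im, Finset.card_image_of_injective _ hc, Finset.card_univ, Fintype.card_fin]

theorem im_comp_perm (c : Fin (m + 1) → V) (π : Equiv.Perm (Fin (m + 1))) :
    im (c ∘ π) = im c := by
  ext v
  rw [mem_im, mem_im]
  constructor
  · rintro ⟨i, hi⟩; exact ⟨π i, hi⟩
  · rintro ⟨i, hi⟩; exact ⟨π.symm i, by simpa using hi⟩

theorem exists_perm {c c' : Fin (m + 1) → V}
    (hc' : Function.Injective c') (h : im c = im c') :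
    ∃ π : Equiv.Perm (Fin (m + 1)), c' = c ∘ π := by
  have h1 : ∀ i, ∃ j, c j = c' i := fun i => mem_im.mp (h ▸ apply_mem_im c' i)
  choose f hf using h1
  have hinj : Function.Injective f := by
    intro i j hij
    apply hc'
    rw [← hf i, ← hf j, hij]
  refine ⟨Equiv.ofBijective f (Finite.injective_iff_bijective.mp hinj), ?_⟩
  funext i
  simp [hf]

/-- ordered cells -/
def OC (c : Fin (m + 1) → V) : Prop := Function.Injective c ∧ im c ∈ D.C

theorem OC.comp_perm {c : Fin (m + 1) → V} (hc : D.OC c) (π : Equiv.Perm (Fin (m + 1))) :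
    D.OC (c ∘ π) := ⟨hc.1.comp π.injective, by rw [im_comp_perm]; exact hc.2⟩

/-- chambers: ordered cells whose first vertex is opposite to a free facet -/
def IsChamber (c : Fin (m + 1) → V) : Prop :=
  D.OC c ∧ c 0 ≠ D.apex (im c) ∧ ∀ κ ∈ D.C, D.par κ = im c → c 0 ∈ κ

/-- the closed simplex of the barycentric subdivision of the free facet of `c` -/
def InSimp (c : Fin (m + 1) → V) (p : V → ℝ) : Prop :=
  p ∈ simplex (im c) ∧ p (c 0) = 0 ∧ ∀ i j : Fin (m + 1), i ≠ 0 → i ≤ j → p (c j) ≤ p (c i)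

/-- `x` lies in the closed chamber of `c` -/
def InCh (c : Fin (m + 1) → V) (x : V → ℝ) : Prop :=
  x ∈ D.space ∧ InSimp c (D.G x).1 ∧ D.Fl (im c) (D.G x).1 (D.G x).2.1 = x

theorem G_of_InSimp {c : Fin (m + 1) → V} (hc : D.IsChamber c) {p : V → ℝ}
    (hp : InSimp c p) : D.G p = (p, 0, none) := by
  rw [D.G_eq hc.1.2 hp.1]
  exact D.Ps_eq_of_free hc.1.2 hp.1 (apply_mem_im c 0) hc.2.1 hc.2.2 hp.2.1

theorem G_Fl_of_InSimp {c : Fin (m + 1) → V} (hc : D.IsChamber c) {p : V → ℝ}
    (hp : InSimp c p) {t : ℝ} (ht : 0 ≤ t) :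
    (D.G (D.Fl (im c) p t)).1 = p ∧ (D.G (D.Fl (im c) p t)).2.1 = t := by
  have h := D.G_Fl hc.1.2 (D.inv_of_mem hc.1.2 hp.1 ht)
  rw [D.G_of_InSimp hc hp] at h
  exact ⟨h.1, by rw [h.2]; simp⟩

theorem InCh_Fl {c : Fin (m + 1) → V} (hc : D.IsChamber c) {p : V → ℝ}
    (hp : InSimp c p) {t : ℝ} (ht : 0 ≤ t) : D.InCh c (D.Fl (im c) p t) := by
  obtain ⟨h1, h2⟩ := D.G_Fl_of_InSimp hc hp ht
  refine ⟨D.Fl_mem hc.1.2 (D.inv_of_mem hc.1.2 hp.1 ht), ?_, ?_⟩
  · rw [h1]; exact hp
  · rw [h1, h2]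

/-! ### existence of chambers -/

open scoped Classical in
/-- sorting -/
theorem exists_sorted {σ : Finset V} (hσ : σ.card = m + 1) {v : V} (hv : v ∈ σ) (p : V → ℝ) :
    ∃ c : Fin (m + 1) → V, Function.Injective c ∧ im c = σ ∧ c 0 = v ∧
      ∀ i j : Fin (m + 1), i ≠ 0 → i ≤ j → p (c j) ≤ p (c i) := by
  have hcard : (σ.erase v).card = m := by
    rw [Finset.card_erase_of_mem hv, hσ]; rfl
  let e : Fin m ≃ (σ.erase v) := (Finset.equivFinOfCardEq hcard).symm
  let q : Fin m → ℝ := fun i => - p (e i)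
  let π := Tuple.sort q
  have hmono : Monotone (q ∘ π) := Tuple.monotone_sort q
  refine ⟨Fin.cons v (fun i => (e (π i) : V)), ?_, ?_, by simp, ?_⟩
  · rw [Fin.cons_injective_iff]
    constructor
    · rintro ⟨i, hi⟩
      have := (e (π i)).2
      have hi' : (e (π i) : V) = v := hi
      rw [hi'] at this
      exact absurd this (Finset.notMem_erase v σ)
    · intro i j hij
      exact π.injective (e.injective (Subtype.ext hij))
  · ext w
    rw [mem_im]
    constructor
    · rintro ⟨i, hi⟩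
      rw [← hi]
      refine Fin.cases ?_ (fun i => ?_) i
      · simpa using hv
      · simp only [Fin.cons_succ]
        exact Finset.mem_of_mem_erase (e (π i)).2
    · intro hw
      by_cases hwv : w = v
      · exact ⟨0, by simp [hwv]⟩
      · have hw' : w ∈ σ.erase v := Finset.mem_erase.mpr ⟨hwv, hw⟩
        refine ⟨(π.symm (e.symm ⟨w, hw'⟩)).succ, ?_⟩
        simp
  · intro i j hi hij
    obtain ⟨i', rfl⟩ := Fin.exists_succ_eq.mpr hi
    have hj : j ≠ 0 := by
      rintro rfl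
      exact hi (le_antisymm hij (Fin.zero_le _))
    obtain ⟨j', rfl⟩ := Fin.exists_succ_eq.mpr hj
    simp only [Fin.cons_succ]
    have := hmono (Fin.succ_le_succ_iff.mp hij)
    simp only [q, Function.comp] at this
    linarith

theorem mu_eq_zero_of_time {σ : Finset V} (hσ : σ ∈ D.C) {p : V → ℝ} (hp : p ∈ simplex σ)
    (hG : (D.G p).2.1 = 0) : D.mu σ p = 0 := by
  rw [D.G_eq hσ hp, D.Ps_eq_comb_base, comb_snd] at hG
  have hmu := D.mu_nonneg hσ hp
  have hm := D.mR_pos
  have hs : 0 ≤ m * D.mu σ p := mul_nonneg hm.le hmu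
  have hb : 0 ≤ (D.base σ (D.bk σ p)).2.1 := by
    rw [base]
    split_ifs with h
    · have h' := Classical.choose_spec h
      exact (D.Ps_facts_aux _ rfl h'.1 h'.2.2).1
    · exact le_rfl
  have : (m : ℝ) * D.mu σ p = 0 := by linarith
  rcases mul_eq_zero.mp this with h | h
  · linarith
  · exact h

theorem exists_chamber_below : ∀ (n : ℕ) {ρ : Finset V} (_ : D.rank ρ = n) (_ : ρ ∈ D.C)
    {p : V → ℝ} (_ : p ∈ simplex ρ) (_ : (D.G p).2.1 = 0),
    ∃ c, D.IsChamber c ∧ InSimp c p ∧ ∃ j, D.par^[j] (im c) = ρ ∧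
      ∀ i < j, p (D.apex (D.par^[i] (im c))) = 0 := by
  intro n
  induction n using Nat.strong_induction_on with
  | _ n ih =>
    intro ρ hn hρ p hp hG
    have hmu := D.mu_eq_zero_of_time hρ hp hG
    obtain ⟨v, hv, hne, hpv⟩ := D.exists_eq_mu hρ p
    rw [hmu] at hpv
    by_cases hex : ∃ κ ∈ D.C, D.par κ = ρ ∧ v ∉ κ
    · obtain ⟨κ, hκ, hpar, hvκ⟩ := hex
      have hpκ := D.mem_child hκ hpar hp hv hvκ hpv
      have hr := D.rank_lt κ hκ
      rw [hpar, hn] at hr
      obtain ⟨c, hc, hcp, j, hj, hj'⟩ := ih _ hr rfl hκ hpκ hG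
      refine ⟨c, hc, hcp, j + 1, ?_, ?_⟩
      · rw [Function.iterate_succ_apply', hj, hpar]
      · intro i hi
        rcases Nat.lt_succ_iff_lt_or_eq.mp hi with h | h
        · exact hj' i h
        · rw [h, hj]
          exact hp.2.1 _ (D.apex_not_mem_of_child hκ hpar)
    · push Not at hex
      obtain ⟨c, hinj, him, hc0, hanti⟩ := exists_sorted (D.card ρ hρ) hv p
      refine ⟨c, ⟨⟨hinj, him ▸ hρ⟩, ?_, ?_⟩, ⟨him ▸ hp, by rw [hc0]; exact hpv, hanti⟩, 0, him,
        fun i hi => absurd hi (Nat.not_lt_zero _)⟩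
      · rw [hc0, him]; exact hne
      · intro κ hκ hpar
        rw [hc0]; exact hex κ hκ (hpar.trans him)

theorem exists_chamber {x : V → ℝ} (hx : x ∈ D.space) : ∃ c, D.IsChamber c ∧ D.InCh c x := by
  cases hT : (D.G x).2.2 with
  | none =>
    have ht := (D.G_none_iff hx).mp hT
    have hG := D.G_of_time_zero hx ht
    obtain ⟨σ, hσ, hxσ⟩ := hx
    obtain ⟨c, hc, hcp, _⟩ := D.exists_chamber_below _ rfl hσ hxσ ht
    refine ⟨c, hc, ⟨σ, hσ, hxσ⟩, by rw [hG]; exact hcp, ?_⟩
    rw [hG]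
    exact D.Fl_zero hc.1.2 hcp.1
  | some ρ =>
    obtain ⟨hρ, hpρ, hFl⟩ := D.reach hx hT
    have hGG := D.G_G hx
    obtain ⟨c, hc, hcp, j, hj, hj'⟩ := D.exists_chamber_below _ rfl hρ hpρ (by rw [hGG])
    refine ⟨c, hc, hx, hcp, ?_⟩
    have := (D.Fl_iter hc.1.2 hcp.1 j hj' (D.G_nonneg hx)).2
    rw [this, hj]
    exact hFl

/-! ### the sorted coordinates are well defined -/

theorem InSimp.nonneg {c : Fin (m + 1) → V} {p : V → ℝ} (h : InSimp c p) (v : V) : 0 ≤ p v :=
  h.1.1 v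

open scoped Classical in
theorem sorted_le {c c' : Fin (m + 1) → V} (hc : Function.Injective c)
    (hc' : Function.Injective c') {p : V → ℝ} (h : InSimp c p) (h' : InSimp c' p)
    {i : Fin (m + 1)} (hi : i ≠ 0) : p (c i) ≤ p (c' i) := by
  by_contra hlt
  push Not at hlt
  have hpos : 0 < p (c i) := lt_of_le_of_lt (h'.nonneg _) hlt
  -- the set of indices `j` with `p (c j) ≥ p (c i)` injects into those with `p (c' j) ≥ p (c i)`
  have h1 : ∀ j : Fin (m + 1), j ≠ 0 → j ≤ i → ∃ l : Fin (m + 1), l ≠ 0 ∧ l < i ∧ c' l = c j := by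
    intro j hj hji
    have hge : p (c i) ≤ p (c j) := h.2.2 j i hj hji
    have hmem : c j ∈ im c' := by
      by_contra hc
      have := h'.1.2.1 _ hc
      linarith
    obtain ⟨l, hl⟩ := mem_im.mp hmem
    refine ⟨l, ?_, ?_, hl⟩
    · rintro rfl
      have := h'.2.1
      rw [hl] at this
      linarith
    · by_contra hli
      push Not at hli
      have := h'.2.2 i l hi hli
      rw [hl] at this
      linarith
  let A : Finset (Fin (m + 1)) := Finset.univ.filter (fun j => j ≠ 0 ∧ j ≤ i)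
  let B : Finset (Fin (m + 1)) := Finset.univ.filter (fun j => j ≠ 0 ∧ j < i)
  have hAB : A.card ≤ B.card := by
    have h2 : A.image c ⊆ B.image c' := by
      intro v hv
      rw [Finset.mem_image] at hv ⊢
      obtain ⟨j, hj, rfl⟩ := hv
      simp only [A, Finset.mem_filter, Finset.mem_univ, true_and] at hj
      obtain ⟨l, hl1, hl2, hl3⟩ := h1 j hj.1 hj.2
      exact ⟨l, by simp [B, hl1, hl2], hl3⟩
    have h3 := Finset.card_le_card h2
    rwa [Finset.card_image_of_injective _ hc, Finset.card_image_of_injective _ hc'] at h3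
  have hlt' : B.card < A.card := by
    apply Finset.card_lt_card
    constructor
    · intro j hj
      simp only [A, B, Finset.mem_filter, Finset.mem_univ, true_and] at hj ⊢
      exact ⟨hj.1, hj.2.le⟩
    · intro hsub
      have : i ∈ B := hsub (by simp [A, hi])
      simp [B] at this
  omega

theorem sorted_eq {c c' : Fin (m + 1) → V} (hc : Function.Injective c)
    (hc' : Function.Injective c') {p : V → ℝ} (h : InSimp c p) (h' : InSimp c' p)
    {i : Fin (m + 1)} (hi : i ≠ 0) : p (c i) = p (c' i) :=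
  le_antisymm (sorted_le hc hc' h h' hi) (sorted_le hc' hc h' h hi)

end FlowData

end Pool.Agent.TH632
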