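import Pool.Agent.TH632.Chamber

/-!
# Chambers at a wall
-/

open Set

namespace Pool.Agent.TH632

universe u

namespace FlowData

variable {V : Type u} {m : ℕ} (D : FlowData V m)

/-- an orientation of the cells -/
structure IsOrientation (o : (Fin (m + 1) → V) → ℤˣ) : Prop where
  alt : ∀ t, D.OC t → ∀ π : Equiv.Perm (Fin (m + 1)), o (t ∘ π) = Equiv.Perm.sign π * o t
  coh : ∀ t t', D.OC t → D.OC t' → t 0 ≠ t' 0 → (∀ i, i ≠ 0 → t i = t' i) → o t' = - o t

theorem units_neg_ne (a : ℤˣ) : -a ≠ a := by
  rcases Int.units_eq_one_or a with h | h <;> subst h <;> decide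

include D in
theorem zero_ne_last : (0 : Fin (m + 1)) ≠ Fin.last m := by
  have := D.mpos
  intro h
  have := congrArg Fin.val h
  simp at this
  omega

theorem IsOrientation.swap {o : (Fin (m + 1) → V) → ℤˣ} (ho : D.IsOrientation o)
    {c : Fin (m + 1) → V} (hc : D.OC c) {i j : Fin (m + 1)} (hij : i ≠ j) :
    o (c ∘ Equiv.swap i j) = - o c := by
  rw [ho.alt c hc, Equiv.Perm.sign_swap hij]
  simp

/-! ### Elementary moves around a codimension two face -/

/-- `US c d`: the ordered cell `d` lies in the parent of the cell of `c`, both contain the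
codimension two face `{c 1, …, c (m-1)}`, in the same order. -/
structure US (c d : Fin (m + 1) → V) : Prop where
  oc : D.OC c
  oc' : D.OC d
  par : D.par (im c) = im d
  apex : D.apex (im c) = c (Fin.last m)
  zero : d 0 ∉ im c
  mid : ∀ i, i ≠ 0 → i ≠ Fin.last m → d i = c i
  last : d (Fin.last m) = c 0

theorem US.sign {o : (Fin (m + 1) → V) → ℤˣ} (ho : D.IsOrientation o)
    {c d : Fin (m + 1) → V} (h : D.US c d) : o d = o c := by
  have hne := D.zero_ne_last
  have h1 : o (c ∘ Equiv.swap 0 (Fin.last m)) = - o c := ho.swap D h.oc hne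
  have h2 : o d = - o (c ∘ Equiv.swap 0 (Fin.last m)) := by
    apply ho.coh _ _ (h.oc.comp_perm D _) h.oc'
    · simp only [Function.comp, Equiv.swap_apply_left]
      intro e
      exact h.zero (e ▸ apply_mem_im c _)
    · intro i hi
      by_cases hl : i = Fin.last m
      · rw [hl, h.last]
        simp
      · rw [h.mid i hi hl]
        simp [Equiv.swap_apply_of_ne_of_ne hi hl]
  rw [h2, h1, neg_neg]

theorem exists_US_up {c : Fin (m + 1) → V} (hc : D.OC c)
    (ha : D.apex (im c) = c (Fin.last m)) :
    ∃ d, D.US c d ∧ d 0 ≠ D.apex (im d) := by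
  classical
  have hne := D.zero_ne_last
  obtain ⟨w, hw, hwc, hall⟩ := D.exists_missing hc.2
  let d : Fin (m + 1) → V := fun i => if i = 0 then w else if i = Fin.last m then c 0 else c i
  have hd0 : d 0 = w := by simp [d]
  have hdl : d (Fin.last m) = c 0 := by simp [d, hne.symm]
  have hdm : ∀ i, i ≠ 0 → i ≠ Fin.last m → d i = c i := by
    intro i h1 h2; simp [d, h1, h2]
  have hinj : Function.Injective d := by
    intro i j hij
    by_cases hi : i = 0
    · by_cases hj : j = 0
      · rw [hi, hj]
      · exfalso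
        rw [hi, hd0] at hij
        by_cases hjl : j = Fin.last m
        · rw [hjl, hdl] at hij
          exact hwc (hij ▸ apply_mem_im c 0)
        · rw [hdm j hj hjl] at hij
          exact hwc (hij ▸ apply_mem_im c j)
    · by_cases hj : j = 0
      · exfalso
        rw [hj, hd0] at hij
        by_cases hil : i = Fin.last m
        · rw [hil, hdl] at hij
          exact hwc (hij ▸ apply_mem_im c 0)
        · rw [hdm i hi hil] at hij
          exact hwc (hij ▸ apply_mem_im c i)
      · by_cases hil : i = Fin.last m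
        · by_cases hjl : j = Fin.last m
          · rw [hil, hjl]
          · rw [hil, hdl, hdm j hj hjl] at hij
            exact absurd (hc.1 hij) (fun h => hj h.symm)
        · by_cases hjl : j = Fin.last m
          · rw [hjl, hdl, hdm i hi hil] at hij
            exact absurd (hc.1 hij) hi
          · rw [hdm i hi hil, hdm j hj hjl] at hij
            exact hc.1 hij
  have hsub : im d ⊆ D.par (im c) := by
    intro v hv
    obtain ⟨i, rfl⟩ := mem_im.mp hv
    by_cases hi : i = 0
    · rw [hi, hd0]; exact hw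
    · by_cases hil : i = Fin.last m
      · rw [hil, hdl]
        apply D.par_sub _ hc.2 _ (apply_mem_im c 0)
        rw [ha]
        exact fun h => hne (hc.1 h)
      · rw [hdm i hi hil]
        apply D.par_sub _ hc.2 _ (apply_mem_im c i)
        rw [ha]
        exact fun h => hil (hc.1 h)
  have him : D.par (im c) = im d :=
    (Finset.eq_of_subset_of_card_le hsub
      (by rw [card_im hinj, D.card _ (D.par_mem _ hc.2)])).symm
  refine ⟨d, ⟨hc, ⟨hinj, him ▸ D.par_mem _ hc.2⟩, him, ha, by rw [hd0]; exact hwc, hdm, hdl⟩, ?_⟩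
  rw [hd0, ← him]
  exact D.missing_ne_apex hc.2 hw hwc

theorem exists_US_down {d : Fin (m + 1) → V} (hd : D.OC d) {κ : Finset V} (hκ : κ ∈ D.C)
    (hpar : D.par κ = im d) (hdκ : d 0 ∉ κ) : ∃ c, D.US c d ∧ im c = κ ∧ c 0 ≠ D.apex (im c) := by
  classical
  have hne := D.zero_ne_last
  have haκ := D.apex_mem κ hκ
  have had := D.apex_not_mem_of_child hκ hpar
  let c : Fin (m + 1) → V := fun i =>
    if i = 0 then d (Fin.last m) else if i = Fin.last m then D.apex κ else d i
  have hc0 : c 0 = d (Fin.last m) := by simp [c]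
  have hcl : c (Fin.last m) = D.apex κ := by simp [c, hne.symm]
  have hcm : ∀ i, i ≠ 0 → i ≠ Fin.last m → c i = d i := by
    intro i h1 h2; simp [c, h1, h2]
  have hinj : Function.Injective c := by
    intro i j hij
    by_cases hi : i = 0
    · by_cases hj : j = 0
      · rw [hi, hj]
      · exfalso
        rw [hi, hc0] at hij
        by_cases hjl : j = Fin.last m
        · rw [hjl, hcl] at hij
          exact had (hij ▸ apply_mem_im d _)
        · rw [hcm j hj hjl] at hij
          exact hjl (hd.1 hij).symm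
    · by_cases hj : j = 0
      · exfalso
        rw [hj, hc0] at hij
        by_cases hil : i = Fin.last m
        · rw [hil, hcl] at hij
          exact had (hij ▸ apply_mem_im d _)
        · rw [hcm i hi hil] at hij
          exact hil (hd.1 hij)
      · by_cases hil : i = Fin.last m
        · by_cases hjl : j = Fin.last m
          · rw [hil, hjl]
          · rw [hil, hcl, hcm j hj hjl] at hij
            exact absurd (hij ▸ apply_mem_im d _) had
        · by_cases hjl : j = Fin.last m
          · rw [hjl, hcl, hcm i hi hil] at hij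
            exact absurd (hij ▸ apply_mem_im d _) had
          · rw [hcm i hi hil, hcm j hj hjl] at hij
            exact hd.1 hij
  have hmemκ : ∀ i, i ≠ 0 → d i ∈ κ := by
    intro i hi
    by_contra hc
    exact hi (hd.1 (D.missing_unique hκ (hpar ▸ apply_mem_im d i) hc
      (hpar ▸ apply_mem_im d 0) hdκ))
  have hsub : im c ⊆ κ := by
    intro v hv
    obtain ⟨i, rfl⟩ := mem_im.mp hv
    by_cases hi : i = 0
    · rw [hi, hc0]; exact hmemκ _ hne.symm
    · by_cases hil : i = Fin.last m
      · rw [hil, hcl]; exact haκ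
      · rw [hcm i hi hil]; exact hmemκ i hi
  have him : im c = κ :=
    Finset.eq_of_subset_of_card_le hsub (by rw [card_im hinj, D.card _ hκ])
  refine ⟨c, ⟨⟨hinj, him ▸ hκ⟩, hd, by rw [him]; exact hpar, by rw [him, hcl], by rw [him]; exact hdκ,
    fun i h1 h2 => (hcm i h1 h2).symm, hc0.symm⟩, him, ?_⟩
  rw [hc0, him]
  exact fun h => had (h ▸ apply_mem_im d _)

theorem US.unique_down {c c' d : Fin (m + 1) → V} (h : D.US c d) (h' : D.US c' d) : c = c' := by
  have him : im c = im c' :=
    D.child_unique h.oc.2 h.par h'.oc.2 h'.par (apply_mem_im d 0) h.zero h'.zero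
  funext i
  by_cases hi : i = 0
  · rw [hi, ← h.last, ← h'.last]
  · by_cases hil : i = Fin.last m
    · rw [hil, ← h.apex, ← h'.apex, him]
    · rw [← h.mid i hi hil, ← h'.mid i hi hil]

/-- chambers below a given ordered cell are unique -/
theorem unique_chamber_below {c c' d : Fin (m + 1) → V} (hc : D.IsChamber c)
    (hc' : D.IsChamber c') (h : Relation.ReflTransGen D.US c d)
    (h' : Relation.ReflTransGen D.US c' d) : c = c' := by
  induction h with
  | refl =>
    rcases Relation.ReflTransGen.cases_tail h' with h1 | ⟨e, _, he⟩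
    · exact h1
    · exact absurd (hc.2.2 _ he.oc.2 he.par) he.zero
  | tail hab hbc ih =>
    rcases Relation.ReflTransGen.cases_tail h' with h1 | ⟨e, he', he⟩
    · subst h1
      exact absurd (hc'.2.2 _ hbc.oc.2 hbc.par) hbc.zero
    · have := US.unique_down D hbc he
      subst this
      exact ih he'

theorem RTG_sign {o : (Fin (m + 1) → V) → ℤˣ} (ho : D.IsOrientation o)
    {c d : Fin (m + 1) → V} (h : Relation.ReflTransGen D.US c d) : o d = o c := by
  induction h with
  | refl => rfl
  | tail _ hbc ih => rw [US.sign D ho hbc, ih]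

theorem RTG_mid {c d : Fin (m + 1) → V} (h : Relation.ReflTransGen D.US c d) :
    ∀ i, i ≠ 0 → i ≠ Fin.last m → d i = c i := by
  induction h with
  | refl => intros; rfl
  | tail _ hbc ih => intro i h1 h2; rw [hbc.mid i h1 h2, ih i h1 h2]

/-- transport of codimension two points down -/
theorem RTG_down {c d : Fin (m + 1) → V} (h : Relation.ReflTransGen D.US c d) {p : V → ℝ}
    (hp : p ∈ simplex (im d)) (h0 : p (d 0) = 0) (hl : p (d (Fin.last m)) = 0) {t : ℝ}
    (ht : 0 ≤ t) :
    p ∈ simplex (im c) ∧ p (c 0) = 0 ∧ p (c (Fin.last m)) = 0 ∧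
      D.Fl (im c) p t = D.Fl (im d) p t := by
  induction h using Relation.ReflTransGen.head_induction_on with
  | refl => exact ⟨hp, h0, hl, rfl⟩
  | @head a b hab _ ih =>
    obtain ⟨i1, i2, i3, i4⟩ := ih
    have hpa : p ∈ simplex (im a) :=
      D.mem_child hab.oc.2 hab.par i1 (apply_mem_im b 0) hab.zero i2
    have hap : p (D.apex (im a)) = 0 :=
      i1.2.1 _ (D.apex_not_mem_of_child hab.oc.2 hab.par)
    refine ⟨hpa, ?_, ?_, ?_⟩
    · rw [← hab.last]; exact i3
    · rw [← hab.apex]; exact hap
    · rw [D.Fl_par hab.oc.2 hpa hap ht, hab.par, i4]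

/-- existence of a chamber below an ordered cell -/
theorem exists_chamber_RTG : ∀ (n : ℕ) {d : Fin (m + 1) → V} (_ : D.rank (im d) = n)
    (_ : D.OC d) (_ : d 0 ≠ D.apex (im d)),
    ∃ c, D.IsChamber c ∧ Relation.ReflTransGen D.US c d := by
  intro n
  induction n using Nat.strong_induction_on with
  | _ n ih =>
    intro d hn hd hne
    by_cases hex : ∃ κ ∈ D.C, D.par κ = im d ∧ d 0 ∉ κ
    · obtain ⟨κ, hκ, hpar, hdκ⟩ := hex
      obtain ⟨c, hc, him, hca⟩ := D.exists_US_down hd hκ hpar hdκ
      have hr := D.rank_lt κ hκ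
      rw [hpar, hn, ← him] at hr
      obtain ⟨c', hc', hcc'⟩ := ih _ hr rfl hc.oc hca
      exact ⟨c', hc', hcc'.tail hc⟩
    · push Not at hex
      exact ⟨d, ⟨hd, hne, hex⟩, Relation.ReflTransGen.refl⟩

/-- climbing up from an ordered cell to the cell where the flow line starts -/
theorem exists_RTG_up (j : ℕ) {c : Fin (m + 1) → V} (hc : D.OC c) (hca : c 0 ≠ D.apex (im c))
    {p : V → ℝ} (hp : p ∈ simplex (im c)) (h0 : p (c 0) = 0) (hl : p (c (Fin.last m)) = 0)
    (hmid : ∀ i, i ≠ 0 → i ≠ Fin.last m → 0 < p (c i))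
    (hz : ∀ i < j, p (D.apex (D.par^[i] (im c))) = 0) :
    ∃ d, Relation.ReflTransGen D.US c d ∧ D.OC d ∧ im d = D.par^[j] (im c) ∧ p (d 0) = 0 ∧
      p (d (Fin.last m)) = 0 ∧ p ∈ simplex (im d) := by
  induction j generalizing c with
  | zero => exact ⟨c, Relation.ReflTransGen.refl, hc, rfl, h0, hl, hp⟩
  | succ j ih =>
    have ha0 : p (D.apex (im c)) = 0 := hz 0 (Nat.succ_pos j)
    have ha : D.apex (im c) = c (Fin.last m) := by
      obtain ⟨i, hi⟩ := mem_im.mp (D.apex_mem _ hc.2)
      by_cases hi0 : i = 0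
      · exact absurd (hi0 ▸ hi) hca
      · by_cases hil : i = Fin.last m
        · rw [← hi, hil]
        · have := hmid i hi0 hil
          rw [hi, ha0] at this
          exact absurd this (lt_irrefl _)
    obtain ⟨e, he, hea⟩ := D.exists_US_up hc ha
    have hpe : p ∈ simplex (im e) := he.par ▸ D.mem_par hc.2 hp ha0
    have he0 : p (e 0) = 0 := hp.2.1 _ he.zero
    have hel : p (e (Fin.last m)) = 0 := by rw [he.last]; exact h0
    obtain ⟨d, hd1, hd2, hd3, hd4, hd5, hd6⟩ := ih he.oc' hea hpe he0 hel
      (fun i h1 h2 => by rw [he.mid i h1 h2]; exact hmid i h1 h2)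
      (fun i hi => by
        have := hz (i + 1) (by omega)
        rw [Function.iterate_succ_apply, he.par] at this
        exact this)
    refine ⟨d, Relation.ReflTransGen.head he hd1, hd2, ?_, hd4, hd5, hd6⟩
    rw [Function.iterate_succ_apply, he.par, hd3]

/-! ### the first cell of a flow line through a chamber -/

/-- data of the flow line of a point of a chamber at positive time -/
theorem InCh_top {c : Fin (m + 1) → V} (hc : D.IsChamber c) {x : V → ℝ} (hx : D.InCh c x)
    (ht : 0 < (D.G x).2.1) :
    ∃ j, (D.G x).2.2 = some (D.par^[j] (im c)) ∧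
      0 < (D.G x).1 (D.apex (D.par^[j] (im c))) ∧
      (∀ i < j, (D.G x).1 (D.apex (D.par^[i] (im c))) = 0) := by
  obtain ⟨hxs, hsimp, hFl⟩ := hx
  have hinv := D.inv_of_mem hc.1.2 hsimp.1 ht.le
  obtain ⟨k, hk⟩ := D.exists_end hc.1.2 hinv
  have hG0 : (D.G (D.G x).1).2.1 = 0 := by rw [D.G_G hxs]
  obtain ⟨j, _, j1, j2, _, j4, _⟩ := D.G_Fn_top k hc.1.2 hinv hG0 ht hk
  rw [← D.Fl_eq hc.1.2 hinv hk, hFl] at j1
  exact ⟨j, j1, j2, j4⟩

/-- if all coordinates on the free facet are positive, the first cell is the cell of `c` -/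
theorem InCh_top_of_pos {c : Fin (m + 1) → V} (hc : D.IsChamber c) {x : V → ℝ}
    (hx : D.InCh c x) (ht : 0 < (D.G x).2.1) (hpos : ∀ i, i ≠ 0 → 0 < (D.G x).1 (c i)) :
    (D.G x).2.2 = some (im c) := by
  obtain ⟨j, j1, _, j3⟩ := D.InCh_top hc hx ht
  cases j with
  | zero => exact j1
  | succ j =>
    exfalso
    have h0 := j3 0 (Nat.succ_pos j)
    simp only [Function.iterate_zero, id] at h0
    obtain ⟨i, hi⟩ := mem_im.mp (D.apex_mem _ hc.1.2)
    have hi0 : i ≠ 0 := by
      rintro rfl
      exact hc.2.1 hi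
    have := hpos i hi0
    rw [hi, h0] at this
    exact lt_irrefl _ this

end FlowData

end Pool.Agent.TH632
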