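import Pool.Agent.TH632.Chamber2

/-!
# Exactly two chambers at a generic wall point
-/

open Set

namespace Pool.Agent.TH632

universe u

theorem perm_two {n : ℕ} {π : Equiv.Perm (Fin n)} {a b : Fin n}
    (h : ∀ i, i ≠ a → i ≠ b → π i = i) : π = 1 ∨ π = Equiv.swap a b := by
  have key : ∀ i j, i ≠ a → i ≠ b → π j = i → j = i := by
    intro i j h1 h2 h3
    exact π.injective (h3.trans (h i h1 h2).symm)
  by_cases ha : π a = a
  · left
    ext i
    by_cases hia : i = a
    · rw [hia, ha]; rfl
    · by_cases hib : i = b
      · rw [hib]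
        have hne : a ≠ b := fun e => hia (by rw [hib, e])
        have : π b = b := by
          by_contra hc
          by_cases hpa : π b = a
          · exact hne (π.injective (ha.trans hpa.symm))
          · exact hc (key (π b) b hpa hc rfl).symm
        rw [this]; rfl
      · rw [h i hia hib]; rfl
  · right
    have hab : π a = b := by
      by_contra hc
      exact ha (key (π a) a ha hc rfl).symm
    have hne : a ≠ b := fun e => ha (by rw [hab, e])
    have hba : π b = a := by
      by_contra hc
      by_cases hpb : π b = b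
      · exact hne (π.injective (hab.trans hpb.symm))
      · exact hpb (key (π b) b hc hpb rfl).symm
    ext i
    by_cases hia : i = a
    · rw [hia, hab, Equiv.swap_apply_left]
    · by_cases hib : i = b
      · rw [hib, hba, Equiv.swap_apply_right]
      · rw [h i hia hib, Equiv.swap_apply_of_ne_of_ne hia hib]

namespace FlowData

variable {V : Type u} {m : ℕ} (D : FlowData V m)

/-- the slack of the `i`-th constraint at a point of the chamber of `c` -/
noncomputable def Gap (c : Fin (m + 1) → V) (p : V → ℝ) (t : ℝ) (i : Fin (m + 1)) : ℝ :=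
  if i = 0 then t else
    p (c i) - (if h : i.val < m then p (c ⟨i.val + 1, by omega⟩) else 0)

theorem Gap_zero (c : Fin (m + 1) → V) (p : V → ℝ) (t : ℝ) : Gap c p t 0 = t := by simp [Gap]

theorem Gap_mid (c : Fin (m + 1) → V) (p : V → ℝ) (t : ℝ) {i j : Fin (m + 1)} (hi : i ≠ 0)
    (hij : j.val = i.val + 1) : Gap c p t i = p (c i) - p (c j) := by
  have h : i.val < m := by have := j.2; omega
  have e : (⟨i.val + 1, by omega⟩ : Fin (m + 1)) = j := Fin.ext hij.symm
  simp [Gap, hi, h, e]

include D in
theorem Gap_last (c : Fin (m + 1) → V) (p : V → ℝ) (t : ℝ) :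
    Gap c p t (Fin.last m) = p (c (Fin.last m)) := by
  have := D.zero_ne_last.symm
  simp [Gap, this]

theorem InSimp.Gap_nonneg {c : Fin (m + 1) → V} {p : V → ℝ} (h : InSimp c p) {t : ℝ}
    (ht : 0 ≤ t) (i : Fin (m + 1)) : 0 ≤ Gap c p t i := by
  unfold Gap
  split_ifs with h1 h2
  · exact ht
  · have := h.2.2 i ⟨i.val + 1, by omega⟩ h1 (Fin.mk_le_mk.mpr (Nat.le_succ _))
    linarith
  · have := h.nonneg (c i)
    linarith

theorem Gap_congr {c c' : Fin (m + 1) → V} (hc : Function.Injective c)
    (hc' : Function.Injective c') {p : V → ℝ} (h : InSimp c p) (h' : InSimp c' p) (t : ℝ) :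
    Gap c p t = Gap c' p t := by
  funext i
  unfold Gap
  split_ifs with h1 h2
  · rfl
  · rw [sorted_eq hc hc' h h' h1, sorted_eq hc hc' h h' (i := ⟨i.val + 1, by omega⟩)
      (by intro e; have := congrArg Fin.val e; simp at this)]
  · rw [sorted_eq hc hc' h h' h1]

theorem tie {c : Fin (m + 1) → V} {p : V → ℝ} (h : InSimp c p) {t : ℝ} {i0 : Fin (m + 1)}
    (hG : ∀ i, i ≠ i0 → 0 < Gap c p t i) {i j : Fin (m + 1)} (hi : i ≠ 0) (hij : i < j)
    (he : p (c i) = p (c j)) : i = i0 ∧ j.val = i.val + 1 := by
  have hijv : i.val < j.val := hij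
  have hjm := j.2
  have h1 : i = i0 := by
    by_contra hne
    have hg := hG i hne
    rw [Gap_mid c p t (j := ⟨i.val + 1, by omega⟩) hi rfl] at hg
    have := h.2.2 ⟨i.val + 1, by omega⟩ j
      (by intro e; have := congrArg Fin.val e; simp at this) (Fin.mk_le_mk.mpr (by omega))
    linarith
  refine ⟨h1, ?_⟩
  by_contra hne
  have hlt : i.val + 1 < j.val := by omega
  have hg := hG ⟨i.val + 1, by omega⟩ (by
    intro e
    have := congrArg Fin.val (e.trans h1.symm)
    simp at this)
  rw [Gap_mid c p t (j := ⟨i.val + 2, by omega⟩)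
    (by intro e; have := congrArg Fin.val e; simp at this) rfl] at hg
  have h2 := h.2.2 ⟨i.val + 2, by omega⟩ j
    (by intro e; have := congrArg Fin.val e; simp at this) (Fin.mk_le_mk.mpr (by omega))
  have h3 := h.2.2 i ⟨i.val + 1, by omega⟩ hi (Fin.mk_le_mk.mpr (by omega))
  linarith

theorem tie' {c : Fin (m + 1) → V} {p : V → ℝ} (h : InSimp c p) {t : ℝ} {i0 : Fin (m + 1)}
    (hG : ∀ i, i ≠ i0 → 0 < Gap c p t i) {i j : Fin (m + 1)} (hi : i ≠ 0) (hj : j ≠ 0)
    (hij : i ≠ j) (he : p (c i) = p (c j)) :
    (i = i0 ∧ j.val = i.val + 1) ∨ (j = i0 ∧ i.val = j.val + 1) := by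
  rcases lt_or_gt_of_ne hij with hlt | hlt
  · exact Or.inl (tie h hG hi hlt he)
  · exact Or.inr (tie h hG hj hlt he.symm)

/-- matching of the vertices with positive coordinates -/
theorem exists_match {c c' : Fin (m + 1) → V} (hc : Function.Injective c)
    (hc' : Function.Injective c') {p : V → ℝ} (h : InSimp c p) (h' : InSimp c' p)
    {i : Fin (m + 1)} (hi : i ≠ 0) (hpos : 0 < p (c i)) :
    ∃ l, l ≠ 0 ∧ c' i = c l ∧ p (c l) = p (c i) := by
  have e := sorted_eq hc hc' h h' hi
  have hmem : c' i ∈ im c := by
    by_contra hn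
    have := h.1.2.1 _ hn
    rw [← e] at this
    linarith
  obtain ⟨l, hl⟩ := mem_im.mp hmem
  refine ⟨l, ?_, hl.symm, by rw [hl, e]⟩
  rintro rfl
  have := h.2.1
  rw [hl, ← e] at this
  linarith

/-- positivity of all coordinates when the last one is positive -/
theorem pos_of_last {c : Fin (m + 1) → V} {p : V → ℝ} (h : InSimp c p)
    (hl : 0 < p (c (Fin.last m))) {i : Fin (m + 1)} (hi : i ≠ 0) : 0 < p (c i) :=
  lt_of_lt_of_le hl (h.2.2 i (Fin.last m) hi (Fin.le_last i))

/-- positivity of the middle coordinates -/
theorem pos_of_mid {c : Fin (m + 1) → V} {p : V → ℝ} (h : InSimp c p) {t : ℝ}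
    (hG : ∀ i, i ≠ Fin.last m → 0 < Gap c p t i) {i : Fin (m + 1)} (hi : i ≠ 0)
    (hil : i ≠ Fin.last m) : 0 < p (c i) := by
  have hiv : i.val < m := by
    have h1 := i.2
    have h2 : i.val ≠ m := fun e => hil (Fin.ext e)
    omega
  have hg := hG i hil
  rw [Gap_mid c p t (j := ⟨i.val + 1, by omega⟩) hi rfl] at hg
  have := h.nonneg (c ⟨i.val + 1, by omega⟩)
  linarith

variable {D}

/-- chambers of the same sign through a point with at most one tight constraint agree -/
theorem unique_same_sign {o : (Fin (m + 1) → V) → ℤˣ} (ho : D.IsOrientation o)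
    {c c' : Fin (m + 1) → V} (hc : D.IsChamber c) (hc' : D.IsChamber c') {x : V → ℝ}
    (hx : D.InCh c x) (hx' : D.InCh c' x) (hs : o c = o c') {i0 : Fin (m + 1)}
    (hG : ∀ i, i ≠ i0 → 0 < Gap c (D.G x).1 (D.G x).2.1 i) : c = c' := by
  have hinj := hc.1.1
  have hinj' := hc'.1.1
  have hS := hx.2.1
  have hS' := hx'.2.1
  have hne0 := D.zero_ne_last
  set p := (D.G x).1 with hp
  set t := (D.G x).2.1 with htdef
  have ht : 0 ≤ t := D.G_nonneg hx.1
  rcases eq_or_lt_of_le ht with ht0 | ht0
  · -- time zero
    have hi0 : i0 = 0 := by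
      by_contra hne
      have := hG 0 (fun e => hne e.symm)
      rw [Gap_zero, ← ht0] at this
      exact lt_irrefl _ this
    subst hi0
    have hlast : 0 < p (c (Fin.last m)) := by
      have := hG (Fin.last m) hne0.symm
      rwa [D.Gap_last] at this
    have heq : ∀ i, i ≠ 0 → c i = c' i := by
      intro i hi
      obtain ⟨l, hl0, hl, hpl⟩ := exists_match hinj hinj' hS hS' hi (pos_of_last hS hlast hi)
      by_cases hli : l = i
      · rw [hl, hli]
      · exfalso
        rcases tie' hS hG hl0 hi hli hpl with h | h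
        · exact hl0 h.1
        · exact hi h.1
    by_cases h0 : c 0 = c' 0
    · funext i
      by_cases hi : i = 0
      · rw [hi, h0]
      · exact heq i hi
    · have := ho.coh c c' hc.1 hc'.1 h0 heq
      rw [← hs] at this
      exact absurd this.symm (units_neg_ne _)
  · by_cases hlast : 0 < p (c (Fin.last m))
    · -- all coordinates positive
      have hpos : ∀ i, i ≠ 0 → 0 < p (c i) := fun i hi => pos_of_last hS hlast hi
      have hpos' : ∀ i, i ≠ 0 → 0 < p (c' i) := fun i hi => by
        rw [← sorted_eq hinj hinj' hS hS' hi]; exact hpos i hi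
      have e1 := D.InCh_top_of_pos hc hx ht0 hpos
      have e2 := D.InCh_top_of_pos hc' hx' ht0 hpos'
      have him : im c = im c' := by
        rw [e1] at e2
        simpa using e2
      obtain ⟨π, hπ⟩ := exists_perm hinj' him
      have hπ0 : π 0 = 0 := by
        by_contra hne
        have h1 := hpos (π 0) hne
        have h2 := hS'.2.1
        rw [hπ] at h2
        simp only [Function.comp] at h2
        linarith
      have hπi : ∀ i, i ≠ 0 → p (c (π i)) = p (c i) := by
        intro i hi
        rw [sorted_eq hinj hinj' hS hS' hi, hπ]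
        rfl
      have hπne : ∀ i, i ≠ 0 → π i ≠ 0 := by
        intro i hi h
        exact hi (π.injective (h.trans hπ0.symm))
      by_cases hi0 : i0 = 0 ∨ i0 = Fin.last m
      · have hfix : ∀ i, π i = i := by
          intro i
          by_cases hi : i = 0
          · rw [hi, hπ0]
          · by_contra hne
            rcases tie' hS hG (hπne i hi) hi hne (hπi i hi) with h | h
            · rcases hi0 with h0 | h0
              · exact hπne i hi (h.1.trans h0)
              · have h1 := congrArg Fin.val (h.1.trans h0)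
                have h2 := i.2
                have h3 := h.2
                simp only [Fin.val_last] at h1
                omega
            · rcases hi0 with h0 | h0
              · exact hi (h.1.trans h0)
              · have h1 := congrArg Fin.val (h.1.trans h0)
                have h2 := (π i).2
                have h3 := h.2
                simp only [Fin.val_last] at h1
                omega
        rw [hπ]
        funext i
        simp [hfix i]
      · push Not at hi0
        have hi0v : i0.val < m := by
          have h1 := i0.2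
          have h2 : i0.val ≠ m := fun e => hi0.2 (Fin.ext e)
          omega
        set j0 : Fin (m + 1) := ⟨i0.val + 1, by omega⟩ with hj0
        have hfix : ∀ i, i ≠ i0 → i ≠ j0 → π i = i := by
          intro i h1 h2
          by_cases hi : i = 0
          · rw [hi, hπ0]
          · by_contra hne
            rcases tie' hS hG (hπne i hi) hi hne (hπi i hi) with h | h
            · apply h2
              apply Fin.ext
              rw [h.2, h.1, hj0]
            · exact h1 h.1
        rcases perm_two hfix with h | h
        · rw [hπ, h]; rfl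
        · exfalso
          have hne : i0 ≠ j0 := by
            intro e
            have := congrArg Fin.val e
            simp [hj0] at this
          have := ho.swap D hc.1 hne
          rw [← h, ← hπ, ← hs] at this
          exact absurd this.symm (units_neg_ne _)
    · -- the last coordinate vanishes
      have hl0 : p (c (Fin.last m)) = 0 := le_antisymm (not_lt.mp hlast) (hS.nonneg _)
      have hi0 : i0 = Fin.last m := by
        by_contra hne
        have := hG (Fin.last m) (fun e => hne e.symm)
        rw [D.Gap_last, hl0] at this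
        exact lt_irrefl _ this
      subst hi0
      have hmid : ∀ i, i ≠ 0 → i ≠ Fin.last m → 0 < p (c i) :=
        fun i h1 h2 => pos_of_mid hS hG h1 h2
      have hl0' : p (c' (Fin.last m)) = 0 := by
        rw [← sorted_eq hinj hinj' hS hS' hne0.symm]; exact hl0
      have hmid' : ∀ i, i ≠ 0 → i ≠ Fin.last m → 0 < p (c' i) := fun i h1 h2 => by
        rw [← sorted_eq hinj hinj' hS hS' h1]; exact hmid i h1 h2
      have heq : ∀ i, i ≠ 0 → i ≠ Fin.last m → c i = c' i := by
        intro i hi hil
        obtain ⟨l, hl0, hl, hpl⟩ := exists_match hinj hinj' hS hS' hi (hmid i hi hil)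
        by_cases hli : l = i
        · rw [hl, hli]
        · exfalso
          rcases tie' hS hG hl0 hi hli hpl with h | h
          · have h1 := congrArg Fin.val h.1
            have h2 := i.2
            have h3 := h.2
            simp only [Fin.val_last] at h1
            omega
          · exact hil h.1
      obtain ⟨j, j1, j2, j3⟩ := D.InCh_top hc hx ht0
      obtain ⟨j', j1', j2', j3'⟩ := D.InCh_top hc' hx' ht0
      obtain ⟨d, hd1, hd2, hd3, hd4, hd5, hd6⟩ :=
        D.exists_RTG_up j hc.1 hc.2.1 hS.1 hS.2.1 hl0 hmid j3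
      obtain ⟨d', hd1', hd2', hd3', hd4', hd5', hd6'⟩ :=
        D.exists_RTG_up j' hc'.1 hc'.2.1 hS'.1 hS'.2.1 hl0' hmid' j3'
      have him : im d = im d' := by
        rw [hd3, hd3']
        rw [j1] at j1'
        simpa using j1'
      obtain ⟨π, hπ⟩ := exists_perm hd2'.1 him
      have hfix : ∀ i, i ≠ 0 → i ≠ Fin.last m → π i = i := by
        intro i h1 h2
        apply hd2.1
        have e1 := D.RTG_mid hd1 i h1 h2
        have e2 := D.RTG_mid hd1' i h1 h2
        have e3 := heq i h1 h2
        have e4 : d' i = d (π i) := by rw [hπ]; rfl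
        rw [← e4, e2, ← e3, ← e1]
      rcases perm_two hfix with h | h
      · have hdd : d = d' := by rw [hπ, h]; rfl
        subst hdd
        exact D.unique_chamber_below hc hc' hd1 hd1'
      · exfalso
        have := ho.swap D hd2 hne0
        rw [← h, ← hπ, D.RTG_sign ho hd1', D.RTG_sign ho hd1, ← hs] at this
        exact absurd this.symm (units_neg_ne _)

/-- chambers through a point without tight constraints agree -/
theorem unique_interior {c c' : Fin (m + 1) → V} (hc : D.IsChamber c) (hc' : D.IsChamber c')
    {x : V → ℝ} (hx : D.InCh c x) (hx' : D.InCh c' x)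
    (hG : ∀ i, 0 < Gap c (D.G x).1 (D.G x).2.1 i) : c = c' := by
  have hinj := hc.1.1
  have hinj' := hc'.1.1
  have hS := hx.2.1
  have hS' := hx'.2.1
  have ht0 : 0 < (D.G x).2.1 := by
    have := hG 0
    rwa [Gap_zero] at this
  have hlast : 0 < (D.G x).1 (c (Fin.last m)) := by
    have := hG (Fin.last m)
    rwa [D.Gap_last] at this
  have hpos : ∀ i, i ≠ 0 → 0 < (D.G x).1 (c i) := fun i hi => pos_of_last hS hlast hi
  have hpos' : ∀ i, i ≠ 0 → 0 < (D.G x).1 (c' i) := fun i hi => by
    rw [← sorted_eq hinj hinj' hS hS' hi]; exact hpos i hi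
  have e1 := D.InCh_top_of_pos hc hx ht0 hpos
  have e2 := D.InCh_top_of_pos hc' hx' ht0 hpos'
  have him : im c = im c' := by
    rw [e1] at e2
    simpa using e2
  obtain ⟨π, hπ⟩ := exists_perm hinj' him
  have hfix : ∀ i, π i = i := by
    have hπ0 : π 0 = 0 := by
      by_contra hne
      have h1 := hpos (π 0) hne
      have h2 := hS'.2.1
      rw [hπ] at h2
      simp only [Function.comp] at h2
      linarith
    intro i
    by_cases hi : i = 0
    · rw [hi, hπ0]
    · by_contra hne
      have hπne : π i ≠ 0 := fun h => hi (π.injective (h.trans hπ0.symm))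
      have hpe : (D.G x).1 (c (π i)) = (D.G x).1 (c i) := by
        rw [sorted_eq hinj hinj' hS hS' hi, hπ]
        rfl
      rcases tie' hS (i0 := 0) (fun i _ => hG i) hπne hi hne hpe with h | h
      · exact hπne h.1
      · exact hi h.1
  rw [hπ]
  funext i
  simp [hfix i]

/-- at a generic wall point there is a chamber of the opposite sign -/
theorem exists_opposite {o : (Fin (m + 1) → V) → ℤˣ} (ho : D.IsOrientation o)
    {c : Fin (m + 1) → V} (hc : D.IsChamber c) {x : V → ℝ}
    (hx : D.InCh c x) {i0 : Fin (m + 1)}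
    (hG : ∀ i, i ≠ i0 → 0 < Gap c (D.G x).1 (D.G x).2.1 i)
    (hG0 : Gap c (D.G x).1 (D.G x).2.1 i0 = 0) :
    ∃ c', D.IsChamber c' ∧ D.InCh c' x ∧ o c' = - o c := by
  classical
  have hinj := hc.1.1
  have hS := hx.2.1
  have hne0 := D.zero_ne_last
  set p := (D.G x).1 with hp
  set t := (D.G x).2.1 with htdef
  have ht : 0 ≤ t := D.G_nonneg hx.1
  by_cases hi0 : i0 = 0
  · -- time zero
    subst hi0
    rw [Gap_zero] at hG0
    have hGx := D.G_of_time_zero hx.1 hG0
    have hpx : p = x := by rw [hp, hGx]
    obtain ⟨τ, hτ, hτne, hτall⟩ := D.two_ex (im c) hc.1.2 (c 0) (apply_mem_im c 0)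
    have hc0τ : c 0 ∉ τ := D.not_mem_of_ne hc.1.2 hτ hτne hτall
    have hciτ : ∀ i, i ≠ 0 → c i ∈ τ := fun i hi =>
      hτall _ (apply_mem_im c i) (fun e => hi (hinj e))
    have : ¬ τ ⊆ im c := fun h => hτne
      (Finset.eq_of_subset_of_card_le h (by rw [card_im hinj, D.card τ hτ]))
    rw [Finset.not_subset] at this
    obtain ⟨w, hwτ, hwc⟩ := this
    let c' : Fin (m + 1) → V := fun i => if i = 0 then w else c i
    have hc'0 : c' 0 = w := by simp [c']
    have hc'i : ∀ i, i ≠ 0 → c' i = c i := fun i hi => by simp [c', hi]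
    have hinj' : Function.Injective c' := by
      intro i j hij
      by_cases hi : i = 0
      · by_cases hj : j = 0
        · rw [hi, hj]
        · rw [hi, hc'0, hc'i j hj] at hij
          exact absurd (hij ▸ apply_mem_im c j) hwc
      · by_cases hj : j = 0
        · rw [hj, hc'0, hc'i i hi] at hij
          exact absurd (hij ▸ apply_mem_im c i) hwc
        · rw [hc'i i hi, hc'i j hj] at hij
          exact hinj hij
    have hsub : im c' ⊆ τ := by
      intro v hv
      obtain ⟨i, rfl⟩ := mem_im.mp hv
      by_cases hi : i = 0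
      · rw [hi, hc'0]; exact hwτ
      · rw [hc'i i hi]; exact hciτ i hi
    have him : im c' = τ :=
      Finset.eq_of_subset_of_card_le hsub (by rw [card_im hinj', D.card τ hτ])
    have hOC : D.OC c' := ⟨hinj', him ▸ hτ⟩
    have hτw : ∀ v ∈ τ, v ≠ w → v ∈ im c := by
      intro v hv hvw
      rw [← him] at hv
      obtain ⟨i, rfl⟩ := mem_im.mp hv
      by_cases hi : i = 0
      · rw [hi, hc'0] at hvw; exact absurd rfl hvw
      · rw [hc'i i hi]; exact apply_mem_im c i
    have hch : D.IsChamber c' := by
      refine ⟨hOC, ?_, ?_⟩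
      · rw [hc'0, him]
        intro hw
        have hpar : D.par τ = im c := by
          apply D.two_uniq τ hτ w hwτ _ (D.par_mem τ hτ) _ hc.1.2 (D.par_ne hτ) hτne.symm
          · intro v hv hvw
            exact D.par_sub τ hτ v hv (by rw [← hw]; exact hvw)
          · exact hτw
        exact hc0τ (hc.2.2 τ hτ hpar)
      · intro κ hκ hpar
        rw [him] at hpar
        rw [hc'0]
        by_contra hwκ
        have hκc : κ = im c := by
          apply D.two_uniq τ hτ w hwτ κ hκ _ hc.1.2 _ hτne.symm _ hτw
          · rw [← hpar]; exact (D.par_ne hκ).symm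
          · intro v hv hvw
            by_contra hvκ
            exact hvw (D.missing_unique hκ (hpar ▸ hv) hvκ (hpar ▸ hwτ) hwκ)
        subst hκc
        have ha := D.apex_not_mem_of_child hκ hpar
        obtain ⟨i, hi⟩ := mem_im.mp (D.apex_mem _ hκ)
        by_cases hi0 : i = 0
        · exact hc.2.1 (hi0 ▸ hi)
        · exact ha (hi ▸ hciτ i hi0)
    have hSx : InSimp c' p := by
      refine ⟨?_, ?_, ?_⟩
      · rw [him]
        apply mem_simplex_of_support hS.1
        intro v hv hvτ
        obtain ⟨i, rfl⟩ := mem_im.mp hv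
        by_cases hi : i = 0
        · rw [hi]; exact hS.2.1
        · exact absurd (hciτ i hi) hvτ
      · rw [hc'0]; exact hS.1.2.1 _ hwc
      · intro i j hi hij
        have hj : j ≠ 0 := by
          rintro rfl
          exact hi (le_antisymm hij (Fin.zero_le _))
        rw [hc'i i hi, hc'i j hj]
        exact hS.2.2 i j hi hij
    refine ⟨c', hch, ⟨hx.1, hSx, ?_⟩, ?_⟩
    · rw [← hp, ← htdef, hG0, D.Fl_zero hOC.2 hSx.1, hpx]
    · apply ho.coh c c' hc.1 hOC
      · rw [hc'0]
        intro e
        exact hwc (e ▸ apply_mem_im c 0)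
      · intro i hi
        exact (hc'i i hi).symm
  · by_cases hil : i0 = Fin.last m
    · -- the last coordinate
      subst hil
      rw [D.Gap_last] at hG0
      have ht0 : 0 < t := by
        have := hG 0 hne0
        rwa [Gap_zero] at this
      have hmid : ∀ i, i ≠ 0 → i ≠ Fin.last m → 0 < p (c i) :=
        fun i h1 h2 => pos_of_mid hS hG h1 h2
      obtain ⟨j, j1, j2, j3⟩ := D.InCh_top hc hx ht0
      obtain ⟨d, hd1, hd2, hd3, hd4, hd5, hd6⟩ :=
        D.exists_RTG_up j hc.1 hc.2.1 hS.1 hS.2.1 hG0 hmid j3
      set d' := d ∘ Equiv.swap 0 (Fin.last m) with hd'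
      have hd'0 : d' 0 = d (Fin.last m) := by simp [hd']
      have hd'l : d' (Fin.last m) = d 0 := by simp [hd']
      have hd'm : ∀ i, i ≠ 0 → i ≠ Fin.last m → d' i = d i := by
        intro i h1 h2
        simp [hd', Equiv.swap_apply_of_ne_of_ne h1 h2]
      have hOC' : D.OC d' := hd2.comp_perm D _
      have him' : im d' = im d := im_comp_perm _ _
      have ha : d' 0 ≠ D.apex (im d') := by
        rw [him', hd'0, hd3]
        intro e
        rw [← e] at j2
        exact absurd hd5 (ne_of_gt j2)
      obtain ⟨c', hc', hcd'⟩ := D.exists_chamber_RTG _ rfl hOC' ha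
      obtain ⟨r1, r2, r3, r4⟩ := D.RTG_down hcd' (p := p) (by rw [him']; exact hd6)
        (by rw [hd'0]; exact hd5) (by rw [hd'l]; exact hd4) ht0.le
      have hmid' : ∀ i, i ≠ 0 → i ≠ Fin.last m → c' i = c i := by
        intro i h1 h2
        rw [← D.RTG_mid hcd' i h1 h2, hd'm i h1 h2, D.RTG_mid hd1 i h1 h2]
      have hSx : InSimp c' p := by
        refine ⟨r1, r2, ?_⟩
        intro i j hi hij
        by_cases hjl : j = Fin.last m
        · rw [hjl, r3]; exact r1.1 _
        · have hil : i ≠ Fin.last m := by
            rintro rfl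
            exact hjl (le_antisymm (Fin.le_last j) hij)
          have hj : j ≠ 0 := by
            rintro rfl
            exact hi (le_antisymm hij (Fin.zero_le _))
          rw [hmid' i hi hil, hmid' j hj hjl]
          exact hS.2.2 i j hi hij
      refine ⟨c', hc', ⟨hx.1, hSx, ?_⟩, ?_⟩
      · rw [← hp, ← htdef, r4, him', hd3]
        have := (D.Fl_iter hc.1.2 hS.1 j j3 ht0.le).2
        rw [← this]
        exact hx.2.2
      · rw [← D.RTG_sign ho hcd', hd', ho.swap D hd2 hne0, D.RTG_sign ho hd1]
    · -- a tie in the middle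
      have hi0v : i0.val < m := by
        have h1 := i0.2
        have h2 : i0.val ≠ m := fun e => hil (Fin.ext e)
        omega
      set j0 : Fin (m + 1) := ⟨i0.val + 1, by omega⟩ with hj0
      have hj0ne : j0 ≠ 0 := by
        intro e
        have := congrArg Fin.val e
        simp [hj0] at this
      have hne : i0 ≠ j0 := by
        intro e
        have := congrArg Fin.val e
        simp [hj0] at this
      rw [Gap_mid c p t (j := j0) hi0 rfl] at hG0
      have hpe : p (c i0) = p (c j0) := by linarith
      have hpc : ∀ i, p ((c ∘ Equiv.swap i0 j0) i) = p (c i) := by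
        intro i
        simp only [Function.comp]
        by_cases h1 : i = i0
        · rw [h1, Equiv.swap_apply_left, hpe]
        · by_cases h2 : i = j0
          · rw [h2, Equiv.swap_apply_right, hpe]
          · rw [Equiv.swap_apply_of_ne_of_ne h1 h2]
      have hc0 : (c ∘ Equiv.swap i0 j0) 0 = c 0 := by
        simp only [Function.comp]
        rw [Equiv.swap_apply_of_ne_of_ne (fun e => hi0 e.symm) (fun e => hj0ne e.symm)]
      have him : im (c ∘ Equiv.swap i0 j0) = im c := im_comp_perm _ _
      refine ⟨c ∘ Equiv.swap i0 j0, ⟨hc.1.comp_perm D _, ?_, ?_⟩, ⟨hx.1, ⟨?_, ?_, ?_⟩, ?_⟩,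
        ho.swap D hc.1 hne⟩
      · rw [hc0, him]; exact hc.2.1
      · intro κ hκ hpar
        rw [hc0]
        exact hc.2.2 κ hκ (hpar.trans him)
      · rw [him]; exact hS.1
      · rw [hc0]; exact hS.2.1
      · intro i j hi hij
        change p _ ≤ p _
        rw [hpc, hpc]
        exact hS.2.2 i j hi hij
      · rw [him]; exact hx.2.2

end FlowData

end Pool.Agent.TH632
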