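import Pool.Agent.TH632.Count

/-!
# Completeness of the map
-/

open Set Topology

namespace Pool.Agent.TH632

universe u

namespace FlowData

variable {V : Type u} {m : ℕ} {D : FlowData V m}

theorem Bf_anti {c : Fin (m + 1) → V} {p : V → ℝ} (h : InSimp c p) {n n' : ℕ} (hn : n ≤ n') :
    Bf c p n' ≤ Bf c p n := by
  unfold Bf
  split_ifs with h1 h2 h3
  · apply h.2.2
    · intro e
      have := congrArg Fin.val e
      simp at this
    · exact Fin.mk_le_mk.mpr (by omega)
  · exact absurd (lt_of_le_of_lt hn h1) h2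
  · exact h.nonneg _
  · exact le_rfl

/-- ties of `p` are ties of `P` -/
theorem Bf_tie {c : Fin (m + 1) → V} {p P : V → ℝ} (h : InSimp c p) {t T : ℝ}
    (hgap : ∀ i, Gap c p t i = 0 → Gap c P T i = 0) (k : ℕ) :
    ∀ n, Bf c p n = Bf c p (n + k) → Bf c P n = Bf c P (n + k) := by
  induction k with
  | zero => intro n _; rfl
  | succ k ih =>
    intro n hn
    have h1 := Bf_anti h (Nat.le_succ n)
    have h2 := Bf_anti h (show n + 1 ≤ n + (k + 1) by omega)
    have h1' : Bf c p (n + 1) ≤ Bf c p n := h1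
    have e1 : Bf c p n = Bf c p (n + 1) := le_antisymm (hn.le.trans h2) h1'
    have e2 : Bf c p (n + 1) = Bf c p (n + 1 + k) := by
      rw [← e1, hn]; congr 1; omega
    have e3 := ih (n + 1) e2
    have e4 : Bf c P n = Bf c P (n + 1) := by
      by_cases hnm : n < m
      · have g1 : Gap c p t (⟨n, hnm⟩ : Fin m).succ = 0 := by
          rw [Gap_succ]
          simp only
          linarith
        have g2 := hgap _ g1
        rw [Gap_succ] at g2
        simp only at g2
        linarith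
      · simp only [Bf]
        rw [dif_neg hnm, dif_neg (by omega)]
    rw [e4, e3]
    congr 1
    omega

theorem tie_le {c : Fin (m + 1) → V} {p P : V → ℝ} (h : InSimp c p) {t T : ℝ}
    (hgap : ∀ i, Gap c p t i = 0 → Gap c P T i = 0) {n n' : ℕ} (hn : Bf c p n = Bf c p n') :
    Bf c P n = Bf c P n' := by
  rcases le_total n n' with hle | hle
  · obtain ⟨k, rfl⟩ := Nat.exists_eq_add_of_le hle
    exact Bf_tie h hgap k n hn
  · obtain ⟨k, rfl⟩ := Nat.exists_eq_add_of_le hle
    exact (Bf_tie h hgap k n' hn.symm).symm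

theorem tie_coord {c : Fin (m + 1) → V} {p P : V → ℝ} (h : InSimp c p) {t T : ℝ}
    (hgap : ∀ i, Gap c p t i = 0 → Gap c P T i = 0) {i j : Fin (m + 1)} (hi : i ≠ 0)
    (hj : j ≠ 0) (he : p (c i) = p (c j)) : P (c i) = P (c j) := by
  obtain ⟨k, rfl⟩ := Fin.exists_succ_eq.mpr hi
  obtain ⟨l, rfl⟩ := Fin.exists_succ_eq.mpr hj
  rw [← Bf_val c p, ← Bf_val c p] at he
  rw [← Bf_val c P, ← Bf_val c P]
  exact tie_le h hgap he

theorem supp_coord {c : Fin (m + 1) → V} {p P : V → ℝ} (h : InSimp c p) (hP : InSimp c P)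
    {t T : ℝ} (hgap : ∀ i, Gap c p t i = 0 → Gap c P T i = 0) {v : V} (hv : p v = 0) :
    P v = 0 := by
  by_cases hvc : v ∈ im c
  · obtain ⟨i, rfl⟩ := mem_im.mp hvc
    by_cases hi : i = 0
    · rw [hi]; exact hP.2.1
    · obtain ⟨k, rfl⟩ := Fin.exists_succ_eq.mpr hi
      have hz : ∀ q : V → ℝ, Bf c q m = 0 := fun q => by simp [Bf]
      rw [← Bf_val c p] at hv
      rw [← Bf_val c P]
      rw [tie_le h hgap (n := k.val) (n' := m) (by rw [hv, hz]), hz]
  · exact hP.1.2.1 v hvc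

theorem coord_eq {c c' : Fin (m + 1) → V} (hc : Function.Injective c)
    (hc' : Function.Injective c') {p P : V → ℝ} (h : InSimp c p) (h' : InSimp c' p)
    (hP : InSimp c P) {t T : ℝ} (hgap : ∀ i, Gap c p t i = 0 → Gap c P T i = 0)
    (i : Fin (m + 1)) : P (c' i) = P (c i) := by
  by_cases hi : i = 0
  · subst hi
    rw [supp_coord h hP hgap h'.2.1, hP.2.1]
  · have e := sorted_eq hc hc' h h' hi
    rcases eq_or_lt_of_le (h.nonneg (c i)) with h0 | h0
    · rw [supp_coord h hP hgap h0.symm, supp_coord h hP hgap (e.symm.trans h0.symm)]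
    · obtain ⟨l, hl, hl1, hl2⟩ := exists_match hc hc' h h' hi h0
      rw [hl1]
      exact tie_coord h hgap hl hi hl2

theorem InSimp_transfer {c c' : Fin (m + 1) → V} (hc : Function.Injective c)
    (hc' : Function.Injective c') {p P : V → ℝ} (h : InSimp c p) (h' : InSimp c' p)
    (hP : InSimp c P) {t T : ℝ} (hgap : ∀ i, Gap c p t i = 0 → Gap c P T i = 0) :
    InSimp c' P := by
  have he := coord_eq hc hc' h h' hP hgap
  refine ⟨?_, ?_, ?_⟩
  · apply mem_simplex_of_support hP.1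
    intro v _ hv
    exact supp_coord h hP hgap (h'.1.2.1 v hv)
  · rw [he 0]; exact hP.2.1
  · intro i j hi hij
    rw [he i, he j]
    exact hP.2.2 i j hi hij

/-- if `z` lies in two chambers, so does every point of the first chamber in the closed face
of `z` -/
theorem face_consistency {c c' : Fin (m + 1) → V} (hc : D.IsChamber c) (hc' : D.IsChamber c')
    {z x : V → ℝ} (hz : D.InCh c z) (hz' : D.InCh c' z) (hx : D.InCh c x)
    (hgap : ∀ i, Gap c (D.G z).1 (D.G z).2.1 i = 0 → Gap c (D.G x).1 (D.G x).2.1 i = 0) :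
    D.InCh c' x := by
  have hP' := InSimp_transfer hc.1.1 hc'.1.1 hz.2.1 hz'.2.1 hx.2.1 hgap
  refine ⟨hx.1, hP', ?_⟩
  have htz := D.G_nonneg hz.1
  have htx := D.G_nonneg hx.1
  have hsupp : ∀ v, (D.G z).1 v = 0 → (D.G x).1 v = 0 :=
    fun v hv => supp_coord hz.2.1 hx.2.1 hgap hv
  rw [← hx.2.2]
  rcases eq_or_lt_of_le htz with h0 | h0
  · have hT : (D.G x).2.1 = 0 := by
      have := hgap 0 (by rw [Gap_zero]; exact h0.symm)
      rw [Gap_zero] at this
      exact this
    have e2 : D.Fl (im c) (D.G x).1 (D.G x).2.1 = (D.G x).1 := by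
      rw [hT, D.Fl_zero hc.1.2 hx.2.1.1]
    have e3 : D.Fl (im c') (D.G x).1 (D.G x).2.1 = (D.G x).1 := by
      rw [hT, D.Fl_zero hc'.1.2 hP'.1]
    rw [hx.2.2, e3]
    rw [hx.2.2] at e2
    exact e2.symm
  · obtain ⟨j, j1, _, j3⟩ := D.InCh_top hc hz h0
    obtain ⟨j', j1', _, j3'⟩ := D.InCh_top hc' hz' h0
    have f1 := (D.Fl_iter hc.1.2 hx.2.1.1 j (fun i hi => hsupp _ (j3 i hi)) htx).2
    have f2 := (D.Fl_iter hc'.1.2 hP'.1 j' (fun i hi => hsupp _ (j3' i hi)) htx).2
    have e : D.par^[j] (im c) = D.par^[j'] (im c') := by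
      rw [j1] at j1'
      exact Option.some.inj j1'
    rw [hx.2.2]
    rw [f2, ← e, ← f1]
    exact hx.2.2

/-- the good neighbourhood of a point -/
def Wn (y : Fin m → ℝ) : Set (Fin m → ℝ) :=
  {z | (0 < qt y → 0 < qt z) ∧ (qt y < 0 → qt z < 0) ∧ ∀ i, 0 < Lc y i → 0 < Lc z i}

theorem mem_Wn (y : Fin m → ℝ) : y ∈ Wn y := ⟨id, id, fun _ => id⟩

theorem isOpen_Wn (y : Fin m → ℝ) : IsOpen (Wn y) := by
  have h1 : IsOpen {z : Fin m → ℝ | 0 < qt y → 0 < qt z} := by
    by_cases h : 0 < qt y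
    · simp only [h, true_imp_iff]
      exact isOpen_lt continuous_const continuous_qt
    · simp only [h, false_imp_iff]
      exact isOpen_univ
  have h2 : IsOpen {z : Fin m → ℝ | qt y < 0 → qt z < 0} := by
    by_cases h : qt y < 0
    · simp only [h, true_imp_iff]
      exact isOpen_lt continuous_qt continuous_const
    · simp only [h, false_imp_iff]
      exact isOpen_univ
  have h3 : IsOpen {z : Fin m → ℝ | ∀ i, 0 < Lc y i → 0 < Lc z i} := by
    simp only [Set.ofPred_forall]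
    exact isOpen_iInter_of_finite fun i => isOpen_iInter_of_finite fun _ =>
      isOpen_lt continuous_const (continuous_Lc i)
  exact h1.inter (h2.inter h3)

theorem half_of_Wn {y z : Fin m → ℝ} (hz : z ∈ Wn y) {ε : ℤˣ} (h : z ∈ half ε) :
    y ∈ half ε := by
  rcases Int.units_eq_one_or ε with e | e <;> subst e
  · rw [mem_half_one] at h ⊢
    by_contra hc
    push Not at hc
    have := hz.2.1 hc
    linarith
  · rw [mem_half_neg_one] at h ⊢
    by_contra hc
    push Not at hc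
    have := hz.1 hc
    linarith

/-- the sheet point below a point near the fibre lies in all its chambers -/
theorem InCh_of_near {o : (Fin (m + 1) → V) → ℤˣ} {c c' : D.Chamber} {z x : D.space}
    (hz : D.InCh c.1 z) (hz' : D.InCh c'.1 z) (hx : D.InCh c.1 x)
    (hW : D.F o z ∈ Wn (D.F o x)) : D.InCh c'.1 x := by
  by_cases hq : qt (D.F o z) = 0
  · have hqx : qt (D.F o x) = 0 := by
      by_contra hne
      rcases lt_or_gt_of_ne hne with h | h
      · have := hW.2.1 h; linarith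
      · have := hW.1 h; linarith
    apply face_consistency c.2 c'.2 hz hz' hx
    intro i hi
    rw [← D.Lc_Xc_eq_zero_iff c.2 hz, Xc_eq_refl (o := o) c.2 hz, refl_of_qt_zero _ hq] at hi
    rw [← D.Lc_Xc_eq_zero_iff c.2 hx, Xc_eq_refl (o := o) c.2 hx, refl_of_qt_zero _ hqx]
    rcases eq_or_lt_of_le (hqx ▸ qt_le (D.F o x) i) with h | h
    · exact h.symm
    · have := hW.2.2 i h
      rw [hi] at this
      exact absurd this (lt_irrefl _)
  · rw [← interior_unique (o := o) hz hz' hq]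
    exact hx

/-- the union of the chambers containing, or not containing, `x` is closed -/
theorem isClosed_biUnion_Ch (P : Set D.Chamber) : IsClosed (⋃ c ∈ P, D.Ch c.1) := by
  have h : (⋃ c ∈ P, D.Ch c.1) = ⋃ c : P, D.Ch c.1.1 := by
    ext z
    simp only [Set.mem_iUnion, Subtype.exists, exists_prop]
  rw [h]
  exact (D.locallyFinite_Ch.comp_injective Subtype.val_injective).isClosed_iUnion
    fun c => D.isClosed_Ch c.1.2

theorem isCompact_Ch_inter (o : (Fin (m + 1) → V) → ℤˣ) (c : D.Chamber)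
    {C : Set (Fin m → ℝ)} (hC : IsCompact C) : IsCompact (D.Ch c.1 ∩ D.F o ⁻¹' C) := by
  have h1 : IsCompact ((Subtype.val : (half (o c.1) : Set (Fin m → ℝ)) → _) ⁻¹' C) :=
    (isClosed_half _).isClosedEmbedding_subtypeVal.isCompact_preimage hC
  have h2 := h1.image (continuous_sec o c)
  convert h2 using 1
  ext z
  constructor
  · rintro ⟨hz, hzC⟩
    exact ⟨⟨D.F o z, F_mem_half o c hz⟩, hzC, sec_F o c hz⟩
  · rintro ⟨y, hy, rfl⟩
    refine ⟨sec_mem o c y, ?_⟩
    change D.F o (sec o c y) ∈ C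
    rw [F_sec]
    exact hy

theorem finite_chambers (x : D.space) : {c : D.Chamber | D.InCh c.1 x}.Finite :=
  (D.locallyFinite_Ch).point_finite x

/-- every compact set in the good neighbourhood has preimage with compact components -/
theorem isCompact_component (o : (Fin (m + 1) → V) → ℤˣ) (y : Fin m → ℝ)
    {C : Set (Fin m → ℝ)} (hC : IsCompact C) (hCW : C ⊆ Wn y) (z : D.space)
    (hz : z ∈ D.F o ⁻¹' C) : IsCompact (connectedComponentIn (D.F o ⁻¹' C) z) := by
  obtain ⟨c, hc, hzc⟩ := D.exists_chamber z.2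
  -- the point of the fibre of `y` in the same chamber
  have hy : y ∈ (half (o c) : Set (Fin m → ℝ)) :=
    half_of_Wn (hCW hz) (F_mem_half o ⟨c, hc⟩ hzc)
  obtain ⟨x, hx, hxy⟩ : ∃ x : D.space, D.InCh c x ∧ D.F o x = y :=
    ⟨sec o ⟨c, hc⟩ ⟨y, hy⟩, sec_mem o ⟨c, hc⟩ _, F_sec o ⟨c, hc⟩ _⟩
  let P : Set D.Chamber := {c' | D.InCh c'.1 x}
  have hPfin : P.Finite := finite_chambers x
  -- the compact clopen piece
  have hcomp : IsCompact ((⋃ c' ∈ P, D.Ch c'.1) ∩ D.F o ⁻¹' C) := by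
    rw [Set.iUnion₂_inter]
    exact hPfin.isCompact_biUnion fun c' _ => isCompact_Ch_inter o c' hC
  have hcl : IsClosed (D.F o ⁻¹' C) := hC.isClosed.preimage (continuous_F o)
  have hclosed : IsClosed (connectedComponentIn (D.F o ⁻¹' C) z) := by
    have h1 : IsPreconnected (closure (connectedComponentIn (D.F o ⁻¹' C) z)) :=
      isPreconnected_connectedComponentIn.closure
    have h2 : closure (connectedComponentIn (D.F o ⁻¹' C) z) ⊆
        connectedComponentIn (D.F o ⁻¹' C) z := by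
      apply h1.subset_connectedComponentIn (subset_closure (mem_connectedComponentIn hz))
      exact closure_minimal (connectedComponentIn_subset _ _) hcl
    exact isClosed_of_closure_subset h2
  apply hcomp.of_isClosed_subset hclosed
  refine Set.subset_inter ?_ (connectedComponentIn_subset _ _)
  -- the two open sets
  have hu : IsOpen (⋃ c' ∈ Pᶜ, D.Ch c'.1)ᶜ := (isClosed_biUnion_Ch Pᶜ).isOpen_compl
  have hW : IsOpen (D.F o ⁻¹' Wn y) := (isOpen_Wn y).preimage (continuous_F o)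
  have hv : IsOpen (⋃ c' ∈ P, D.Ch c'.1)ᶜ := (isClosed_biUnion_Ch P).isOpen_compl
  have key : ∀ w : D.space, D.F o w ∈ Wn y → ∀ c1 : D.Chamber, D.InCh c1.1 w → c1 ∈ P →
      ∀ c2 : D.Chamber, D.InCh c2.1 w → c2 ∈ P := by
    intro w hw c1 h1 h1P c2 h2
    exact InCh_of_near (o := o) h1 h2 h1P (by rw [hxy]; exact hw)
  have hsub : connectedComponentIn (D.F o ⁻¹' C) z ⊆
      (D.F o ⁻¹' Wn y ∩ (⋃ c' ∈ Pᶜ, D.Ch c'.1)ᶜ) := by
    apply IsPreconnected.subset_left_of_subset_union (hW.inter hu) (hW.inter hv)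
    · rw [Set.disjoint_left]
      rintro w ⟨_, hw1⟩ ⟨_, hw2⟩
      obtain ⟨c1, hc1, hw⟩ := D.exists_chamber w.2
      by_cases h : (⟨c1, hc1⟩ : D.Chamber) ∈ P
      · exact hw2 (Set.mem_biUnion h hw)
      · exact hw1 (Set.mem_biUnion (x := (⟨c1, hc1⟩ : D.Chamber)) h hw)
    · intro w hw
      have hwC : w ∈ D.F o ⁻¹' C := connectedComponentIn_subset _ _ hw
      have hwW : D.F o w ∈ Wn y := hCW hwC
      obtain ⟨c1, hc1, hw1⟩ := D.exists_chamber w.2
      by_cases h : (⟨c1, hc1⟩ : D.Chamber) ∈ P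
      · left
        refine ⟨hwW, ?_⟩
        intro hmem
        obtain ⟨c2, hc2, hw2⟩ := Set.mem_iUnion₂.mp hmem
        exact hc2 (key w hwW ⟨c1, hc1⟩ hw1 h c2 hw2)
      · right
        refine ⟨hwW, ?_⟩
        intro hmem
        obtain ⟨c2, hc2, hw2⟩ := Set.mem_iUnion₂.mp hmem
        exact h (key w hwW c2 hw2 hc2 ⟨c1, hc1⟩ hw1)
    · refine ⟨z, mem_connectedComponentIn hz, hCW hz, ?_⟩
      intro hmem
      obtain ⟨c2, hc2, hw2⟩ := Set.mem_iUnion₂.mp hmem
      exact hc2 (key z (hCW hz) ⟨c, hc⟩ hzc hx c2 hw2)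
    · exact isPreconnected_connectedComponentIn
  intro w hw
  obtain ⟨_, hw2⟩ := hsub hw
  obtain ⟨c1, hc1, hw1⟩ := D.exists_chamber w.2
  by_cases h : (⟨c1, hc1⟩ : D.Chamber) ∈ P
  · exact Set.mem_biUnion h hw1
  · exact absurd (Set.mem_biUnion (x := (⟨c1, hc1⟩ : D.Chamber)) h hw1) hw2

/-- completeness -/
theorem exists_compact_nhds (o : (Fin (m + 1) → V) → ℤˣ) (y : Fin m → ℝ) :
    ∃ C ∈ 𝓝 y, IsCompact C ∧ ∀ z ∈ D.F o ⁻¹' C,
      IsCompact (connectedComponentIn (D.F o ⁻¹' C) z) := by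
  obtain ⟨C, hC, hCW, hCc⟩ := local_compact_nhds ((isOpen_Wn y).mem_nhds (mem_Wn y))
  exact ⟨C, hC, hCc, fun z hz => isCompact_component o y hCc hCW z hz⟩

end FlowData

end Pool.Agent.TH632
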