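import Pool.Agent.TH632.Branch

/-!
# The number of sheets is countably infinite
-/

open Set Topology

namespace Pool.Agent.TH632

universe u

namespace FlowData

variable {V : Type u} {m : ℕ} {D : FlowData V m}

open scoped Classical in
/-- the vertex `v` as a point -/
noncomputable def vpt (v : V) : V → ℝ := fun w => if w = v then 1 else 0

theorem vpt_mem {σ : Finset V} {v : V} (hv : v ∈ σ) : vpt v ∈ simplex σ := by
  classical
  refine ⟨fun w => ?_, fun w hw => ?_, ?_⟩
  · unfold vpt; split_ifs <;> norm_num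
  · unfold vpt
    rw [if_neg]
    rintro rfl
    exact hw hv
  · unfold vpt
    rw [Finset.sum_ite_eq' σ v]
    simp [hv]

/-- every vertex of a cell is a vertex of a chamber -/
theorem exists_chamber_vertex {σ : Finset V} (hσ : σ ∈ D.C) {v : V} (hv : v ∈ σ) :
    ∃ c : D.Chamber, v ∈ im c.1 := by
  classical
  have hx := vpt_mem hv
  obtain ⟨c, hc, hxc⟩ := D.exists_chamber (x := vpt v) ⟨σ, hσ, hx⟩
  refine ⟨⟨c, hc⟩, ?_⟩
  have h2 : TwoZero σ (vpt v) := by
    have hcard : 2 ≤ (σ.erase v).card := by
      rw [Finset.card_erase_of_mem hv, D.card σ hσ]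
      have := D.mpos
      omega
    obtain ⟨a, ha, b, hb, hab⟩ := Finset.one_lt_card.mp (by omega : 1 < (σ.erase v).card)
    refine ⟨a, Finset.mem_of_mem_erase ha, b, Finset.mem_of_mem_erase hb, hab, ?_, ?_⟩
    · unfold vpt; rw [if_neg (Finset.ne_of_mem_erase ha)]
    · unfold vpt; rw [if_neg (Finset.ne_of_mem_erase hb)]
  have hG : (D.G (vpt v)).1 = vpt v := by
    rw [D.G_eq hσ hx, D.Ps_twoZero hσ hx h2]
  by_contra hn
  have h3 := hxc.2.1.1.2.1 v hn
  rw [hG] at h3
  simp [vpt] at h3

theorem infinite_Pos {o : (Fin (m + 1) → V) → ℤˣ} (ho : D.IsOrientation o)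
    (hinf : D.C.Infinite) : Infinite (Pos D o) := by
  classical
  by_contra hcon
  have hfin : Finite (Pos D o) := not_infinite_iff_finite.mp hcon
  have hch : Finite D.Chamber := by
    apply Finite.of_surjective (fun q : Pos D o ⊕ Pos D o => Sum.elim (fun c => c.1)
      (fun c => adj ho 0 c.1) q)
    intro c
    rcases Int.units_eq_one_or (o c.1) with h | h
    · exact ⟨Sum.inl ⟨c, h⟩, rfl⟩
    · refine ⟨Sum.inr ⟨adj ho 0 c, by rw [adj_sign ho, h]; simp⟩, ?_⟩
      exact adj_adj ho 0 c
  have hW : (⋃ c : D.Chamber, (im c.1 : Set V)).Finite :=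
    Set.finite_iUnion fun c => (im c.1).finite_toSet
  apply hinf
  have h1 : {s : Finset V | (s : Set V) ⊆ ⋃ c : D.Chamber, (im c.1 : Set V)}.Finite := by
    have := hW.finite_subsets
    apply (this.preimage (f := fun s : Finset V => (s : Set V))
      (Finset.coe_injective.injOn)).subset
    intro s hs
    exact hs
  apply h1.subset
  intro σ hσ v hv
  obtain ⟨c, hc⟩ := exists_chamber_vertex hσ hv
  exact Set.mem_iUnion.mpr ⟨c, hc⟩

theorem countable_Pos {o : (Fin (m + 1) → V) → ℤˣ} (hC : D.C.Countable) :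
    Countable (Pos D o) := by
  have hW : (⋃ σ ∈ D.C, (σ : Set V)).Countable :=
    hC.biUnion fun σ _ => σ.finite_toSet.countable
  have h1 : (Set.univ.pi (fun _ : Fin (m + 1) => (⋃ σ ∈ D.C, (σ : Set V)))).Countable :=
    Set.countable_univ_pi fun _ => hW
  have h2 : {c : Fin (m + 1) → V | D.IsChamber c}.Countable := by
    apply h1.mono
    intro c hc i _
    exact Set.mem_biUnion (x := im c) hc.1.2 (apply_mem_im c i)
  have h3 : Countable D.Chamber := h2.to_subtype
  have hinj : Function.Injective (fun c : Pos D o => c.1) := Subtype.val_injective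
  exact hinj.countable

end FlowData

end Pool.Agent.TH632
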