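import Pool.Agent.TH632.Map

/-!
# The covering property
-/

open Set Topology

namespace Pool.Agent.TH632

universe u

section Model

variable {m : ℕ}

/-- the open wall number `i` of `Q` -/
def Wall (i : Fin (m + 1)) : Set (Fin m → ℝ) := {y | Lc y i = 0 ∧ ∀ j, j ≠ i → 0 < Lc y j}

/-- the complement of the other closed walls -/
def Uset (i : Fin (m + 1)) : Set (Fin m → ℝ) := {y | qt y ≠ 0 ∨ ∀ j, j ≠ i → 0 < Lc y j}

/-- the branch set: the codimension two skeleton of `Q` -/
def Bset (m : ℕ) : Set (Fin m → ℝ) :=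
  {y | (∀ k, 0 ≤ Lc y k) ∧ ∃ i j, i ≠ j ∧ Lc y i = 0 ∧ Lc y j = 0}

theorem qt_of_wall {i : Fin (m + 1)} {y : Fin m → ℝ} (hy : y ∈ Wall i) : qt y = 0 := by
  apply le_antisymm
  · rw [← hy.1]; exact qt_le y i
  · apply le_qt
    intro j
    by_cases h : j = i
    · rw [h, hy.1]
    · exact (hy.2 j h).le

theorem isOpen_Uset (i : Fin (m + 1)) : IsOpen (Uset i : Set (Fin m → ℝ)) := by
  have h1 : IsOpen {y : Fin m → ℝ | qt y ≠ 0} := isOpen_ne_fun continuous_qt continuous_const
  have h2 : IsOpen {y : Fin m → ℝ | ∀ j, j ≠ i → 0 < Lc y j} := by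
    simp only [Set.ofPred_forall]
    exact isOpen_iInter_of_finite fun j => isOpen_iInter_of_finite fun _ =>
      isOpen_lt continuous_const (continuous_Lc j)
  exact h1.union h2

theorem mem_wall_of_Uset {i : Fin (m + 1)} {y : Fin m → ℝ} (hy : y ∈ Uset i) (h : qt y = 0) :
    y ∈ Wall i := by
  rcases hy with h' | h'
  · exact absurd h h'
  · refine ⟨?_, h'⟩
    obtain ⟨l, hl⟩ := exists_eq_qt y
    by_cases hli : l = i
    · rw [← hli, hl, h]
    · have := h' l hli
      rw [hl, h] at this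
      exact absurd this (lt_irrefl _)

theorem exists_Uset_of_not_mem {y : Fin m → ℝ} (hy : y ∉ Bset m) : ∃ i, y ∈ Uset i := by
  by_cases h : qt y = 0
  · obtain ⟨i, hi⟩ := exists_eq_qt y
    refine ⟨i, Or.inr ?_⟩
    intro j hj
    have h0 : ∀ k, 0 ≤ Lc y k := fun k => h ▸ qt_le y k
    rcases eq_or_lt_of_le (h0 j) with h1 | h1
    · exact absurd ⟨h0, i, j, fun e => hj e.symm, hi.trans h, h1.symm⟩ hy
    · exact h1
  · exact ⟨0, Or.inl h⟩

theorem Lc_convex (X Y : Fin m → ℝ) {a b : ℝ} (hab : a + b = 1) (i : Fin (m + 1)) :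
    Lc (a • X + b • Y) i = a * Lc X i + b * Lc Y i := by
  refine Fin.cases ?_ (fun k => ?_) i
  · rw [Lc_zero, Lc_zero, Lc_zero]
    simp only [Pi.add_apply, Pi.smul_apply, smul_eq_mul, Finset.sum_add_distrib,
      ← Finset.mul_sum]
    have : (1 : ℝ) = a * 1 + b * 1 := by linarith
    rw [← mul_div_assoc, ← mul_div_assoc, ← add_div]
    congr 1
    linarith
  · rw [Lc_succ, Lc_succ, Lc_succ]
    simp

theorem convex_wall (i : Fin (m + 1)) : Convex ℝ (Wall i : Set (Fin m → ℝ)) := by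
  intro X hX Y hY a b ha hb hab
  refine ⟨?_, fun j hj => ?_⟩
  · rw [Lc_convex X Y hab, hX.1, hY.1]; ring
  · rw [Lc_convex X Y hab]
    have h1 := hX.2 j hj
    have h2 := hY.2 j hj
    rcases eq_or_lt_of_le ha with h | h
    · have hb1 : b = 1 := by linarith
      rw [← h, hb1]; linarith
    · have := mul_pos h h1
      have := mul_nonneg hb h2.le
      linarith

theorem wall_nonempty (hm : 2 ≤ m) (i : Fin (m + 1)) : (Wall i : Set (Fin m → ℝ)).Nonempty := by
  have hm' : (0 : ℝ) < m := by positivity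
  refine Fin.cases ?_ (fun k => ?_) i
  · refine ⟨fun _ => 1 / m, ?_, ?_⟩
    · rw [Lc_zero]
      simp only [Finset.sum_const, Finset.card_univ, Fintype.card_fin, nsmul_eq_mul]
      field_simp
      ring
    · intro j hj
      obtain ⟨l, rfl⟩ := Fin.exists_succ_eq.mpr hj
      rw [Lc_succ]
      positivity
  · refine ⟨fun l => if l = k then 0 else 2, ?_, ?_⟩
    · rw [Lc_succ]; simp
    · intro j hj
      refine Fin.cases (fun _ => ?_) (fun l hl => ?_) j hj
      · rw [Lc_zero]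
        apply div_pos _ hm'
        have h1 : ∑ l : Fin m, (if l = k then (0 : ℝ) else 2)
            = ∑ l : Fin m, ((2 : ℝ) - if l = k then 2 else 0) := by
          apply Finset.sum_congr rfl
          intro l _
          split_ifs <;> ring
        rw [h1, Finset.sum_sub_distrib]
        simp only [Finset.sum_const, Finset.card_univ, Fintype.card_fin, nsmul_eq_mul,
          Finset.sum_ite_eq', Finset.mem_univ, if_true]
        have : (2 : ℝ) ≤ m := by exact_mod_cast hm
        linarith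
      · rw [Lc_succ]
        have : l ≠ k := fun e => hl (by rw [e])
        simp [this]

end Model

namespace FlowData

variable {V : Type u} {m : ℕ} {D : FlowData V m}

theorem wall_gap {o : (Fin (m + 1) → V) → ℤˣ} {i : Fin (m + 1)} {c : Fin (m + 1) → V}
    (hc : D.IsChamber c) {x : D.space} (hx : D.InCh c x) (hF : D.F o x ∈ Wall i) :
    Gap c (D.G x).1 (D.G x).2.1 i = 0 ∧ ∀ j, j ≠ i → 0 < Gap c (D.G x).1 (D.G x).2.1 j := by
  have hX : D.Xc c x = D.F o x := by
    rw [Xc_eq_refl (o := o) hc hx, refl_of_qt_zero _ (qt_of_wall hF)]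
  refine ⟨?_, fun j hj => ?_⟩
  · rw [← D.Lc_Xc_eq_zero_iff hc hx, hX]; exact hF.1
  · rw [D.Gap_pos_iff hc hx, hX]; exact hF.2 j hj

theorem wall_unique {o : (Fin (m + 1) → V) → ℤˣ} (ho : D.IsOrientation o) {i : Fin (m + 1)}
    {c c' : D.Chamber} {x : D.space} (hx : D.InCh c.1 x) (hx' : D.InCh c'.1 x)
    (hF : D.F o x ∈ Wall i) (hs : o c.1 = o c'.1) : c = c' :=
  Subtype.ext (unique_same_sign ho c.2 c'.2 hx hx' hs (wall_gap c.2 hx hF).2)

theorem wall_opposite {o : (Fin (m + 1) → V) → ℤˣ} (ho : D.IsOrientation o) {i : Fin (m + 1)}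
    {c : D.Chamber} {x : D.space} (hx : D.InCh c.1 x) (hF : D.F o x ∈ Wall i) :
    ∃ c' : D.Chamber, D.InCh c'.1 x ∧ o c'.1 = - o c.1 := by
  obtain ⟨h1, h2⟩ := wall_gap c.2 hx hF
  obtain ⟨c', hc', hx', hs⟩ := exists_opposite ho c.2 hx h2 h1
  exact ⟨⟨c', hc'⟩, hx', hs⟩

theorem interior_unique {o : (Fin (m + 1) → V) → ℤˣ}
    {c c' : D.Chamber} {x : D.space} (hx : D.InCh c.1 x) (hx' : D.InCh c'.1 x)
    (hF : qt (D.F o x) ≠ 0) : c = c' := by
  apply Subtype.ext
  apply unique_interior c.2 c'.2 hx hx'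
  intro i
  rw [D.Gap_pos_iff c.2 hx]
  have h1 := D.qt_Xc_nonneg c.2 hx
  have h2 := qt_F (o := o) c.2 hx
  have h3 : qt (D.Xc c.1 x) ≠ 0 := by
    intro h
    rw [h, mul_zero] at h2
    exact hF h2
  exact lt_of_lt_of_le (lt_of_le_of_ne h1 (fun e => h3 e.symm)) (qt_le _ i)

theorem wall_mem_half {ε : ℤˣ} {i : Fin (m + 1)} {y : Fin m → ℝ} (hy : y ∈ Wall i) :
    y ∈ half ε := by
  change 0 ≤ _ * qt y
  rw [qt_of_wall hy, mul_zero]

/-- the section at a wall point -/
noncomputable def secW (o : (Fin (m + 1) → V) → ℤˣ) (c : D.Chamber) (i : Fin (m + 1))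
    (y : (Wall i : Set (Fin m → ℝ))) : D.space := sec o c ⟨y, wall_mem_half y.2⟩

theorem continuous_secW (o : (Fin (m + 1) → V) → ℤˣ) (c : D.Chamber) (i : Fin (m + 1)) :
    Continuous (secW o c i) :=
  (continuous_sec o c).comp (Continuous.subtype_mk continuous_subtype_val _)

theorem F_secW (o : (Fin (m + 1) → V) → ℤˣ) (c : D.Chamber) (i : Fin (m + 1))
    (y : (Wall i : Set (Fin m → ℝ))) : D.F o (secW o c i y) = y := F_sec o c _

theorem secW_mem (o : (Fin (m + 1) → V) → ℤˣ) (c : D.Chamber) (i : Fin (m + 1))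
    (y : (Wall i : Set (Fin m → ℝ))) : D.InCh c.1 (secW o c i y) := sec_mem o c _

/-- the chamber on the other side does not depend on the point of the wall -/
theorem wall_const {o : (Fin (m + 1) → V) → ℤˣ} (ho : D.IsOrientation o) {i : Fin (m + 1)}
    {c c' : D.Chamber} (hs : o c'.1 = - o c.1) {y0 : (Wall i : Set (Fin m → ℝ))}
    (h0 : D.InCh c'.1 (secW o c i y0)) (y : (Wall i : Set (Fin m → ℝ))) :
    D.InCh c'.1 (secW o c i y) := by
  have hconn : PreconnectedSpace (Wall i : Set (Fin m → ℝ)) :=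
    isPreconnected_iff_preconnectedSpace.mp (convex_wall i).isPreconnected
  let A : Set (Wall i : Set (Fin m → ℝ)) := {y | D.InCh c'.1 (secW o c i y)}
  have hA : IsClosed A := (D.isClosed_Ch c'.2).preimage (continuous_secW o c i)
  have hAc : IsClosed Aᶜ := by
    let ι := {c'' : D.Chamber // c'' ≠ c' ∧ o c''.1 = - o c.1}
    have hlf : LocallyFinite (fun c'' : ι => D.Ch c''.1.1) :=
      D.locallyFinite_Ch.comp_injective Subtype.val_injective
    have hcl : IsClosed (⋃ c'' : ι, D.Ch c''.1.1) :=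
      hlf.isClosed_iUnion fun c'' => D.isClosed_Ch c''.1.2
    have : Aᶜ = (secW o c i) ⁻¹' (⋃ c'' : ι, D.Ch c''.1.1) := by
      ext y
      simp only [Set.mem_compl_iff, Set.mem_preimage, Set.mem_iUnion]
      have hW : D.F o (secW o c i y) ∈ Wall i := by rw [F_secW]; exact y.2
      constructor
      · intro hy
        obtain ⟨c'', hc'', hs''⟩ := wall_opposite ho (secW_mem o c i y) hW
        refine ⟨⟨c'', ?_, hs''⟩, hc''⟩
        rintro rfl
        exact hy hc''
      · rintro ⟨⟨c'', hne, hs''⟩, hc''⟩ hy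
        exact hne (wall_unique ho hc'' hy hW (hs''.trans hs.symm))
    rw [this]
    exact hcl.preimage (continuous_secW o c i)
  have hclopen : IsClopen A := ⟨hA, isClosed_compl_iff.mp hAc⟩
  have := hclopen.eq_univ ⟨y0, h0⟩
  have hy : y ∈ A := by rw [this]; exact Set.mem_univ y
  exact hy

/-- adjacency across the wall `i` -/
theorem exists_adj {o : (Fin (m + 1) → V) → ℤˣ} (ho : D.IsOrientation o) (i : Fin (m + 1))
    (c : D.Chamber) : ∃ c' : D.Chamber, o c'.1 = - o c.1 ∧
      ∀ y : (Wall i : Set (Fin m → ℝ)), D.InCh c'.1 (secW o c i y) := by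
  obtain ⟨y0, hy0⟩ := wall_nonempty D.mpos i
  have hW : D.F o (secW o c i ⟨y0, hy0⟩) ∈ Wall i := by rw [F_secW]; exact hy0
  obtain ⟨c', hc', hs⟩ := wall_opposite ho (secW_mem o c i ⟨y0, hy0⟩) hW
  exact ⟨c', hs, fun y => wall_const ho hs hc' y⟩

/-- the adjacent chamber across the wall `i` -/
noncomputable def adj {o : (Fin (m + 1) → V) → ℤˣ} (ho : D.IsOrientation o) (i : Fin (m + 1))
    (c : D.Chamber) : D.Chamber := Classical.choose (exists_adj ho i c)

theorem adj_sign {o : (Fin (m + 1) → V) → ℤˣ} (ho : D.IsOrientation o) (i : Fin (m + 1))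
    (c : D.Chamber) : o (adj ho i c).1 = - o c.1 := (Classical.choose_spec (exists_adj ho i c)).1

theorem adj_mem {o : (Fin (m + 1) → V) → ℤˣ} (ho : D.IsOrientation o) (i : Fin (m + 1))
    (c : D.Chamber) (y : (Wall i : Set (Fin m → ℝ))) :
    D.InCh (adj ho i c).1 (secW o c i y) := (Classical.choose_spec (exists_adj ho i c)).2 y

theorem secW_adj {o : (Fin (m + 1) → V) → ℤˣ} (ho : D.IsOrientation o) (i : Fin (m + 1))
    (c : D.Chamber) (y : (Wall i : Set (Fin m → ℝ))) :
    secW o (adj ho i c) i y = secW o c i y :=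
  F_injOn o (adj ho i c) (secW_mem o _ i y) (adj_mem ho i c y) (by rw [F_secW, F_secW])

/-- points of the wall in a chamber are in the adjacent chamber -/
theorem mem_adj_of_mem {o : (Fin (m + 1) → V) → ℤˣ} (ho : D.IsOrientation o) {i : Fin (m + 1)}
    {c : D.Chamber} {x : D.space} (hx : D.InCh c.1 x) (hW : D.F o x ∈ Wall i) :
    D.InCh (adj ho i c).1 x := by
  have h1 := adj_mem ho i c ⟨D.F o x, hW⟩
  have h2 : secW o c i ⟨D.F o x, hW⟩ = x :=
    F_injOn o c (secW_mem o c i _) hx (by rw [F_secW])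
  rw [h2] at h1
  exact h1

theorem adj_adj {o : (Fin (m + 1) → V) → ℤˣ} (ho : D.IsOrientation o) (i : Fin (m + 1))
    (c : D.Chamber) : adj ho i (adj ho i c) = c := by
  obtain ⟨y0, hy0⟩ := wall_nonempty D.mpos i
  have hW : D.F o (secW o c i ⟨y0, hy0⟩) ∈ Wall i := by rw [F_secW]; exact hy0
  have h1 := adj_mem ho i c ⟨y0, hy0⟩
  have h2 := mem_adj_of_mem ho h1 hW
  exact wall_unique ho h2 (secW_mem o c i ⟨y0, hy0⟩) hW
    (by rw [adj_sign ho, adj_sign ho, neg_neg])

/-- the positive chambers -/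
def Pos (D : FlowData V m) (o : (Fin (m + 1) → V) → ℤˣ) : Type u :=
  {c : D.Chamber // o c.1 = 1}

/-- the sheet of a positive chamber near the wall `i` -/
def Sheet {o : (Fin (m + 1) → V) → ℤˣ} (ho : D.IsOrientation o) (i : Fin (m + 1))
    (c : Pos D o) : Set D.space := D.Ch c.1.1 ∪ D.Ch (adj ho i c.1).1

theorem exists_sheet {o : (Fin (m + 1) → V) → ℤˣ} (ho : D.IsOrientation o) (i : Fin (m + 1))
    (x : D.space) : ∃ c : Pos D o, x ∈ Sheet ho i c := by
  obtain ⟨c, hc, hx⟩ := D.exists_chamber x.2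
  rcases Int.units_eq_one_or (o c) with h | h
  · exact ⟨⟨⟨c, hc⟩, h⟩, Or.inl hx⟩
  · refine ⟨⟨adj ho i ⟨c, hc⟩, by rw [adj_sign ho]; simp [h]⟩, Or.inr ?_⟩
    change D.InCh (adj ho i (adj ho i ⟨c, hc⟩)).1 x
    rw [adj_adj]
    exact hx

theorem mem_of_sheet_wall {o : (Fin (m + 1) → V) → ℤˣ} (ho : D.IsOrientation o)
    {i : Fin (m + 1)} {c : Pos D o} {x : D.space} (hx : x ∈ Sheet ho i c)
    (hW : D.F o x ∈ Wall i) : D.InCh c.1.1 x := by
  rcases hx with hx | hx
  · exact hx
  · have := mem_adj_of_mem ho hx hW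
    rw [adj_adj] at this
    exact this

theorem sheet_unique {o : (Fin (m + 1) → V) → ℤˣ} (ho : D.IsOrientation o)
    {i : Fin (m + 1)} {c c' : Pos D o} {x : D.space} (hx : x ∈ Sheet ho i c)
    (hx' : x ∈ Sheet ho i c') (hU : D.F o x ∈ Uset i) : c = c' := by
  by_cases hq : qt (D.F o x) = 0
  · have hW := mem_wall_of_Uset hU hq
    exact Subtype.ext (wall_unique ho (mem_of_sheet_wall ho hx hW)
      (mem_of_sheet_wall ho hx' hW) hW (c.2.trans c'.2.symm))
  · have hne : (1 : ℤˣ) ≠ -1 := by decide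
    rcases hx with hx | hx <;> rcases hx' with hx' | hx'
    · exact Subtype.ext (interior_unique (o := o) hx hx' hq)
    · exfalso
      have := interior_unique (o := o) hx hx' hq
      have h2 := adj_sign ho i c'.1
      rw [← this, c.2, c'.2] at h2
      exact hne h2
    · exfalso
      have := interior_unique (o := o) hx hx' hq
      have h2 := adj_sign ho i c.1
      rw [this, c.2, c'.2] at h2
      exact hne h2
    · have := interior_unique (o := o) hx hx' hq
      have h2 := congrArg (adj ho i) this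
      rw [adj_adj, adj_adj] at h2
      exact Subtype.ext h2

end FlowData

end Pool.Agent.TH632
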