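import Pool.Agent.TH632.Cover

/-!
# Even covering off the branch set
-/

open Set Topology

namespace Pool.Agent.TH632

universe u

namespace FlowData

variable {V : Type u} {m : ℕ} {D : FlowData V m}

theorem half_of_pos {o : (Fin (m + 1) → V) → ℤˣ} (c : Pos D o) {y : Fin m → ℝ}
    (hy : 0 ≤ qt y) : y ∈ half (o c.1.1) := by
  rw [c.2, mem_half_one]; exact hy

theorem sign_adj_pos {o : (Fin (m + 1) → V) → ℤˣ} (ho : D.IsOrientation o) (i : Fin (m + 1))
    (c : Pos D o) : o (adj ho i c.1).1 = -1 := by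
  rw [adj_sign ho i c.1, c.2]

theorem qt_nonneg_of_pos {o : (Fin (m + 1) → V) → ℤˣ} (c : Pos D o) {x : D.space}
    (hx : D.InCh c.1.1 x) : 0 ≤ qt (D.F o x) := by
  have h := sign_qt_F (o := o) c.1.2 hx
  rw [c.2] at h
  simpa using h

theorem qt_nonpos_of_neg {o : (Fin (m + 1) → V) → ℤˣ} {c : D.Chamber} (hc : o c.1 = -1)
    {x : D.space} (hx : D.InCh c.1 x) : qt (D.F o x) ≤ 0 := by
  have h := sign_qt_F (o := o) c.2 hx
  rw [hc] at h
  simpa using h

theorem half_of_neg {o : (Fin (m + 1) → V) → ℤˣ} (ho : D.IsOrientation o) (i : Fin (m + 1))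
    (c : Pos D o) {y : Fin m → ℝ} (hy : qt y ≤ 0) : y ∈ half (o (adj ho i c.1).1) := by
  rw [sign_adj_pos ho i c, mem_half_neg_one]; exact hy

open scoped Classical in
/-- the section over the neighbourhood of the wall `i` -/
noncomputable def secU {o : (Fin (m + 1) → V) → ℤˣ} (ho : D.IsOrientation o) (i : Fin (m + 1))
    (c : Pos D o) (y : (Uset i : Set (Fin m → ℝ))) : D.space :=
  if h : 0 ≤ qt (y : Fin m → ℝ) then sec o c.1 ⟨y, half_of_pos c h⟩
  else sec o (adj ho i c.1) ⟨y, half_of_neg ho i c (not_le.mp h).le⟩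

theorem secU_pos {o : (Fin (m + 1) → V) → ℤˣ} (ho : D.IsOrientation o) (i : Fin (m + 1))
    (c : Pos D o) (y : (Uset i : Set (Fin m → ℝ))) (h : 0 ≤ qt (y : Fin m → ℝ)) :
    secU ho i c y = sec o c.1 ⟨y, half_of_pos c h⟩ := by
  unfold secU
  rw [dif_pos h]

theorem secU_neg {o : (Fin (m + 1) → V) → ℤˣ} (ho : D.IsOrientation o) (i : Fin (m + 1))
    (c : Pos D o) (y : (Uset i : Set (Fin m → ℝ))) (h : qt (y : Fin m → ℝ) ≤ 0) :
    secU ho i c y = sec o (adj ho i c.1) ⟨y, half_of_neg ho i c h⟩ := by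
  by_cases h0 : 0 ≤ qt (y : Fin m → ℝ)
  · rw [secU_pos ho i c y h0]
    have hq : qt (y : Fin m → ℝ) = 0 := le_antisymm h h0
    have hW := mem_wall_of_Uset y.2 hq
    exact (secW_adj ho i c.1 ⟨y, hW⟩).symm
  · unfold secU
    rw [dif_neg h0]

theorem continuous_secU {o : (Fin (m + 1) → V) → ℤˣ} (ho : D.IsOrientation o)
    (i : Fin (m + 1)) (c : Pos D o) : Continuous (secU ho i c) := by
  have hqt : Continuous (fun y : (Uset i : Set (Fin m → ℝ)) => qt (y : Fin m → ℝ)) :=
    continuous_qt.comp continuous_subtype_val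
  have hA : IsClosed {y : (Uset i : Set (Fin m → ℝ)) | 0 ≤ qt (y : Fin m → ℝ)} :=
    isClosed_le continuous_const hqt
  have hB : IsClosed {y : (Uset i : Set (Fin m → ℝ)) | qt (y : Fin m → ℝ) ≤ 0} :=
    isClosed_le hqt continuous_const
  have h1 : ContinuousOn (secU ho i c)
      {y : (Uset i : Set (Fin m → ℝ)) | 0 ≤ qt (y : Fin m → ℝ)} := by
    rw [continuousOn_iff_continuous_domRestrict]
    have : Continuous (fun y : {y : (Uset i : Set (Fin m → ℝ)) | 0 ≤ qt (y : Fin m → ℝ)} =>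
        sec o c.1 ⟨((y : (Uset i : Set (Fin m → ℝ))) : Fin m → ℝ), half_of_pos c y.2⟩) :=
      (continuous_sec o c.1).comp (Continuous.subtype_mk
        (continuous_subtype_val.comp continuous_subtype_val) _)
    refine this.congr ?_
    intro y
    exact (secU_pos ho i c y.1 y.2).symm
  have h2 : ContinuousOn (secU ho i c)
      {y : (Uset i : Set (Fin m → ℝ)) | qt (y : Fin m → ℝ) ≤ 0} := by
    rw [continuousOn_iff_continuous_domRestrict]
    have : Continuous (fun y : {y : (Uset i : Set (Fin m → ℝ)) | qt (y : Fin m → ℝ) ≤ 0} =>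
        sec o (adj ho i c.1) ⟨((y : (Uset i : Set (Fin m → ℝ))) : Fin m → ℝ),
          half_of_neg ho i c y.2⟩) :=
      (continuous_sec o (adj ho i c.1)).comp (Continuous.subtype_mk
        (continuous_subtype_val.comp continuous_subtype_val) _)
    refine this.congr ?_
    intro y
    exact (secU_neg ho i c y.1 y.2).symm
  rw [← continuousOn_univ]
  refine (h1.union_of_isClosed h2 hA hB).mono ?_
  intro y _
  exact le_total 0 (qt (y : Fin m → ℝ))

theorem F_secU {o : (Fin (m + 1) → V) → ℤˣ} (ho : D.IsOrientation o)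
    (i : Fin (m + 1)) (c : Pos D o) (y : (Uset i : Set (Fin m → ℝ))) :
    D.F o (secU ho i c y) = y := by
  unfold secU
  split_ifs with h
  · exact F_sec o c.1 _
  · exact F_sec o _ _

theorem secU_mem {o : (Fin (m + 1) → V) → ℤˣ} (ho : D.IsOrientation o)
    (i : Fin (m + 1)) (c : Pos D o) (y : (Uset i : Set (Fin m → ℝ))) :
    secU ho i c y ∈ Sheet ho i c := by
  unfold secU
  split_ifs with h
  · exact Or.inl (sec_mem o c.1 _)
  · exact Or.inr (sec_mem o _ _)

theorem secU_F {o : (Fin (m + 1) → V) → ℤˣ} (ho : D.IsOrientation o)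
    {i : Fin (m + 1)} {c : Pos D o} {x : D.space} (hx : x ∈ Sheet ho i c)
    (hU : D.F o x ∈ Uset i) : secU ho i c ⟨D.F o x, hU⟩ = x := by
  by_cases h : 0 ≤ qt (D.F o x)
  · rw [secU_pos ho i c ⟨D.F o x, hU⟩ h]
    have hx' : D.InCh c.1.1 x := by
      rcases hx with hx | hx
      · exact hx
      · have h2 := qt_nonpos_of_neg (sign_adj_pos ho i c) hx
        exact mem_of_sheet_wall ho (Or.inr hx) (mem_wall_of_Uset hU (le_antisymm h2 h))
    exact sec_F o c.1 hx'
  · have h' := (not_le.mp h).le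
    rw [secU_neg ho i c ⟨D.F o x, hU⟩ h']
    have hx' : D.InCh (adj ho i c.1).1 x := by
      rcases hx with hx | hx
      · exact absurd (qt_nonneg_of_pos c hx) h
      · exact hx
    exact sec_F o _ hx'

theorem isClosed_sheets {o : (Fin (m + 1) → V) → ℤˣ} (ho : D.IsOrientation o)
    (i : Fin (m + 1)) (P : Set (Pos D o)) : IsClosed (⋃ c ∈ P, Sheet ho i c) := by
  have h1 : IsClosed (⋃ c : P, D.Ch c.1.1.1) := by
    have hinj : Function.Injective (fun c : P => c.1.1) := by
      intro a b h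
      exact Subtype.ext (Subtype.ext h)
    have hlf := D.locallyFinite_Ch.comp_injective hinj
    exact hlf.isClosed_iUnion fun c => D.isClosed_Ch c.1.1.2
  have h2 : IsClosed (⋃ c : P, D.Ch (adj ho i c.1.1).1) := by
    have hinj : Function.Injective (fun c : P => adj ho i c.1.1) := by
      intro a b h
      have h' : adj ho i a.1.1 = adj ho i b.1.1 := h
      have h3 := congrArg (adj ho i) h'
      rw [adj_adj ho i a.1.1, adj_adj ho i b.1.1] at h3
      exact Subtype.ext (Subtype.ext h3)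
    have hlf := D.locallyFinite_Ch.comp_injective hinj
    exact hlf.isClosed_iUnion fun c => D.isClosed_Ch (adj ho i c.1.1).2
  have : (⋃ c ∈ P, Sheet ho i c) =
      (⋃ c : P, D.Ch c.1.1.1) ∪ (⋃ c : P, D.Ch (adj ho i c.1.1).1) := by
    ext x
    simp only [Set.mem_iUnion, Set.mem_union, Sheet]
    constructor
    · rintro ⟨c, hc, h | h⟩
      · exact Or.inl ⟨⟨c, hc⟩, h⟩
      · exact Or.inr ⟨⟨c, hc⟩, h⟩
    · rintro (⟨⟨c, hc⟩, h⟩ | ⟨⟨c, hc⟩, h⟩)
      · exact ⟨c, hc, Or.inl h⟩
      · exact ⟨c, hc, Or.inr h⟩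
  rw [this]
  exact h1.union h2

/-- `F` evenly covers the points off the branch set -/
theorem evenlyCovered {o : (Fin (m + 1) → V) → ℤˣ} (ho : D.IsOrientation o)
    (i : Fin (m + 1)) {y : Fin m → ℝ} (hy : y ∈ Uset i) :
    letI : TopologicalSpace (Pos D o) := ⊥
    IsEvenlyCovered (D.F o) y (Pos D o) := by
  let _ : TopologicalSpace (Pos D o) := ⊥
  have : DiscreteTopology (Pos D o) := ⟨rfl⟩
  refine ⟨inferInstance, Uset i, hy, isOpen_Uset i, (isOpen_Uset i).preimage (continuous_F o), ?_⟩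
  choose cc hcc using fun x : D.space => exists_sheet ho i x
  have hccU : ∀ (x : D.space) (c : Pos D o), D.F o x ∈ Uset i → x ∈ Sheet ho i c → cc x = c :=
    fun x c hU hx => sheet_unique ho (hcc x) hx hU
  refine ⟨{ toFun := fun x => (⟨D.F o x, x.2⟩, cc x)
            invFun := fun q => ⟨secU ho i q.2 q.1, by
              change D.F o _ ∈ Uset i
              rw [F_secU]; exact q.1.2⟩
            left_inv := ?_
            right_inv := ?_
            continuous_toFun := ?_
            continuous_invFun := ?_ }, fun x => rfl⟩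
  · rintro ⟨x, hx⟩
    apply Subtype.ext
    exact secU_F ho (hcc x) hx
  · rintro ⟨y, c⟩
    apply Prod.ext
    · apply Subtype.ext
      exact F_secU ho i c y
    · apply hccU
      · rw [F_secU]; exact y.2
      · exact secU_mem ho i c y
  · apply Continuous.prodMk
    · exact Continuous.subtype_mk ((continuous_F o).comp continuous_subtype_val) _
    · rw [← IsLocallyConstant.iff_continuous, IsLocallyConstant.iff_isOpen_fiber]
      intro c
      have hcl := (isClosed_sheets ho i ({c}ᶜ : Set (Pos D o))).isOpen_compl.preimage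
        (continuous_subtype_val (p := fun x : D.space => x ∈ D.F o ⁻¹' Uset i))
      convert hcl using 1
      ext x
      simp only [Set.mem_preimage, Set.mem_singleton_iff, Set.mem_compl_iff, Set.mem_iUnion,
        not_exists]
      constructor
      · intro h c' hc' hx
        exact hc' ((hccU x c' x.2 hx).symm.trans h)
      · intro h
        by_contra hne
        exact h (cc x) hne (hcc x)
  · rw [continuous_prod_of_discrete_right]
    intro c
    exact Continuous.subtype_mk (continuous_secU ho i c) _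

theorem isCoveringMapOn {o : (Fin (m + 1) → V) → ℤˣ} (ho : D.IsOrientation o) :
    IsCoveringMapOn (D.F o) (Bset m)ᶜ := by
  intro y hy
  obtain ⟨i, hi⟩ := exists_Uset_of_not_mem hy
  let _ : TopologicalSpace (Pos D o) := ⊥
  exact (evenlyCovered ho i hi).to_isEvenlyCovered_preimage

theorem fiber_equiv {o : (Fin (m + 1) → V) → ℤˣ} (ho : D.IsOrientation o) {y : Fin m → ℝ}
    (hy : y ∉ Bset m) : Nonempty (Pos D o ≃ D.F o ⁻¹' {y}) := by
  obtain ⟨i, hi⟩ := exists_Uset_of_not_mem hy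
  let _ : TopologicalSpace (Pos D o) := ⊥
  exact ⟨(evenlyCovered ho i hi).fiberHomeomorph.toEquiv⟩

/-- fibres are discrete -/
theorem discrete_fiber (o : (Fin (m + 1) → V) → ℤˣ) (y : Fin m → ℝ) :
    DiscreteTopology (D.F o ⁻¹' {y}) := by
  rw [discreteTopology_iff_isOpen_singleton]
  rintro ⟨x, hx⟩
  obtain ⟨N, hN, hfin⟩ := D.locallyFinite_Ch x
  -- finitely many points of the fibre in `N`
  have hfin2 : (N ∩ D.F o ⁻¹' {y}).Finite := by
    have : N ∩ D.F o ⁻¹' {y} ⊆ ⋃ c ∈ {c : D.Chamber | (D.Ch c.1 ∩ N).Nonempty},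
        (D.Ch c.1 ∩ D.F o ⁻¹' {y}) := by
      rintro z ⟨hzN, hz⟩
      obtain ⟨c, hc, hcz⟩ := D.exists_chamber z.2
      exact Set.mem_biUnion (x := (⟨c, hc⟩ : D.Chamber)) ⟨z, hcz, hzN⟩ ⟨hcz, hz⟩
    refine (Set.Finite.biUnion hfin fun c _ => ?_).subset this
    apply Set.Subsingleton.finite
    rintro a ⟨ha1, ha2⟩ b ⟨hb1, hb2⟩
    exact F_injOn o c ha1 hb1 (ha2.trans hb2.symm)
  have hN' : (N \ ((N ∩ D.F o ⁻¹' {y}) \ {x})) ∈ 𝓝 x := by
    apply Filter.sdiff_mem hN
    have hcl : IsClosed ((N ∩ D.F o ⁻¹' {y}) \ {x}) := (hfin2.subset Set.sdiff_subset).isClosed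
    exact hcl.isOpen_compl.mem_nhds (by simp)
  obtain ⟨O, hO, hOo, hxO⟩ := mem_nhds_iff.mp hN'
  rw [isOpen_induced_iff]
  refine ⟨O, hOo, ?_⟩
  ext z
  simp only [Set.mem_preimage, Set.mem_singleton_iff]
  constructor
  · intro hz
    have h1 := hO hz
    apply Subtype.ext
    by_contra hne
    exact h1.2 ⟨⟨h1.1, z.2⟩, hne⟩
  · rintro rfl
    exact hxO

/-- `F` is surjective once there is a cell -/
theorem surjective_F {o : (Fin (m + 1) → V) → ℤˣ} (ho : D.IsOrientation o)
    (hne : D.space.Nonempty) : Function.Surjective (D.F o) := by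
  intro y
  obtain ⟨x, hx⟩ := hne
  obtain ⟨c, hc⟩ := exists_sheet ho 0 ⟨x, hx⟩
  rcases le_total 0 (qt y) with h | h
  · exact ⟨sec o c.1 ⟨y, half_of_pos c h⟩, F_sec o _ _⟩
  · exact ⟨sec o (adj ho 0 c.1) ⟨y, half_of_neg ho 0 c h⟩, F_sec o _ _⟩

end FlowData

end Pool.Agent.TH632
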