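import Mathlib

/-!
# PL manifolds and branched covers of Euclidean space

Definitions used in the statement about `ℝ^m` as a universal base for branched covers.
-/

open Set

namespace Pool.Agent.TH632

open scoped Classical in
section

universe u w

variable {V : Type u} {W : Type w}

/-- The closed simplex of `ℝ^V` spanned by the finite vertex set `s`, in barycentric
coordinates: nonnegative functions on `V` vanishing off `s` with sum `1`. -/
def simplex (s : Finset V) : Set (V → ℝ) :=
  {x | (∀ v, 0 ≤ x v) ∧ (∀ v, v ∉ s → x v = 0) ∧ ∑ v ∈ s, x v = 1}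

/-- The geometric realization `|K|` of an abstract simplicial complex `K`, in barycentric
coordinates: the union in `ℝ^V` of the closed simplices of `K`. It carries the topology of
pointwise convergence, which for the locally finite complexes used below is the usual
topology of `|K|`. -/
def realization (K : PreAbstractSimplicialComplex V) : Set (V → ℝ) :=
  ⋃ s ∈ K.faces, simplex s

/-- A (closed, convex) polyhedron of a real vector space: a finite intersection of closed
half spaces. -/
def IsPolyhedron {E : Type*} [AddCommGroup E] [Module ℝ E] (P : Set E) : Prop :=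
  ∃ (n : ℕ) (l : Fin n → E →ₗ[ℝ] ℝ) (c : Fin n → ℝ), P = {x | ∀ i, l i x ≤ c i}

/-- A map `f` from the polyhedron `|K|` to a real vector space is PL: it is continuous, and
every closed simplex of `K` is covered by finitely many convex polyhedra on each of which
`f` agrees with an affine map. -/
def IsPL (K : PreAbstractSimplicialComplex V) {F : Type*} [AddCommGroup F] [Module ℝ F]
    [TopologicalSpace F] (f : realization K → F) : Prop :=
  Continuous f ∧ ∀ s ∈ K.faces, ∃ (n : ℕ) (P : Fin n → Set (V → ℝ)),
    (∀ i, IsPolyhedron (P i)) ∧ simplex s ⊆ ⋃ i, P i ∧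
    ∀ i, ∃ A : (V → ℝ) →ᵃ[ℝ] F, ∀ x : realization K, (x : V → ℝ) ∈ simplex s →
      (x : V → ℝ) ∈ P i → f x = A x

/-- `|K|` and `|L|` are PL homeomorphic. -/
def PLHomeomorphic (K : PreAbstractSimplicialComplex V) (L : PreAbstractSimplicialComplex W) :
    Prop :=
  ∃ e : realization K ≃ₜ realization L,
    IsPL K (fun x => ((e x : realization L) : W → ℝ)) ∧
    IsPL L (fun y => ((e.symm y : realization K) : V → ℝ))

/-- The link of the simplex `s` in `K`: all nonempty `t` disjoint from `s` with `t ∪ s ∈ K`. -/
def link (K : PreAbstractSimplicialComplex V) (s : Finset V) :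
    PreAbstractSimplicialComplex V where
  faces := {t | t.Nonempty ∧ Disjoint t s ∧ t ∪ s ∈ K.faces}
  isRelLowerSet_faces := by
    intro t ht
    refine ⟨ht.1, fun t' h' hne => ⟨hne, Disjoint.mono_left h' ht.2.1, ?_⟩⟩
    exact (K.isRelLowerSet_faces ht.2.2).2 (Finset.union_subset_union_left h')
      (hne.mono Finset.subset_union_left)

/-- The boundary of the standard `n`-simplex (vertex set `Fin (n+1)`), the standard PL sphere
of dimension `n - 1` (empty when `n = 0`). -/
def simplexBoundary (n : ℕ) : PreAbstractSimplicialComplex (Fin (n + 1)) where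
  faces := {t | t.Nonempty ∧ t ≠ Finset.univ}
  isRelLowerSet_faces := by
    intro t ht
    refine ⟨ht.1, fun t' h' hne => ⟨hne, fun h => ht.2 ?_⟩⟩
    exact Finset.univ_subset_iff.mp (h ▸ h')

/-- `K` is a combinatorial (PL) `m`-manifold without boundary: it is locally finite and the
link of every simplex `s` of `K` is PL homeomorphic to the boundary of a simplex of dimension
`m + 1 - #s`, i.e. to the PL sphere of dimension `m - #s = m - dim s - 1`. -/
def IsPLManifold (m : ℕ) (K : PreAbstractSimplicialComplex V) : Prop :=
  (∀ v, {s ∈ K.faces | v ∈ s}.Finite) ∧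
  ∀ s ∈ K.faces, s.card ≤ m + 1 ∧ PLHomeomorphic (link K s) (simplexBoundary (m + 1 - s.card))

/-- `t` is an ordering `(t 0, …, t m)` of the vertices of an `m`-simplex of `K`. -/
def IsOrderedCell (m : ℕ) (K : PreAbstractSimplicialComplex V) (t : Fin (m + 1) → V) : Prop :=
  Function.Injective t ∧ Finset.univ.image t ∈ K.faces

/-- `K` is orientable: its ordered `m`-simplices can be given signs, alternating under
permutations of the vertices, which are coherent: the signs of `(a, t 1, …, t m)` and
`(b, t 1, …, t m)` are opposite whenever both are ordered `m`-simplices and `a ≠ b`. -/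
def IsOrientable (m : ℕ) (K : PreAbstractSimplicialComplex V) : Prop :=
  ∃ o : (Fin (m + 1) → V) → ℤˣ,
    (∀ t, IsOrderedCell m K t → ∀ π : Equiv.Perm (Fin (m + 1)),
      o (t ∘ π) = Equiv.Perm.sign π * o t) ∧
    (∀ t t', IsOrderedCell m K t → IsOrderedCell m K t' → t 0 ≠ t' 0 →
      (∀ i, i ≠ 0 → t i = t' i) → o t' = - o t)

/-- `B ⊆ ℝ^m` is a closed subpolyhedron of dimension `d`: a finite union of convex polyhedra
(finite intersections of closed half spaces), all of dimension at most `d` and one of
dimension `d`. -/
def IsSubpolyhedronOfDim {m : ℕ} (d : ℕ) (B : Set (Fin m → ℝ)) : Prop :=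
  ∃ (n : ℕ) (P : Fin n → Set (Fin m → ℝ)), B = ⋃ i, P i ∧
    (∀ i, IsPolyhedron (P i) ∧ Module.finrank ℝ (vectorSpan ℝ (P i)) ≤ d) ∧
    ∃ i, (P i).Nonempty ∧ Module.finrank ℝ (vectorSpan ℝ (P i)) = d

end

end Pool.Agent.TH632
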