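import Pool.Agent.TH632.Defs

/-!
# The backward flow on a simplicial pseudomanifold with a forest of facets
-/

open Set

namespace Pool.Agent.TH632

universe u

/-- A pure `m`-dimensional pseudomanifold (cells = vertex sets of the top simplices), with a
choice for every cell `σ` of a neighbouring cell `par σ` across the facet opposite to `apex σ`,
such that a natural number valued rank increases along `par`. -/
structure FlowData (V : Type u) (m : ℕ) where
  C : Set (Finset V)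
  card : ∀ σ ∈ C, σ.card = m + 1
  apex : Finset V → V
  par : Finset V → Finset V
  rank : Finset V → ℕ
  apex_mem : ∀ σ ∈ C, apex σ ∈ σ
  par_mem : ∀ σ ∈ C, par σ ∈ C
  par_sub : ∀ σ ∈ C, ∀ v ∈ σ, v ≠ apex σ → v ∈ par σ
  rank_lt : ∀ σ ∈ C, rank σ < rank (par σ)
  two_ex : ∀ σ ∈ C, ∀ v ∈ σ, ∃ τ ∈ C, τ ≠ σ ∧ ∀ w ∈ σ, w ≠ v → w ∈ τ
  two_uniq : ∀ σ ∈ C, ∀ v ∈ σ, ∀ τ ∈ C, ∀ τ' ∈ C, τ ≠ σ → τ' ≠ σ →
    (∀ w ∈ σ, w ≠ v → w ∈ τ) → (∀ w ∈ σ, w ≠ v → w ∈ τ') → τ = τ'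
  locfin : ∀ v, {σ | σ ∈ C ∧ v ∈ σ}.Finite
  mpos : 2 ≤ m

namespace FlowData

variable {V : Type u} {m : ℕ} (D : FlowData V m)

open scoped Classical in
/-- Two distinct cells sharing all vertices of `σ` but `v`: the complement is exactly `v`. -/
theorem not_mem_of_ne {σ τ : Finset V} (hσ : σ ∈ D.C) (hτ : τ ∈ D.C) (hne : τ ≠ σ) {v : V}
    (h : ∀ w ∈ σ, w ≠ v → w ∈ τ) : v ∉ τ := by
  intro hv
  apply hne
  have hsub : σ ⊆ τ := fun w hw => by
    by_cases hwv : w = v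
    · exact hwv ▸ hv
    · exact h w hw hwv
  exact (Finset.eq_of_subset_of_card_le hsub (by rw [D.card σ hσ, D.card τ hτ])).symm

theorem par_ne {σ : Finset V} (hσ : σ ∈ D.C) : D.par σ ≠ σ := fun h => by
  have := D.rank_lt σ hσ
  rw [h] at this
  exact lt_irrefl _ this

theorem apex_not_mem_par {σ : Finset V} (hσ : σ ∈ D.C) : D.apex σ ∉ D.par σ :=
  D.not_mem_of_ne hσ (D.par_mem σ hσ) (D.par_ne hσ) (fun w hw hne => D.par_sub σ hσ w hw hne)

open scoped Classical in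
/-- The vertex of the parent cell that is missing in the child. -/
theorem exists_missing {κ : Finset V} (hκ : κ ∈ D.C) :
    ∃ v ∈ D.par κ, v ∉ κ ∧ ∀ w ∈ D.par κ, w ≠ v → w ∈ κ := by
  have hp := D.par_mem κ hκ
  have h1 : κ.erase (D.apex κ) ⊆ D.par κ := fun w hw =>
    D.par_sub κ hκ w (Finset.mem_of_mem_erase hw) (Finset.ne_of_mem_erase hw)
  have hc : (κ.erase (D.apex κ)).card = m := by
    rw [Finset.card_erase_of_mem (D.apex_mem κ hκ), D.card κ hκ]; rfl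
  have hd : (D.par κ \ κ.erase (D.apex κ)).card = 1 := by
    rw [Finset.card_sdiff_of_subset h1, hc, D.card _ hp]; omega
  obtain ⟨v, hv⟩ := Finset.card_eq_one.mp hd
  have hv' : v ∈ D.par κ \ κ.erase (D.apex κ) := by rw [hv]; exact Finset.mem_singleton_self v
  rw [Finset.mem_sdiff] at hv'
  refine ⟨v, hv'.1, ?_, ?_⟩
  · intro hvκ
    by_cases h : v = D.apex κ
    · exact D.apex_not_mem_par hκ (h ▸ hv'.1)
    · exact hv'.2 (Finset.mem_erase.mpr ⟨h, hvκ⟩)
  · intro w hw hne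
    by_contra hwκ
    have : w ∈ D.par κ \ κ.erase (D.apex κ) := by
      rw [Finset.mem_sdiff]
      exact ⟨hw, fun h => hwκ (Finset.mem_of_mem_erase h)⟩
    rw [hv, Finset.mem_singleton] at this
    exact hne this

theorem missing_ne_apex {κ : Finset V} (hκ : κ ∈ D.C) {v : V} (hv : v ∈ D.par κ)
    (hvκ : v ∉ κ) : v ≠ D.apex (D.par κ) := by
  intro h
  obtain ⟨v', hv', hv'κ, hall⟩ := D.exists_missing hκ
  have hvv : v = v' := by
    by_contra hne
    exact hvκ (hall v hv hne)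
  subst hvv
  have hp := D.par_mem κ hκ
  have e := D.two_uniq (D.par κ) hp v hv κ hκ (D.par (D.par κ)) (D.par_mem _ hp)
    (D.par_ne hκ).symm (D.par_ne hp) hall
    (fun w hw hne => D.par_sub _ hp w hw (by rw [← h]; exact hne))
  have h1 := D.rank_lt κ hκ
  have h2 := D.rank_lt _ hp
  rw [← e] at h2
  omega

/-- missing vertex is unique -/
theorem missing_unique {κ : Finset V} (hκ : κ ∈ D.C) {v w : V} (hv : v ∈ D.par κ)
    (hvκ : v ∉ κ) (hw : w ∈ D.par κ) (hwκ : w ∉ κ) : v = w := by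
  obtain ⟨v', hv', hv'κ, hall⟩ := D.exists_missing hκ
  have h1 : v = v' := by
    by_contra hne
    exact hvκ (hall v hv hne)
  have h2 : w = v' := by
    by_contra hne
    exact hwκ (hall w hw hne)
  rw [h1, h2]

/-- the base of points: the union of the cells -/
def space : Set (V → ℝ) := {x | ∃ σ ∈ D.C, x ∈ simplex σ}

/-! ### moving inside a cell -/

open scoped Classical in
/-- Move inside the cell `σ` away from the apex by `τ`. -/
noncomputable def mv (σ : Finset V) (τ : ℝ) (x : V → ℝ) : V → ℝ := fun v =>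
  if v = D.apex σ then x v - τ else if v ∈ σ then x v + τ / m else x v

theorem mv_zero (σ : Finset V) (x : V → ℝ) : D.mv σ 0 x = x := by
  funext v; simp [mv]

theorem mv_mv (σ : Finset V) (τ τ' : ℝ) (x : V → ℝ) :
    D.mv σ τ (D.mv σ τ' x) = D.mv σ (τ' + τ) x := by
  funext v
  unfold mv
  split_ifs <;> ring

theorem mv_apex (σ : Finset V) (τ : ℝ) (x : V → ℝ) :
    D.mv σ τ x (D.apex σ) = x (D.apex σ) - τ := by simp [mv]

theorem mv_of_mem {σ : Finset V} (τ : ℝ) (x : V → ℝ) {v : V} (hv : v ∈ σ)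
    (hne : v ≠ D.apex σ) : D.mv σ τ x v = x v + τ / m := by simp [mv, hv, hne]

theorem mv_of_not_mem {σ : Finset V} (hσ : σ ∈ D.C) (τ : ℝ) (x : V → ℝ) {v : V} (hv : v ∉ σ) :
    D.mv σ τ x v = x v := by
  have : v ≠ D.apex σ := fun h => hv (h ▸ D.apex_mem σ hσ)
  simp [mv, hv, this]

include D in
theorem mR_pos : (0 : ℝ) < m := by
  have := D.mpos
  positivity

open scoped Classical in
theorem sum_mv {σ : Finset V} (hσ : σ ∈ D.C) (τ : ℝ) (x : V → ℝ) :
    ∑ v ∈ σ, D.mv σ τ x v = ∑ v ∈ σ, x v := by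
  rw [← Finset.add_sum_erase σ _ (D.apex_mem σ hσ), ← Finset.add_sum_erase σ x (D.apex_mem σ hσ)]
  have h1 : ∑ v ∈ σ.erase (D.apex σ), D.mv σ τ x v
      = ∑ v ∈ σ.erase (D.apex σ), (x v + τ / m) := by
    apply Finset.sum_congr rfl
    intro v hv
    exact D.mv_of_mem τ x (Finset.mem_of_mem_erase hv) (Finset.ne_of_mem_erase hv)
  rw [h1, Finset.sum_add_distrib, Finset.sum_const,
    Finset.card_erase_of_mem (D.apex_mem σ hσ), D.card σ hσ, mv_apex]
  have hm := D.mR_pos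
  simp only [Nat.add_sub_cancel, nsmul_eq_mul]
  field_simp
  ring

theorem mv_mem_simplex {σ : Finset V} (hσ : σ ∈ D.C) {τ : ℝ} {x : V → ℝ} (hx : x ∈ simplex σ)
    (h1 : τ ≤ x (D.apex σ)) (h2 : ∀ v ∈ σ, v ≠ D.apex σ → 0 ≤ x v + τ / m) :
    D.mv σ τ x ∈ simplex σ := by
  refine ⟨fun v => ?_, fun v hv => ?_, ?_⟩
  · by_cases hv : v ∈ σ
    · by_cases hne : v = D.apex σ
      · rw [hne, mv_apex]; linarith
      · rw [D.mv_of_mem τ x hv hne]; exact h2 v hv hne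
    · rw [D.mv_of_not_mem hσ τ x hv]; exact hx.1 v
  · rw [D.mv_of_not_mem hσ τ x hv]; exact hx.2.1 v hv
  · rw [D.sum_mv hσ]; exact hx.2.2

theorem mv_mem_simplex' {σ : Finset V} (hσ : σ ∈ D.C) {τ : ℝ} {x : V → ℝ} (hx : x ∈ simplex σ)
    (h0 : 0 ≤ τ) (h1 : τ ≤ x (D.apex σ)) : D.mv σ τ x ∈ simplex σ := by
  refine D.mv_mem_simplex hσ hx h1 (fun v hv hne => ?_)
  have := hx.1 v
  have := D.mR_pos
  positivity

/-! ### the minimum -/

open scoped Classical in
/-- the minimum of the coordinates of `x` over the vertices of `σ` other than the apex -/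
noncomputable def mu (σ : Finset V) (x : V → ℝ) : ℝ := ⨅ v : {v // v ∈ σ ∧ v ≠ D.apex σ}, x v

theorem nonempty_base {σ : Finset V} (hσ : σ ∈ D.C) :
    Nonempty {v // v ∈ σ ∧ v ≠ D.apex σ} := by
  classical
  have : 0 < (σ.erase (D.apex σ)).card := by
    rw [Finset.card_erase_of_mem (D.apex_mem σ hσ), D.card σ hσ]
    have := D.mpos
    omega
  obtain ⟨v, hv⟩ := Finset.card_pos.mp this
  exact ⟨v, Finset.mem_of_mem_erase hv, Finset.ne_of_mem_erase hv⟩

instance finite_base (σ : Finset V) : Finite {v // v ∈ σ ∧ v ≠ D.apex σ} := by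
  apply Finite.of_injective (fun v => (⟨v.1, v.2.1⟩ : {v // v ∈ σ}))
  intro a b h
  simp only [Subtype.mk.injEq] at h
  exact Subtype.ext h

theorem mu_le {σ : Finset V} (x : V → ℝ) {v : V} (hv : v ∈ σ)
    (hne : v ≠ D.apex σ) : D.mu σ x ≤ x v :=
  ciInf_le (Finite.bddBelow_range _) (⟨v, hv, hne⟩ : {v // v ∈ σ ∧ v ≠ D.apex σ})

theorem exists_eq_mu {σ : Finset V} (hσ : σ ∈ D.C) (x : V → ℝ) :
    ∃ v ∈ σ, v ≠ D.apex σ ∧ x v = D.mu σ x := by
  have := D.nonempty_base hσ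
  obtain ⟨v, hv⟩ := exists_eq_ciInf_of_finite (f := fun v : {v // v ∈ σ ∧ v ≠ D.apex σ} => x v)
  exact ⟨v.1, v.2.1, v.2.2, hv⟩

theorem mu_eq_of {σ : Finset V} (hσ : σ ∈ D.C) {x : V → ℝ} {v : V} (hv : v ∈ σ)
    (hne : v ≠ D.apex σ) (h : ∀ w ∈ σ, w ≠ D.apex σ → x v ≤ x w) : D.mu σ x = x v := by
  obtain ⟨w, hw, hwne, hxw⟩ := D.exists_eq_mu hσ x
  apply le_antisymm (D.mu_le x hv hne)
  rw [← hxw]; exact h w hw hwne

theorem mu_nonneg {σ : Finset V} (hσ : σ ∈ D.C) {x : V → ℝ} (hx : x ∈ simplex σ) :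
    0 ≤ D.mu σ x := by
  obtain ⟨w, hw, hwne, hxw⟩ := D.exists_eq_mu hσ x
  rw [← hxw]; exact hx.1 w

theorem mu_eq_zero {σ : Finset V} (hσ : σ ∈ D.C) {x : V → ℝ} (hx : x ∈ simplex σ) {v : V}
    (hv : v ∈ σ) (hne : v ≠ D.apex σ) (h0 : x v = 0) : D.mu σ x = 0 :=
  le_antisymm (h0 ▸ D.mu_le x hv hne) (D.mu_nonneg hσ hx)

theorem mu_mv {σ : Finset V} (hσ : σ ∈ D.C) (τ : ℝ) (x : V → ℝ) :
    D.mu σ (D.mv σ τ x) = D.mu σ x + τ / m := by
  obtain ⟨v, hv, hne, hxv⟩ := D.exists_eq_mu hσ x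
  rw [D.mu_eq_of hσ hv hne, D.mv_of_mem τ x hv hne, hxv]
  intro w hw hwne
  rw [D.mv_of_mem τ x hv hne, D.mv_of_mem τ x hw hwne, hxv]
  have := D.mu_le x hw hwne
  linarith

/-- the entry point of the flow line through `x` in the cell `σ` -/
noncomputable def bk (σ : Finset V) (x : V → ℝ) : V → ℝ := D.mv σ (-(m * D.mu σ x)) x

theorem bk_mv {σ : Finset V} (hσ : σ ∈ D.C) (τ : ℝ) (x : V → ℝ) :
    D.bk σ (D.mv σ τ x) = D.bk σ x := by
  unfold bk
  rw [D.mv_mv, D.mu_mv hσ]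
  congr 1
  have := D.mR_pos
  field_simp
  ring

theorem mv_bk (σ : Finset V) (x : V → ℝ) : D.mv σ (m * D.mu σ x) (D.bk σ x) = x := by
  unfold bk
  rw [D.mv_mv]
  simp [mv_zero]

theorem bk_of_mem {σ : Finset V} (x : V → ℝ) {v : V} (hv : v ∈ σ)
    (hne : v ≠ D.apex σ) : D.bk σ x v = x v - D.mu σ x := by
  unfold bk
  rw [D.mv_of_mem _ x hv hne]
  have := D.mR_pos
  field_simp
  ring

theorem bk_apex {σ : Finset V} (x : V → ℝ) :
    D.bk σ x (D.apex σ) = x (D.apex σ) + m * D.mu σ x := by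
  unfold bk
  rw [D.mv_apex]
  ring

theorem bk_mem_simplex {σ : Finset V} (hσ : σ ∈ D.C) {x : V → ℝ} (hx : x ∈ simplex σ) :
    D.bk σ x ∈ simplex σ := by
  apply D.mv_mem_simplex hσ hx
  · have := D.mu_nonneg hσ hx
    have h2 := D.mR_pos
    have := hx.1 (D.apex σ)
    nlinarith [mul_nonneg h2.le (D.mu_nonneg hσ hx)]
  · intro v hv hne
    have := D.mu_le x hv hne
    have h2 := D.mR_pos
    have : x v + -(m * D.mu σ x) / m = x v - D.mu σ x := by field_simp; ring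
    rw [this]; linarith

theorem mu_bk {σ : Finset V} (hσ : σ ∈ D.C) (x : V → ℝ) : D.mu σ (D.bk σ x) = 0 := by
  unfold bk
  rw [D.mu_mv hσ]
  have h2 := D.mR_pos
  field_simp
  ring

theorem bk_eq_self {σ : Finset V} {x : V → ℝ} (h : D.mu σ x = 0) : D.bk σ x = x := by
  unfold bk
  rw [h]; simp [mv_zero]

theorem bk_bk {σ : Finset V} (hσ : σ ∈ D.C) (x : V → ℝ) : D.bk σ (D.bk σ x) = D.bk σ x :=
  D.bk_eq_self (D.mu_bk hσ x)

/-! ### recursion -/

open scoped Classical in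
/-- combine the data of a backward flow line with a further segment of length `s` in `σ` -/
noncomputable def comb (r : (V → ℝ) × ℝ × Option (Finset V)) (s : ℝ) (σ : Finset V) :
    (V → ℝ) × ℝ × Option (Finset V) :=
  (r.1, r.2.1 + s, r.2.2 <|> if 0 < s then some σ else none)

theorem comb_zero (r : (V → ℝ) × ℝ × Option (Finset V)) (σ : Finset V) :
    comb r 0 σ = r := by
  obtain ⟨a, b, c⟩ := r
  simp [comb]

open scoped Classical in
/-- The backward flow of a point `x` of the cell `σ`: endpoint, elapsed time, and the first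
cell in which the flow line has positive length. -/
noncomputable def Ps (σ : Finset V) (x : V → ℝ) : (V → ℝ) × ℝ × Option (Finset V) :=
  if h : ∃ κ, κ ∈ D.C ∧ D.par κ = σ ∧ D.bk σ x ∈ simplex κ then
    comb (Ps (Classical.choose h) (D.bk σ x)) (m * D.mu σ x) σ
  else
    comb (D.bk σ x, 0, none) (m * D.mu σ x) σ
termination_by D.rank σ
decreasing_by
  have h' := Classical.choose_spec h
  have h2 := D.rank_lt _ h'.1
  rw [h'.2.1] at h2
  exact h2

end FlowData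

end Pool.Agent.TH632
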