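import Pool.Agent.TH632.Flow

/-!
# Properties of the backward flow
-/

open Set

namespace Pool.Agent.TH632

universe u

namespace FlowData

variable {V : Type u} {m : ℕ} (D : FlowData V m)

/-- `x` has two vanishing coordinates among the vertices of `σ` -/
def TwoZero (σ : Finset V) (x : V → ℝ) : Prop := ∃ v ∈ σ, ∃ w ∈ σ, v ≠ w ∧ x v = 0 ∧ x w = 0

theorem apex_not_mem_of_child {κ σ : Finset V} (hκ : κ ∈ D.C) (h : D.par κ = σ) :
    D.apex κ ∉ σ := h ▸ D.apex_not_mem_par hκ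

/-- if `x` lies in `σ` and in the child `κ`, and is `TwoZero` in `σ`, then it is `TwoZero`
in `κ` -/
theorem twoZero_child {κ σ : Finset V} (hκ : κ ∈ D.C) (h : D.par κ = σ) {x : V → ℝ}
    (hx : x ∈ simplex σ) (h2 : TwoZero σ x) : TwoZero κ x := by
  obtain ⟨v, hv, w, hw, hne, hxv, hxw⟩ := h2
  obtain ⟨v', hv', hv'κ, hall⟩ := D.exists_missing hκ
  rw [h] at hv' hall
  have ha : D.apex κ ∉ σ := D.apex_not_mem_of_child hκ h
  have hxa : x (D.apex κ) = 0 := hx.2.1 _ ha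
  by_cases hvv : v = v'
  · have hwκ : w ∈ κ := hall w hw (fun e => hne (hvv.trans e.symm))
    exact ⟨D.apex κ, D.apex_mem κ hκ, w, hwκ, fun e => ha (e ▸ hw), hxa, hxw⟩
  · have hvκ : v ∈ κ := hall v hv hvv
    exact ⟨D.apex κ, D.apex_mem κ hκ, v, hvκ, fun e => ha (e ▸ hv), hxa, hxv⟩

theorem mu_eq_zero_of_twoZero {σ : Finset V} (hσ : σ ∈ D.C) {x : V → ℝ} (hx : x ∈ simplex σ)
    (h2 : TwoZero σ x) : D.mu σ x = 0 := by
  obtain ⟨v, hv, w, hw, hne, hxv, hxw⟩ := h2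
  by_cases h : v = D.apex σ
  · exact D.mu_eq_zero hσ hx hw (fun e => hne (h.trans e.symm)) hxw
  · exact D.mu_eq_zero hσ hx hv h hxv

theorem Ps_of_twoZero : ∀ (n : ℕ) {σ : Finset V} (_ : D.rank σ = n) (_ : σ ∈ D.C)
    {x : V → ℝ} (_ : x ∈ simplex σ) (_ : TwoZero σ x), D.Ps σ x = (x, 0, none) := by
  intro n
  induction n using Nat.strong_induction_on with
  | _ n ih =>
    intro σ hn hσ x hx h2
    have hmu := D.mu_eq_zero_of_twoZero hσ hx h2
    rw [Ps]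
    have hb : D.bk σ x = x := D.bk_eq_self hmu
    rw [hmu, mul_zero, hb]
    split_ifs with h
    · have h' := Classical.choose_spec h
      have hr := D.rank_lt _ h'.1
      rw [h'.2.1, hn] at hr
      rw [ih _ hr rfl h'.1 h'.2.2 (D.twoZero_child h'.1 h'.2.1 hx h2), comb_zero]
    · rw [comb_zero]

theorem Ps_twoZero {σ : Finset V} (hσ : σ ∈ D.C) {x : V → ℝ} (hx : x ∈ simplex σ)
    (h2 : TwoZero σ x) : D.Ps σ x = (x, 0, none) :=
  D.Ps_of_twoZero _ rfl hσ hx h2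

/-- the part of the recursion that only depends on the entry point -/
noncomputable def base (σ : Finset V) (y : V → ℝ) : (V → ℝ) × ℝ × Option (Finset V) :=
  open scoped Classical in
  if h : ∃ κ, κ ∈ D.C ∧ D.par κ = σ ∧ y ∈ simplex κ then D.Ps (Classical.choose h) y
  else (y, 0, none)

theorem Ps_eq_comb_base (σ : Finset V) (x : V → ℝ) :
    D.Ps σ x = comb (D.base σ (D.bk σ x)) (m * D.mu σ x) σ := by
  rw [Ps, base]
  split_ifs with h
  · rfl
  · rfl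

/-- a point of `σ` vanishing at `v ∉ κ` lies in the child `κ` -/
theorem mem_child {κ σ : Finset V} (hκ : κ ∈ D.C) (h : D.par κ = σ) {y : V → ℝ}
    (hy : y ∈ simplex σ) {v : V} (hv : v ∈ σ) (hvκ : v ∉ κ) (hyv : y v = 0) :
    y ∈ simplex κ := by
  classical
  have hz : ∀ w, w ∉ κ → y w = 0 := by
    intro w hw
    by_cases hwσ : w ∈ σ
    · have := D.missing_unique hκ (h ▸ hv) hvκ (h ▸ hwσ) hw
      rw [← this]; exact hyv
    · exact hy.2.1 w hwσ
  refine ⟨hy.1, hz, ?_⟩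
  rw [← hy.2.2]
  have e1 : ∑ w ∈ κ, y w = ∑ w ∈ κ ∪ σ, y w := by
    apply Finset.sum_subset Finset.subset_union_left
    intro w _ hw
    exact hz w hw
  have e2 : ∑ w ∈ σ, y w = ∑ w ∈ κ ∪ σ, y w := by
    apply Finset.sum_subset Finset.subset_union_right
    intro w _ hw
    exact hy.2.1 w hw
  rw [e1, e2]

theorem child_unique {κ κ' σ : Finset V} (hκ : κ ∈ D.C) (h : D.par κ = σ) (hκ' : κ' ∈ D.C)
    (h' : D.par κ' = σ) {v : V} (hv : v ∈ σ) (hvκ : v ∉ κ) (hvκ' : v ∉ κ') : κ = κ' := by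
  have hσ : σ ∈ D.C := h ▸ D.par_mem κ hκ
  apply D.two_uniq σ hσ v hv κ hκ κ' hκ'
  · rw [← h]; exact (D.par_ne hκ).symm
  · rw [← h']; exact (D.par_ne hκ').symm
  · intro w hw hne
    by_contra hc
    exact hne (D.missing_unique hκ (h ▸ hw) hc (h ▸ hv) hvκ)
  · intro w hw hne
    by_contra hc
    exact hne (D.missing_unique hκ' (h' ▸ hw) hc (h' ▸ hv) hvκ')

/-- evaluation of the base through a prescribed child -/
theorem base_child {κ σ : Finset V} (hκ : κ ∈ D.C) (h : D.par κ = σ) {y : V → ℝ}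
    (hy : y ∈ simplex σ) {v : V} (hv : v ∈ σ) (hvκ : v ∉ κ) (hyv : y v = 0) :
    D.base σ y = D.Ps κ y := by
  have hyκ := D.mem_child hκ h hy hv hvκ hyv
  have hex : ∃ κ, κ ∈ D.C ∧ D.par κ = σ ∧ y ∈ simplex κ := ⟨κ, hκ, h, hyκ⟩
  rw [base, dif_pos hex]
  have hs := Classical.choose_spec hex
  set κ' := Classical.choose hex with hκ'
  by_cases he : κ' = κ
  · rw [he]
  · obtain ⟨v', hv', hv'κ, _⟩ := D.exists_missing hs.1
    rw [hs.2.1] at hv'
    have hne : v ≠ v' := by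
      intro e
      subst e
      exact he (D.child_unique hs.1 hs.2.1 hκ h hv hv'κ hvκ)
    have h2 : TwoZero σ y := ⟨v, hv, v', hv', hne, hyv, hs.2.2.2.1 v' hv'κ⟩
    rw [D.Ps_twoZero hs.1 hs.2.2 (D.twoZero_child hs.1 hs.2.1 hy h2),
      D.Ps_twoZero hκ hyκ (D.twoZero_child hκ h hy h2)]

/-- evaluation of the base at a free facet -/
theorem base_free {σ : Finset V} {y : V → ℝ}
    (hy : y ∈ simplex σ) {v : V} (hv : v ∈ σ) (hyv : y v = 0)
    (hfree : ∀ κ ∈ D.C, D.par κ = σ → v ∈ κ) :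
    D.base σ y = (y, 0, none) := by
  rw [base]
  split_ifs with hex
  · have hs := Classical.choose_spec hex
    set κ' := Classical.choose hex with hκ'
    obtain ⟨v', hv', hv'κ, _⟩ := D.exists_missing hs.1
    rw [hs.2.1] at hv'
    have hne : v ≠ v' := by
      intro e
      subst e
      exact hv'κ (hfree _ hs.1 hs.2.1)
    have h2 : TwoZero σ y := ⟨v, hv, v', hv', hne, hyv, hs.2.2.2.1 v' hv'κ⟩
    rw [D.Ps_twoZero hs.1 hs.2.2 (D.twoZero_child hs.1 hs.2.1 hy h2)]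
  · rfl

theorem Ps_child {κ σ : Finset V} (hκ : κ ∈ D.C) (h : D.par κ = σ) {x : V → ℝ}
    (hx : x ∈ simplex σ) {v : V} (hv : v ∈ σ) (hvκ : v ∉ κ) (hxv : x v = D.mu σ x) :
    D.Ps σ x = comb (D.Ps κ (D.bk σ x)) (m * D.mu σ x) σ := by
  have hσ : σ ∈ D.C := h ▸ D.par_mem κ hκ
  have hne : v ≠ D.apex σ := h ▸ D.missing_ne_apex hκ (h ▸ hv) hvκ
  rw [D.Ps_eq_comb_base, D.base_child hκ h (D.bk_mem_simplex hσ hx) hv hvκ]
  rw [D.bk_of_mem x hv hne, hxv, sub_self]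

theorem Ps_free {σ : Finset V} (hσ : σ ∈ D.C) {x : V → ℝ}
    (hx : x ∈ simplex σ) {v : V} (hv : v ∈ σ) (hne : v ≠ D.apex σ)
    (hfree : ∀ κ ∈ D.C, D.par κ = σ → v ∈ κ) (hxv : x v = D.mu σ x) :
    D.Ps σ x = comb (D.bk σ x, 0, none) (m * D.mu σ x) σ := by
  rw [D.Ps_eq_comb_base, D.base_free (D.bk_mem_simplex hσ hx) hv _ hfree]
  rw [D.bk_of_mem x hv hne, hxv, sub_self]

/-- `Ps` restricted to the facet shared by a child and its parent -/
theorem Ps_par_eq {κ : Finset V} (hκ : κ ∈ D.C) {x : V → ℝ}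
    (hx : x ∈ simplex κ) (hx' : x ∈ simplex (D.par κ)) : D.Ps (D.par κ) x = D.Ps κ x := by
  obtain ⟨v, hv, hvκ, _⟩ := D.exists_missing hκ
  have hxv : x v = 0 := hx.2.1 v hvκ
  have hne := D.missing_ne_apex hκ hv hvκ
  have hmu : D.mu (D.par κ) x = 0 := D.mu_eq_zero (D.par_mem κ hκ) hx' hv hne hxv
  rw [D.Ps_child hκ rfl hx' hv hvκ (hxv.trans hmu.symm), hmu, mul_zero, comb_zero,
    D.bk_eq_self hmu]

theorem Ps_eq_of_free {σ : Finset V} (hσ : σ ∈ D.C) {x : V → ℝ}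
    (hx : x ∈ simplex σ) {v : V} (hv : v ∈ σ) (hne : v ≠ D.apex σ)
    (hfree : ∀ κ ∈ D.C, D.par κ = σ → v ∈ κ) (hxv : x v = 0) :
    D.Ps σ x = (x, 0, none) := by
  have hmu := D.mu_eq_zero hσ hx hv hne hxv
  rw [D.Ps_free hσ hx hv hne hfree (hxv.trans hmu.symm), hmu, mul_zero, comb_zero,
    D.bk_eq_self hmu]

open scoped Classical in
/-- compatibility on intersections -/
theorem Ps_compat {σ σ' : Finset V} (hσ : σ ∈ D.C) (hσ' : σ' ∈ D.C) {x : V → ℝ}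
    (hx : x ∈ simplex σ) (hx' : x ∈ simplex σ') : D.Ps σ x = D.Ps σ' x := by
  by_cases hss : σ = σ'
  · rw [hss]
  -- the support
  have key : ∀ {σ σ' : Finset V}, σ ∈ D.C → σ' ∈ D.C → x ∈ simplex σ → x ∈ simplex σ' →
      TwoZero σ x → TwoZero σ' x := by
    intro σ σ' hσ hσ' hx hx' h2
    have e1 : σ.filter (fun v => x v ≠ 0) = σ'.filter (fun v => x v ≠ 0) := by
      ext v
      simp only [Finset.mem_filter]
      constructor
      · rintro ⟨_, h⟩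
        refine ⟨?_, h⟩
        by_contra hc
        exact h (hx'.2.1 v hc)
      · rintro ⟨_, h⟩
        refine ⟨?_, h⟩
        by_contra hc
        exact h (hx.2.1 v hc)
    have c1 := Finset.card_filter_add_card_filter_not (s := σ) (fun v => x v ≠ 0)
    have c2 := Finset.card_filter_add_card_filter_not (s := σ') (fun v => x v ≠ 0)
    rw [D.card σ hσ] at c1
    rw [D.card σ' hσ', ← e1] at c2
    obtain ⟨v, hv, w, hw, hne, hxv, hxw⟩ := h2
    have hlt : 1 < (σ.filter (fun v => ¬ (x v ≠ 0))).card := by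
      rw [Finset.one_lt_card]
      exact ⟨v, by simp [hv, hxv], w, by simp [hw, hxw], hne⟩
    have hlt' : 1 < (σ'.filter (fun v => ¬ (x v ≠ 0))).card := by omega
    rw [Finset.one_lt_card] at hlt'
    obtain ⟨v, hv, w, hw, hne⟩ := hlt'
    simp only [Finset.mem_filter, not_not] at hv hw
    exact ⟨v, hv.1, w, hw.1, hne, hv.2, hw.2⟩
  by_cases h2 : TwoZero σ x
  · rw [D.Ps_twoZero hσ hx h2, D.Ps_twoZero hσ' hx' (key hσ hσ' hx hx' h2)]
  have h2' : ¬ TwoZero σ' x := fun h => h2 (key hσ' hσ hx' hx h)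
  -- the unique vertices
  have hex : ∀ {σ σ' : Finset V}, σ ∈ D.C → σ' ∈ D.C → σ ≠ σ' → x ∈ simplex σ' →
      ¬ TwoZero σ x → ∃ v ∈ σ, v ∉ σ' ∧ x v = 0 ∧ ∀ w ∈ σ, w ≠ v → w ∈ σ' := by
    intro σ σ' hσ hσ' hne hx' h2
    have : ¬ σ ⊆ σ' := fun h => hne
      (Finset.eq_of_subset_of_card_le h (by rw [D.card σ hσ, D.card σ' hσ']))
    rw [Finset.not_subset] at this
    obtain ⟨v, hv, hvσ'⟩ := this
    have hxv := hx'.2.1 v hvσ'
    refine ⟨v, hv, hvσ', hxv, fun w hw hne' => ?_⟩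
    by_contra hc
    exact h2 ⟨v, hv, w, hw, fun e => hne' e.symm, hxv, hx'.2.1 w hc⟩
  obtain ⟨v, hv, hvσ', hxv, hall⟩ := hex hσ hσ' hss hx' h2
  obtain ⟨v', hv', hv'σ, hxv', hall'⟩ := hex hσ' hσ (fun e => hss e.symm) hx h2'
  -- case analysis
  have caseA : ∀ {σ σ' : Finset V}, σ ∈ D.C → σ' ∈ D.C → σ ≠ σ' → x ∈ simplex σ →
      x ∈ simplex σ' → (∀ w ∈ σ, w ≠ D.apex σ → w ∈ σ') → D.Ps σ x = D.Ps σ' x := by
    intro σ σ' hσ hσ' hne hx hx' hall
    have e : D.par σ = σ' := D.two_uniq σ hσ (D.apex σ) (D.apex_mem σ hσ) _ (D.par_mem σ hσ) _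
      hσ' (D.par_ne hσ) (fun h => hne h.symm) (fun w hw h => D.par_sub σ hσ w hw h) hall
    subst e
    exact (D.Ps_par_eq hσ hx hx').symm
  by_cases hva : v = D.apex σ
  · exact caseA hσ hσ' hss hx hx' (fun w hw h => hall w hw (by rw [hva]; exact h))
  by_cases hva' : v' = D.apex σ'
  · exact (caseA hσ' hσ (fun e => hss e.symm) hx' hx
      (fun w hw h => hall' w hw (by rw [hva']; exact h))).symm
  have hfree : ∀ {σ σ' : Finset V} {v v' : V}, σ ∈ D.C → σ' ∈ D.C → σ ≠ σ' → v ∈ σ →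
      v ∉ σ' → v' ∈ σ' → v' ∉ σ →
      (∀ w ∈ σ, w ≠ v → w ∈ σ') → (∀ w ∈ σ', w ≠ v' → w ∈ σ) → v' ≠ D.apex σ' →
      ∀ κ ∈ D.C, D.par κ = σ → v ∈ κ := by
    intro σ σ' v v' hσ hσ' hne hv hvσ' hv' hv'σ hall hall' hva' κ hκ hp
    by_contra hc
    have e : κ = σ' := by
      apply D.two_uniq σ hσ v hv κ hκ σ' hσ'
      · rw [← hp]; exact (D.par_ne hκ).symm
      · exact fun h => hne h.symm
      · intro w hw hne
        by_contra hc'
        exact hne (D.missing_unique hκ (hp ▸ hw) hc' (hp ▸ hv) hc)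
      · exact hall
    subst e
    apply D.apex_not_mem_of_child hκ hp
    exact hall' _ (D.apex_mem κ hκ) (fun h => hva' h.symm)
  rw [D.Ps_eq_of_free hσ hx hv hva
      (hfree hσ hσ' hss hv hvσ' hv' hv'σ hall hall' hva') hxv,
    D.Ps_eq_of_free hσ' hx' hv' hva'
      (hfree hσ' hσ (fun e => hss e.symm) hv' hv'σ hv hvσ' hall' hall hva) hxv']

/-- the flow data of a point of the space -/
noncomputable def G (x : V → ℝ) : (V → ℝ) × ℝ × Option (Finset V) :=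
  open scoped Classical in
  if h : ∃ σ ∈ D.C, x ∈ simplex σ then D.Ps (Classical.choose h) x else (x, 0, none)

theorem G_eq {σ : Finset V} (hσ : σ ∈ D.C) {x : V → ℝ} (hx : x ∈ simplex σ) :
    D.G x = D.Ps σ x := by
  have hex : ∃ σ ∈ D.C, x ∈ simplex σ := ⟨σ, hσ, hx⟩
  rw [G, dif_pos hex]
  have hs := Classical.choose_spec hex
  exact D.Ps_compat hs.1 hσ hs.2 hx

end FlowData

end Pool.Agent.TH632
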