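import Pool.Agent.TH632.Flow2

/-!
# The forward flow
-/

open Set

namespace Pool.Agent.TH632

universe u

namespace FlowData

variable {V : Type u} {m : ℕ} (D : FlowData V m)

theorem orElse_eq_none_iff {α : Type*} (o : Option α) (s : ℝ) (a : α) :
    (o <|> (open scoped Classical in if 0 < s then some a else none)) = none ↔
      o = none ∧ ¬ 0 < s := by
  classical
  cases o with
  | none => simp
  | some b => simp

theorem comb_snd (r : (V → ℝ) × ℝ × Option (Finset V)) (s : ℝ) (σ : Finset V) :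
    (comb r s σ).2.1 = r.2.1 + s := rfl

theorem comb_fst (r : (V → ℝ) × ℝ × Option (Finset V)) (s : ℝ) (σ : Finset V) :
    (comb r s σ).1 = r.1 := rfl

theorem comb_none_iff (r : (V → ℝ) × ℝ × Option (Finset V)) (s : ℝ) (σ : Finset V) :
    (comb r s σ).2.2 = none ↔ r.2.2 = none ∧ ¬ 0 < s := orElse_eq_none_iff _ _ _

theorem comb_of_some {r : (V → ℝ) × ℝ × Option (Finset V)} {ρ : Finset V}
    (h : r.2.2 = some ρ) (s : ℝ) (σ : Finset V) : (comb r s σ).2.2 = some ρ := by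
  simp [comb, h]

theorem comb_of_none {r : (V → ℝ) × ℝ × Option (Finset V)}
    (h : r.2.2 = none) {s : ℝ} (hs : 0 < s) (σ : Finset V) : (comb r s σ).2.2 = some σ := by
  simp [comb, h, hs]

theorem Ps_facts_aux : ∀ (n : ℕ) {σ : Finset V} (_ : D.rank σ = n) (_ : σ ∈ D.C)
    {x : V → ℝ} (_ : x ∈ simplex σ), 0 ≤ (D.Ps σ x).2.1 ∧
      ((D.Ps σ x).2.2 = none ↔ (D.Ps σ x).2.1 = 0) ∧
      ((D.Ps σ x).2.1 = 0 → (D.Ps σ x).1 = x) ∧
      ∃ τ ∈ D.C, (D.Ps σ x).1 ∈ simplex τ ∧ D.Ps τ (D.Ps σ x).1 = ((D.Ps σ x).1, 0, none) := by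
  intro n
  induction n using Nat.strong_induction_on with
  | _ n ih =>
    intro σ hn hσ x hx
    have hmu := D.mu_nonneg hσ hx
    have hm := D.mR_pos
    have hs : 0 ≤ m * D.mu σ x := mul_nonneg hm.le hmu
    have hbk := D.bk_mem_simplex hσ hx
    rw [D.Ps_eq_comb_base]
    rw [comb_snd, comb_none_iff, comb_fst]
    by_cases hex : ∃ κ, κ ∈ D.C ∧ D.par κ = σ ∧ D.bk σ x ∈ simplex κ
    · have hb : D.base σ (D.bk σ x) = D.Ps (Classical.choose hex) (D.bk σ x) := by
        rw [base, dif_pos hex]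
      have h' := Classical.choose_spec hex
      have hr := D.rank_lt _ h'.1
      rw [h'.2.1, hn] at hr
      rw [hb]
      obtain ⟨i1, i2, i3, i4⟩ := ih _ hr rfl h'.1 h'.2.2
      refine ⟨by linarith, ?_, ?_, i4⟩
      · rw [i2]
        constructor
        · rintro ⟨h1, h2⟩
          have : m * D.mu σ x = 0 := le_antisymm (not_lt.mp h2) hs
          linarith
        · intro h
          refine ⟨by linarith, ?_⟩
          intro hc
          linarith
      · intro h
        have e1 : m * D.mu σ x = 0 := by linarith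
        have e2 : D.mu σ x = 0 := by
          rcases mul_eq_zero.mp e1 with h | h
          · linarith
          · exact h
        rw [i3 (by linarith), D.bk_eq_self e2]
    · have hb : D.base σ (D.bk σ x) = (D.bk σ x, 0, none) := by
        rw [base, dif_neg hex]
      rw [hb]
      refine ⟨by simpa using hs, ?_, ?_, σ, hσ, hbk, ?_⟩
      · simp only [true_and, zero_add, not_lt]
        exact ⟨fun h => le_antisymm h hs, fun h => h.le⟩
      · simp only [zero_add]
        intro e1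
        have e2 : D.mu σ x = 0 := by
          rcases mul_eq_zero.mp e1 with h | h
          · linarith
          · exact h
        exact D.bk_eq_self e2
      · rw [D.Ps_eq_comb_base, D.bk_bk hσ, hb, D.mu_bk hσ, mul_zero, comb_zero]

theorem G_nonneg {x : V → ℝ} (hx : x ∈ D.space) : 0 ≤ (D.G x).2.1 := by
  obtain ⟨σ, hσ, hx⟩ := hx
  rw [D.G_eq hσ hx]
  exact (D.Ps_facts_aux _ rfl hσ hx).1

theorem G_none_iff {x : V → ℝ} (hx : x ∈ D.space) : (D.G x).2.2 = none ↔ (D.G x).2.1 = 0 := by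
  obtain ⟨σ, hσ, hx⟩ := hx
  rw [D.G_eq hσ hx]
  exact (D.Ps_facts_aux _ rfl hσ hx).2.1

theorem G_of_time_zero {x : V → ℝ} (hx : x ∈ D.space) (h : (D.G x).2.1 = 0) :
    D.G x = (x, 0, none) := by
  have hx' := hx
  obtain ⟨σ, hσ, hx⟩ := hx
  have h2 := (D.G_none_iff hx').mpr h
  rw [D.G_eq hσ hx] at h h2 ⊢
  have := (D.Ps_facts_aux _ rfl hσ hx).2.2.1 h
  ext1
  · exact this
  · ext1
    · exact h
    · exact h2

theorem G_fst_mem {x : V → ℝ} (hx : x ∈ D.space) : (D.G x).1 ∈ D.space := by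
  obtain ⟨σ, hσ, hx⟩ := hx
  rw [D.G_eq hσ hx]
  obtain ⟨τ, hτ, h, _⟩ := (D.Ps_facts_aux _ rfl hσ hx).2.2.2
  exact ⟨τ, hτ, h⟩

theorem G_G {x : V → ℝ} (hx : x ∈ D.space) : D.G (D.G x).1 = ((D.G x).1, 0, none) := by
  obtain ⟨σ, hσ, hx⟩ := hx
  rw [D.G_eq hσ hx]
  obtain ⟨τ, hτ, h, h'⟩ := (D.Ps_facts_aux _ rfl hσ hx).2.2.2
  rw [D.G_eq hτ h]
  exact h'

/-! ### moving forward -/

theorem Ps_mv {σ : Finset V} (hσ : σ ∈ D.C) (x : V → ℝ) (τ : ℝ) :
    D.Ps σ (D.mv σ τ x) = comb (D.base σ (D.bk σ x)) (m * D.mu σ x + τ) σ := by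
  rw [D.Ps_eq_comb_base, D.bk_mv hσ, D.mu_mv hσ]
  congr 1
  have := D.mR_pos
  field_simp

open scoped Classical in
/-- transfer of simplices along equal supports -/
theorem mem_simplex_of_support {σ τ : Finset V} {x : V → ℝ} (hx : x ∈ simplex σ)
    (h : ∀ v ∈ σ, v ∉ τ → x v = 0) : x ∈ simplex τ := by
  have hz : ∀ v, v ∉ τ → x v = 0 := by
    intro v hv
    by_cases hvσ : v ∈ σ
    · exact h v hvσ hv
    · exact hx.2.1 v hvσ
  refine ⟨hx.1, hz, ?_⟩
  rw [← hx.2.2]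
  have e1 : ∑ w ∈ τ, x w = ∑ w ∈ τ ∪ σ, x w := by
    apply Finset.sum_subset Finset.subset_union_left
    intro w _ hw
    exact hz w hw
  have e2 : ∑ w ∈ σ, x w = ∑ w ∈ τ ∪ σ, x w := by
    apply Finset.sum_subset Finset.subset_union_right
    intro w _ hw
    exact hx.2.1 w hw
  rw [e1, e2]

theorem mem_par {σ : Finset V} (hσ : σ ∈ D.C) {x : V → ℝ} (hx : x ∈ simplex σ)
    (h : x (D.apex σ) = 0) : x ∈ simplex (D.par σ) := by
  apply mem_simplex_of_support hx
  intro v hv hv'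
  by_cases he : v = D.apex σ
  · rw [he]; exact h
  · exact absurd (D.par_sub σ hσ v hv he) hv'

/-- one step of the forward flow: move inside `σ` until time or the cell is used up -/
noncomputable def step (σ : Finset V) (q : (V → ℝ) × ℝ) : (V → ℝ) × ℝ :=
  (D.mv σ (min q.2 (q.1 (D.apex σ))) q.1, q.2 - min q.2 (q.1 (D.apex σ)))

/-- iterated forward flow through `σ, par σ, par (par σ), …` -/
noncomputable def Fn : ℕ → Finset V → (V → ℝ) × ℝ → (V → ℝ) × ℝ
  | 0, _, q => q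
  | k + 1, σ, q => Fn k (D.par σ) (D.step σ q)

/-- valid states for the forward flow at the cell `σ` -/
def Inv (σ : Finset V) (q : (V → ℝ) × ℝ) : Prop :=
  0 ≤ q.2 ∧ q.1 ∈ D.space ∧ (0 < q.2 → q.1 ∈ simplex σ)

theorem space_nonneg {x : V → ℝ} (hx : x ∈ D.space) (v : V) : 0 ≤ x v := by
  obtain ⟨σ, _, hx⟩ := hx
  exact hx.1 v

theorem step_of_zero {σ : Finset V} {q : (V → ℝ) × ℝ} (hq : q.1 ∈ D.space) (h : q.2 = 0) :
    D.step σ q = q := by
  have h0 := D.space_nonneg hq (D.apex σ)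
  unfold step
  rw [h, min_eq_left h0, D.mv_zero]
  ext1
  · rfl
  · simp [h]

theorem step_snd_nonneg {σ : Finset V} {q : (V → ℝ) × ℝ} : 0 ≤ (D.step σ q).2 := by
  unfold step
  simp only
  have := min_le_left q.2 (q.1 (D.apex σ))
  linarith

theorem step_snd_le {σ : Finset V} {q : (V → ℝ) × ℝ} (h : D.Inv σ q) :
    (D.step σ q).2 ≤ q.2 := by
  unfold step
  simp only
  have : 0 ≤ min q.2 (q.1 (D.apex σ)) := le_min h.1 (D.space_nonneg h.2.1 _)
  linarith

theorem step_inv {σ : Finset V} (hσ : σ ∈ D.C) {q : (V → ℝ) × ℝ} (h : D.Inv σ q) :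
    D.Inv (D.par σ) (D.step σ q) := by
  rcases eq_or_lt_of_le h.1 with h0 | h0
  · rw [D.step_of_zero h.2.1 h0.symm]
    refine ⟨h.1, h.2.1, fun hc => ?_⟩
    rw [← h0] at hc
    exact absurd hc (lt_irrefl _)
  · have hp := h.2.2 h0
    have ha : 0 ≤ q.1 (D.apex σ) := hp.1 _
    have hmin0 : 0 ≤ min q.2 (q.1 (D.apex σ)) := le_min h.1 ha
    have hs : (D.step σ q).1 ∈ simplex σ :=
      D.mv_mem_simplex' hσ hp hmin0 (min_le_right _ _)
    refine ⟨D.step_snd_nonneg, ⟨σ, hσ, hs⟩, fun hpos => ?_⟩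
    apply D.mem_par hσ hs
    unfold step
    simp only
    rw [D.mv_apex]
    have hpos' : 0 < q.2 - min q.2 (q.1 (D.apex σ)) := hpos
    have : min q.2 (q.1 (D.apex σ)) < q.2 := by linarith
    rcases min_choice q.2 (q.1 (D.apex σ)) with h1 | h1
    · rw [h1] at this; exact absurd this (lt_irrefl _)
    · rw [h1]; ring

theorem Fn_zero (σ : Finset V) (q : (V → ℝ) × ℝ) : D.Fn 0 σ q = q := rfl

theorem Fn_succ (k : ℕ) (σ : Finset V) (q : (V → ℝ) × ℝ) :
    D.Fn (k + 1) σ q = D.Fn k (D.par σ) (D.step σ q) := rfl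

theorem iter_par_mem {σ : Finset V} (hσ : σ ∈ D.C) (k : ℕ) : D.par^[k] σ ∈ D.C := by
  induction k generalizing σ with
  | zero => exact hσ
  | succ k ih => rw [Function.iterate_succ_apply]; exact ih (D.par_mem σ hσ)

theorem Fn_inv (k : ℕ) {σ : Finset V} (hσ : σ ∈ D.C) {q : (V → ℝ) × ℝ} (h : D.Inv σ q) :
    D.Inv (D.par^[k] σ) (D.Fn k σ q) := by
  induction k generalizing σ q with
  | zero => exact h
  | succ k ih =>
    rw [Function.iterate_succ_apply, Fn_succ]
    exact ih (D.par_mem σ hσ) (D.step_inv hσ h)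

theorem Fn_add (k l : ℕ) (σ : Finset V) (q : (V → ℝ) × ℝ) :
    D.Fn (k + l) σ q = D.Fn l (D.par^[k] σ) (D.Fn k σ q) := by
  induction k generalizing σ q with
  | zero => simp [Fn_zero]
  | succ k ih =>
    rw [show k + 1 + l = (k + l) + 1 by ring, Fn_succ, ih, Fn_succ, Function.iterate_succ_apply]

theorem Fn_of_zero (k : ℕ) (σ : Finset V) {q : (V → ℝ) × ℝ} (hq : q.1 ∈ D.space)
    (h : q.2 = 0) : D.Fn k σ q = q := by
  induction k generalizing σ with
  | zero => rfl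
  | succ k ih => rw [Fn_succ, D.step_of_zero hq h, ih]

theorem Fn_stable {k : ℕ} {σ : Finset V} (hσ : σ ∈ D.C) {q : (V → ℝ) × ℝ} (hq : D.Inv σ q)
    (h : (D.Fn k σ q).2 = 0) (l : ℕ) : D.Fn (k + l) σ q = D.Fn k σ q := by
  rw [D.Fn_add]
  exact D.Fn_of_zero l _ (D.Fn_inv k hσ hq).2.1 h

theorem Fn_snd_le (k : ℕ) {σ : Finset V} (hσ : σ ∈ D.C) {q : (V → ℝ) × ℝ} (h : D.Inv σ q) :
    (D.Fn k σ q).2 ≤ q.2 := by
  induction k generalizing σ q with
  | zero => exact le_rfl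
  | succ k ih =>
    rw [Fn_succ]
    exact (ih (D.par_mem σ hσ) (D.step_inv hσ h)).trans (D.step_snd_le h)

/-- how the data changes along one step -/
theorem G_step {σ : Finset V} (hσ : σ ∈ D.C) {q : (V → ℝ) × ℝ} (h : D.Inv σ q) :
    (D.G (D.step σ q).1).1 = (D.G q.1).1 ∧
    (D.G (D.step σ q).1).2.1 + (D.step σ q).2 = (D.G q.1).2.1 + q.2 ∧
    (∀ ρ, (D.G q.1).2.2 = some ρ → (D.G (D.step σ q).1).2.2 = some ρ) ∧
    ((D.G q.1).2.2 = none → 0 < min q.2 (q.1 (D.apex σ)) →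
      (D.G (D.step σ q).1).2.2 = some σ) := by
  rcases eq_or_lt_of_le h.1 with h0 | h0
  · rw [D.step_of_zero h.2.1 h0.symm]
    refine ⟨rfl, rfl, fun ρ h => h, fun _ hc => ?_⟩
    have := min_le_left q.2 (q.1 (D.apex σ))
    rw [← h0] at this hc
    exact absurd (lt_of_lt_of_le hc this) (lt_irrefl _)
  · have hp := h.2.2 h0
    have ha : 0 ≤ q.1 (D.apex σ) := hp.1 _
    have hmin0 : 0 ≤ min q.2 (q.1 (D.apex σ)) := le_min h.1 ha
    have hs : (D.step σ q).1 ∈ simplex σ :=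
      D.mv_mem_simplex' hσ hp hmin0 (min_le_right _ _)
    have hmu := D.mu_nonneg hσ hp
    have hm := D.mR_pos
    have hs0 : 0 ≤ m * D.mu σ q.1 := mul_nonneg hm.le hmu
    rw [D.G_eq hσ hs, D.G_eq hσ hp]
    have e1 : D.Ps σ (D.step σ q).1
        = comb (D.base σ (D.bk σ q.1)) (m * D.mu σ q.1 + min q.2 (q.1 (D.apex σ))) σ :=
      D.Ps_mv hσ q.1 _
    rw [e1, D.Ps_eq_comb_base σ q.1]
    refine ⟨rfl, ?_, ?_, ?_⟩
    · rw [comb_snd, comb_snd]
      unfold step
      simp only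
      ring
    · intro ρ hρ
      cases hb : (D.base σ (D.bk σ q.1)).2.2 with
      | some ρ' =>
        rw [comb_of_some hb] at hρ ⊢
        exact hρ
      | none =>
        have hpos : 0 < m * D.mu σ q.1 := by
          by_contra hc
          have := (comb_none_iff (D.base σ (D.bk σ q.1)) (m * D.mu σ q.1) σ).mpr ⟨hb, hc⟩
          rw [this] at hρ
          exact absurd hρ (by simp)
        rw [comb_of_none hb hpos] at hρ
        rw [comb_of_none hb (by linarith)]
        exact hρ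
    · intro hn hpos
      rw [comb_none_iff] at hn
      rw [comb_of_none hn.1 (by linarith)]

theorem G_Fn (k : ℕ) {σ : Finset V} (hσ : σ ∈ D.C) {q : (V → ℝ) × ℝ} (h : D.Inv σ q) :
    (D.G (D.Fn k σ q).1).1 = (D.G q.1).1 ∧
    (D.G (D.Fn k σ q).1).2.1 + (D.Fn k σ q).2 = (D.G q.1).2.1 + q.2 ∧
    (∀ ρ, (D.G q.1).2.2 = some ρ → (D.G (D.Fn k σ q).1).2.2 = some ρ) := by
  induction k generalizing σ q with
  | zero => exact ⟨rfl, rfl, fun ρ h => h⟩
  | succ k ih =>
    rw [Fn_succ]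
    obtain ⟨i1, i2, i3⟩ := ih (D.par_mem σ hσ) (D.step_inv hσ h)
    obtain ⟨g1, g2, g3, _⟩ := D.G_step hσ h
    exact ⟨i1.trans g1, i2.trans g2, fun ρ hρ => i3 ρ (g3 ρ hρ)⟩

/-- the first cell with positive length, for flow lines starting at time zero -/
theorem G_Fn_top (k : ℕ) {σ : Finset V} (hσ : σ ∈ D.C) {q : (V → ℝ) × ℝ} (h : D.Inv σ q)
    (hG : (D.G q.1).2.1 = 0) (hpos : 0 < q.2) (hend : (D.Fn k σ q).2 = 0) :
    ∃ j, j < k ∧ (D.G (D.Fn k σ q).1).2.2 = some (D.par^[j] σ) ∧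
      0 < q.1 (D.apex (D.par^[j] σ)) ∧ q.1 ∈ simplex (D.par^[j] σ) ∧
      (∀ i < j, q.1 (D.apex (D.par^[i] σ)) = 0) ∧
      (∀ i ≤ j, q.1 ∈ simplex (D.par^[i] σ)) ∧
      D.Fn j σ q = q := by
  induction k generalizing σ q with
  | zero => rw [Fn_zero] at hend; rw [hend] at hpos; exact absurd hpos (lt_irrefl _)
  | succ k ih =>
    have hq := h.2.2 hpos
    have ha : 0 ≤ q.1 (D.apex σ) := hq.1 _
    rcases eq_or_lt_of_le ha with ha0 | ha0
    · -- no move
      have hst : D.step σ q = q := by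
        unfold step
        rw [← ha0, min_eq_right h.1, D.mv_zero]
        ext1
        · rfl
        · simp
      have hinv := D.step_inv hσ h
      rw [Fn_succ, hst] at hend ⊢
      rw [hst] at hinv
      obtain ⟨j, hjk, j1, j2, j3, j4, j5, j6⟩ := ih (D.par_mem σ hσ) hinv hG hpos hend
      refine ⟨j + 1, by omega, by rw [Function.iterate_succ_apply]; exact j1,
        by rw [Function.iterate_succ_apply]; exact j2,
        by rw [Function.iterate_succ_apply]; exact j3, ?_, ?_, ?_⟩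
      · intro i hi
        cases i with
        | zero => exact ha0.symm
        | succ i =>
          rw [Function.iterate_succ_apply]
          exact j4 i (by omega)
      · intro i hi
        cases i with
        | zero => exact hq
        | succ i =>
          rw [Function.iterate_succ_apply]
          exact j5 i (by omega)
      · rw [Fn_succ, hst]; exact j6
    · have hn : (D.G q.1).2.2 = none := (D.G_none_iff h.2.1).mpr hG
      obtain ⟨_, _, _, g4⟩ := D.G_step hσ h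
      have := g4 hn (lt_min hpos ha0)
      obtain ⟨_, _, i3⟩ := D.G_Fn k (D.par_mem σ hσ) (D.step_inv hσ h)
      refine ⟨0, Nat.succ_pos k, i3 σ this, ha0, hq, by intro i hi; omega, ?_, rfl⟩
      intro i hi
      have : i = 0 := by omega
      subst this
      exact hq

/-! ### termination of the forward flow -/

theorem rank_iter_lt {σ : Finset V} (hσ : σ ∈ D.C) {i j : ℕ} (hij : i < j) :
    D.rank (D.par^[i] σ) < D.rank (D.par^[j] σ) := by
  obtain ⟨d, rfl⟩ := Nat.exists_eq_add_of_lt hij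
  induction d with
  | zero =>
    rw [Function.iterate_succ_apply']
    exact D.rank_lt _ (D.iter_par_mem hσ _)
  | succ d ih =>
    refine (ih (by omega)).trans ?_
    have : D.par^[i + (d + 1) + 1] σ = D.par (D.par^[i + d + 1] σ) :=
      Function.iterate_succ_apply' D.par (i + d + 1) σ
    rw [this]
    exact D.rank_lt _ (D.iter_par_mem hσ _)

theorem iter_par_injective {σ : Finset V} (hσ : σ ∈ D.C) :
    Function.Injective (fun k : ℕ => D.par^[k] σ) := by
  intro i j hij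
  simp only at hij
  rcases lt_trichotomy i j with h | h | h
  · have := D.rank_iter_lt hσ h; rw [hij] at this; exact absurd this (lt_irrefl _)
  · exact h
  · have := D.rank_iter_lt hσ h; rw [hij] at this; exact absurd this (lt_irrefl _)

theorem exists_leave {σ : Finset V} (hσ : σ ∈ D.C) :
    ∃ K : ℕ, ∀ v ∈ σ, v ∉ D.par^[K] σ := by
  classical
  have hfin : ∀ v, {k : ℕ | v ∈ D.par^[k] σ}.Finite := by
    intro v
    have : ({k : ℕ | v ∈ D.par^[k] σ}) ⊆ (fun k : ℕ => D.par^[k] σ) ⁻¹' {σ | σ ∈ D.C ∧ v ∈ σ} := by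
      intro k hk
      exact ⟨D.iter_par_mem hσ k, hk⟩
    exact ((D.locfin v).preimage (D.iter_par_injective hσ).injOn).subset this
  have hfin' : (⋃ v ∈ (σ : Set V), {k : ℕ | v ∈ D.par^[k] σ}).Finite :=
    Set.Finite.biUnion σ.finite_toSet (fun v _ => hfin v)
  obtain ⟨K, hK⟩ := hfin'.exists_notMem
  refine ⟨K, fun v hv hc => hK ?_⟩
  simp only [Set.mem_iUnion]
  exact ⟨v, hv, hc⟩

theorem Fn_le_of_leave (δ : ℝ) (k : ℕ) {σ : Finset V} (hσ : σ ∈ D.C)
    {q : (V → ℝ) × ℝ} (h : D.Inv σ q) {v : V} (hv : v ∈ σ) (hqv : 0 < q.2 → δ ≤ q.1 v)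
    (hleave : v ∉ D.par^[k] σ) : (D.Fn k σ q).2 ≤ max (q.2 - δ) 0 := by
  induction k generalizing σ q with
  | zero => exact absurd hv hleave
  | succ k ih =>
    rw [Fn_succ]
    by_cases ha : v = D.apex σ
    · refine (D.Fn_snd_le k (D.par_mem σ hσ) (D.step_inv hσ h)).trans ?_
      rcases eq_or_lt_of_le h.1 with h0 | h0
      · rw [D.step_of_zero h.2.1 h0.symm, ← h0]
        exact le_max_right _ _
      · unfold step
        simp only
        rw [← ha]
        have := hqv h0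
        rcases min_choice q.2 (q.1 v) with h1 | h1
        · rw [h1, sub_self]; exact le_max_right _ _
        · rw [h1]
          exact le_max_of_le_left (by linarith)
    · have hvp : v ∈ D.par σ := D.par_sub σ hσ v hv ha
      have hih := ih (D.par_mem σ hσ) (D.step_inv hσ h) hvp ?_ hleave
      · refine hih.trans ?_
        have := D.step_snd_le h
        exact max_le_max (by linarith) le_rfl
      · intro hpos
        have hpos' : 0 < q.2 := lt_of_lt_of_le hpos (D.step_snd_le h)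
        unfold step
        simp only
        rw [D.mv_of_mem _ _ hv ha]
        have h1 := hqv hpos'
        have h2 : 0 ≤ min q.2 (q.1 (D.apex σ)) := le_min h.1 (D.space_nonneg h.2.1 _)
        have h3 := D.mR_pos
        have : 0 ≤ min q.2 (q.1 (D.apex σ)) / m := by positivity
        linarith

theorem exists_large {σ : Finset V} (hσ : σ ∈ D.C) {x : V → ℝ} (hx : x ∈ simplex σ) :
    ∃ v ∈ σ, 1 / ((m : ℝ) + 1) ≤ x v := by
  by_contra hc
  push Not at hc
  have hne : σ.Nonempty := ⟨_, D.apex_mem σ hσ⟩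
  have h1 : ∑ v ∈ σ, x v < ∑ v ∈ σ, 1 / ((m : ℝ) + 1) := Finset.sum_lt_sum_of_nonempty hne hc
  rw [hx.2.2, Finset.sum_const, D.card σ hσ, nsmul_eq_mul] at h1
  push_cast at h1
  have : ((m : ℝ) + 1) * (1 / (m + 1)) = 1 := by field_simp
  linarith

theorem exists_kill {σ : Finset V} (hσ : σ ∈ D.C) :
    ∃ k : ℕ, ∀ q, D.Inv σ q → (D.Fn k σ q).2 ≤ max (q.2 - 1 / ((m : ℝ) + 1)) 0 := by
  obtain ⟨K, hK⟩ := D.exists_leave hσ
  refine ⟨K, fun q hq => ?_⟩
  rcases eq_or_lt_of_le hq.1 with h0 | h0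
  · rw [D.Fn_of_zero K σ hq.2.1 h0.symm, ← h0]
    exact le_max_right _ _
  · obtain ⟨v, hv, hxv⟩ := D.exists_large hσ (hq.2.2 h0)
    exact D.Fn_le_of_leave _ K hσ hq hv (fun _ => hxv) (hK v hv)

theorem exists_kill_all {σ : Finset V} (hσ : σ ∈ D.C) (N : ℕ) :
    ∃ k : ℕ, ∀ q, D.Inv σ q → (D.Fn k σ q).2 ≤ max (q.2 - N * (1 / ((m : ℝ) + 1))) 0 := by
  induction N with
  | zero =>
    refine ⟨0, fun q _ => ?_⟩
    rw [Fn_zero]
    simp
  | succ N ih =>
    obtain ⟨k, hk⟩ := ih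
    obtain ⟨K, hK⟩ := D.exists_kill (D.iter_par_mem hσ k)
    refine ⟨k + K, fun q hq => ?_⟩
    rw [D.Fn_add]
    have hinv := D.Fn_inv k hσ hq
    have h1 := hK _ hinv
    have h2 := hk q hq
    refine h1.trans ?_
    have hδ : 0 ≤ 1 / ((m : ℝ) + 1) := by positivity
    apply max_le _ (le_max_right _ _)
    push_cast
    rcases le_max_iff.mp h2 with h | h
    · apply le_max_of_le_left
      linarith
    · apply le_max_of_le_right
      linarith

/-- a uniform number of steps uses up any given amount of time -/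
theorem exists_uniform {σ : Finset V} (hσ : σ ∈ D.C) (T : ℝ) :
    ∃ k : ℕ, ∀ q, D.Inv σ q → q.2 ≤ T → (D.Fn k σ q).2 = 0 := by
  obtain ⟨N, hN⟩ := exists_nat_ge (T * ((m : ℝ) + 1))
  obtain ⟨k, hk⟩ := D.exists_kill_all hσ N
  refine ⟨k, fun q hq hT => le_antisymm ?_ (D.Fn_inv k hσ hq).1⟩
  refine (hk q hq).trans (max_le ?_ le_rfl)
  have h1 : (0 : ℝ) < m + 1 := by positivity
  have h2 : T ≤ N * (1 / ((m : ℝ) + 1)) := by
    rw [mul_one_div, le_div_iff₀ h1]
    exact hN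
  linarith

theorem inv_of_mem {σ : Finset V} (hσ : σ ∈ D.C) {p : V → ℝ} (hp : p ∈ simplex σ) {t : ℝ}
    (ht : 0 ≤ t) : D.Inv σ (p, t) := ⟨ht, ⟨σ, hσ, hp⟩, fun _ => hp⟩

theorem exists_end {σ : Finset V} (hσ : σ ∈ D.C) {q : (V → ℝ) × ℝ} (hq : D.Inv σ q) :
    ∃ k, (D.Fn k σ q).2 = 0 := by
  obtain ⟨k, hk⟩ := D.exists_uniform hσ q.2
  exact ⟨k, hk q hq le_rfl⟩

open scoped Classical in
/-- the forward flow for time `t` from the point `p` of the cell `σ` -/
noncomputable def Fl (σ : Finset V) (p : V → ℝ) (t : ℝ) : V → ℝ :=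
  if h : ∃ k, (D.Fn k σ (p, t)).2 = 0 then (D.Fn (Classical.choose h) σ (p, t)).1 else p

theorem Fl_eq {σ : Finset V} (hσ : σ ∈ D.C) {p : V → ℝ} {t : ℝ} (hq : D.Inv σ (p, t))
    {k : ℕ} (hk : (D.Fn k σ (p, t)).2 = 0) : D.Fl σ p t = (D.Fn k σ (p, t)).1 := by
  have hex : ∃ k, (D.Fn k σ (p, t)).2 = 0 := ⟨k, hk⟩
  rw [Fl, dif_pos hex]
  have hs := Classical.choose_spec hex
  rcases le_total k (Classical.choose hex) with h | h
  · obtain ⟨l, hl⟩ := Nat.exists_eq_add_of_le h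
    rw [hl, D.Fn_stable hσ hq hk l]
  · obtain ⟨l, hl⟩ := Nat.exists_eq_add_of_le h
    conv_rhs => rw [hl]
    rw [D.Fn_stable hσ hq hs l]

theorem Fl_eq_pair {σ : Finset V} (hσ : σ ∈ D.C) {p : V → ℝ} {t : ℝ} (hq : D.Inv σ (p, t))
    {k : ℕ} (hk : (D.Fn k σ (p, t)).2 = 0) : D.Fn k σ (p, t) = (D.Fl σ p t, 0) := by
  ext1
  · exact (D.Fl_eq hσ hq hk).symm
  · exact hk

theorem Fl_mem {σ : Finset V} (hσ : σ ∈ D.C) {p : V → ℝ} {t : ℝ} (hq : D.Inv σ (p, t)) :
    D.Fl σ p t ∈ D.space := by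
  obtain ⟨k, hk⟩ := D.exists_end hσ hq
  rw [D.Fl_eq hσ hq hk]
  exact (D.Fn_inv k hσ hq).2.1

theorem Fl_zero {σ : Finset V} (hσ : σ ∈ D.C) {p : V → ℝ} (hp : p ∈ simplex σ) :
    D.Fl σ p 0 = p := D.Fl_eq hσ (D.inv_of_mem hσ hp le_rfl) (k := 0) rfl

theorem G_Fl {σ : Finset V} (hσ : σ ∈ D.C) {p : V → ℝ} {t : ℝ} (hq : D.Inv σ (p, t)) :
    (D.G (D.Fl σ p t)).1 = (D.G p).1 ∧ (D.G (D.Fl σ p t)).2.1 = (D.G p).2.1 + t := by
  obtain ⟨k, hk⟩ := D.exists_end hσ hq
  obtain ⟨h1, h2, _⟩ := D.G_Fn k hσ hq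
  rw [D.Fl_eq hσ hq hk]
  refine ⟨h1, ?_⟩
  rw [hk, add_zero] at h2
  exact h2

theorem Fl_par {σ : Finset V} (hσ : σ ∈ D.C) {p : V → ℝ} (hp : p ∈ simplex σ)
    (ha : p (D.apex σ) = 0) {t : ℝ} (ht : 0 ≤ t) : D.Fl σ p t = D.Fl (D.par σ) p t := by
  have hinv := D.inv_of_mem hσ hp ht
  have hp' := D.mem_par hσ hp ha
  have hinv' := D.inv_of_mem (D.par_mem σ hσ) hp' ht
  obtain ⟨k, hk⟩ := D.exists_end (D.par_mem σ hσ) hinv'
  have hst : D.step σ (p, t) = (p, t) := by
    unfold step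
    simp only
    rw [ha, min_eq_right ht, D.mv_zero]
    simp
  rw [D.Fl_eq (D.par_mem σ hσ) hinv' hk]
  have : D.Fn (k + 1) σ (p, t) = D.Fn k (D.par σ) (p, t) := by rw [Fn_succ, hst]
  rw [D.Fl_eq hσ hinv (k := k + 1) (by rw [this]; exact hk), this]

theorem Fl_iter {σ : Finset V} (hσ : σ ∈ D.C) {p : V → ℝ} (hp : p ∈ simplex σ) (j : ℕ)
    (ha : ∀ i < j, p (D.apex (D.par^[i] σ)) = 0) {t : ℝ} (ht : 0 ≤ t) :
    p ∈ simplex (D.par^[j] σ) ∧ D.Fl σ p t = D.Fl (D.par^[j] σ) p t := by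
  induction j generalizing σ with
  | zero => exact ⟨hp, rfl⟩
  | succ j ih =>
    have h0 : p (D.apex σ) = 0 := ha 0 (Nat.succ_pos j)
    have hp' := D.mem_par hσ hp h0
    obtain ⟨i1, i2⟩ := ih (D.par_mem σ hσ) hp' (fun i hi => by
      have := ha (i + 1) (by omega)
      rw [Function.iterate_succ_apply] at this
      exact this)
    rw [Function.iterate_succ_apply]
    exact ⟨i1, (D.Fl_par hσ hp h0 ht).trans i2⟩

/-! ### every point is reached -/

theorem reach_aux : ∀ (n : ℕ) {σ : Finset V} (_ : D.rank σ = n) (_ : σ ∈ D.C)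
    {x : V → ℝ} (_ : x ∈ simplex σ) {ρ : Finset V} (_ : (D.Ps σ x).2.2 = some ρ),
    ρ ∈ D.C ∧ (D.Ps σ x).1 ∈ simplex ρ ∧
    ∃ k, D.par^[k] ρ = σ ∧ ∀ s : ℝ, 0 ≤ s →
      D.Fn k ρ ((D.Ps σ x).1, ((D.Ps σ x).2.1 - m * D.mu σ x) + s) = (D.bk σ x, s) := by
  intro n
  induction n using Nat.strong_induction_on with
  | _ n ih =>
    intro σ hn hσ x hx ρ hρ
    have hmu := D.mu_nonneg hσ hx
    have hm := D.mR_pos
    have hs : 0 ≤ m * D.mu σ x := mul_nonneg hm.le hmu
    have hbk := D.bk_mem_simplex hσ hx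
    rw [D.Ps_eq_comb_base] at hρ ⊢
    by_cases hex : ∃ κ, κ ∈ D.C ∧ D.par κ = σ ∧ D.bk σ x ∈ simplex κ
    · have hb : D.base σ (D.bk σ x) = D.Ps (Classical.choose hex) (D.bk σ x) := by
        rw [base, dif_pos hex]
      have h' := Classical.choose_spec hex
      set κ := Classical.choose hex with hκdef
      have hr := D.rank_lt _ h'.1
      rw [h'.2.1, hn] at hr
      rw [hb] at hρ ⊢
      rw [comb_fst, comb_snd]
      cases hc : (D.Ps κ (D.bk σ x)).2.2 with
      | some ρ' =>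
        rw [comb_of_some hc] at hρ
        have hρρ : ρ' = ρ := by simpa using hρ
        rw [hρρ] at hc
        obtain ⟨i0, i1, k, i2, i3⟩ := ih _ hr rfl h'.1 h'.2.2 hc
        refine ⟨i0, i1, k + 1, ?_, fun s hs => ?_⟩
        · rw [Function.iterate_succ_apply', i2, h'.2.1]
        · have hmu' := D.mu_nonneg h'.1 h'.2.2
          have hs' : 0 ≤ m * D.mu κ (D.bk σ x) := mul_nonneg hm.le hmu'
          have i4 := i3 (m * D.mu κ (D.bk σ x) + s) (by linarith)
          have e1 : (D.Ps κ (D.bk σ x)).2.1 + m * D.mu σ x - m * D.mu σ x + s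
              = (D.Ps κ (D.bk σ x)).2.1 - m * D.mu κ (D.bk σ x)
                + (m * D.mu κ (D.bk σ x) + s) := by ring
          rw [e1, D.Fn_add, i4, i2, Fn_succ, Fn_zero]
          have ha : D.bk σ x (D.apex κ) = 0 :=
            hbk.2.1 _ (D.apex_not_mem_of_child h'.1 h'.2.1)
          have hb2 : D.bk κ (D.bk σ x) (D.apex κ) = m * D.mu κ (D.bk σ x) := by
            rw [D.bk_apex, ha, zero_add]
          unfold step
          simp only
          rw [hb2, min_eq_right (by linarith), D.mv_bk]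
          simp
      | none =>
        have hpos : 0 < m * D.mu σ x := by
          by_contra hneg
          have := (comb_none_iff (D.Ps κ (D.bk σ x)) (m * D.mu σ x) σ).mpr ⟨hc, hneg⟩
          rw [this] at hρ
          exact absurd hρ (by simp)
        rw [comb_of_none hc hpos] at hρ
        have hρσ : σ = ρ := by simpa using hρ
        subst hρσ
        have f := D.Ps_facts_aux _ rfl h'.1 h'.2.2
        have t0 := f.2.1.mp hc
        rw [f.2.2.1 t0, t0]
        refine ⟨hσ, hbk, 0, rfl, fun s hs => ?_⟩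
        rw [Fn_zero]
        congr 1
        ring
    · have hb : D.base σ (D.bk σ x) = (D.bk σ x, 0, none) := by
        rw [base, dif_neg hex]
      rw [hb] at hρ ⊢
      rw [comb_fst, comb_snd]
      have hpos : 0 < m * D.mu σ x := by
        by_contra hneg
        have := (comb_none_iff (D.bk σ x, (0 : ℝ), (none : Option (Finset V)))
          (m * D.mu σ x) σ).mpr ⟨rfl, hneg⟩
        rw [this] at hρ
        exact absurd hρ (by simp)
      rw [comb_of_none rfl hpos] at hρ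
      have hρσ : σ = ρ := by simpa using hρ
      subst hρσ
      refine ⟨hσ, hbk, 0, rfl, fun s hs => ?_⟩
      rw [Fn_zero]
      congr 1
      simp

/-- every point at positive time is reached by the flow line through its first cell -/
theorem reach {x : V → ℝ} (hx : x ∈ D.space) {ρ : Finset V} (hρ : (D.G x).2.2 = some ρ) :
    ρ ∈ D.C ∧ (D.G x).1 ∈ simplex ρ ∧ D.Fl ρ (D.G x).1 (D.G x).2.1 = x := by
  have hx' := hx
  have ht := D.G_nonneg hx
  obtain ⟨σ, hσ, hx⟩ := hx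
  have hG := D.G_eq hσ hx
  rw [hG] at hρ ht ⊢
  obtain ⟨h0, h1, k, h2, h3⟩ := D.reach_aux _ rfl hσ hx hρ
  refine ⟨h0, h1, ?_⟩
  have hm := D.mR_pos
  have hmu := D.mu_nonneg hσ hx
  have hs : 0 ≤ m * D.mu σ x := mul_nonneg hm.le hmu
  have h4 := h3 (m * D.mu σ x) hs
  have e : (D.Ps σ x).2.1 - m * D.mu σ x + m * D.mu σ x = (D.Ps σ x).2.1 := by ring
  rw [e] at h4
  have h5 : D.Fn (k + 1) ρ ((D.Ps σ x).1, (D.Ps σ x).2.1) = (x, 0) := by
    rw [D.Fn_add, h4, h2, Fn_succ, Fn_zero]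
    unfold step
    simp only
    have hb : m * D.mu σ x ≤ D.bk σ x (D.apex σ) := by
      rw [D.bk_apex]
      have := hx.1 (D.apex σ)
      linarith
    rw [min_eq_left hb, D.mv_bk, sub_self]
  have hinv := D.inv_of_mem h0 h1 ht
  rw [D.Fl_eq h0 hinv (k := k + 1) (by rw [h5]), h5]

end FlowData

end Pool.Agent.TH632
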