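import Pool.Agent.TH632.Model

/-!
# The map to Euclidean space and its local inverses
-/

open Set Topology

namespace Pool.Agent.TH632

universe u

namespace FlowData

variable {V : Type u} {m : ℕ} (D : FlowData V m)

/-- the coordinates in `Q` of a point, computed with the chamber `c` -/
noncomputable def Xc (c : Fin (m + 1) → V) (x : D.space) : Fin m → ℝ := fun k =>
  JobModel.g m (lamOf c (D.G x).1 k) (D.G x).2.1

/-- the map on the chamber `c` -/
noncomputable def Fc (o : (Fin (m + 1) → V) → ℤˣ) (c : Fin (m + 1) → V) (x : D.space) :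
    Fin m → ℝ := refl (o c) (D.Xc c x)

/-- a chamber containing `x` -/
noncomputable def pick (x : D.space) : Fin (m + 1) → V := Classical.choose (D.exists_chamber x.2)

theorem pick_spec (x : D.space) : D.IsChamber (D.pick x) ∧ D.InCh (D.pick x) x :=
  Classical.choose_spec (D.exists_chamber x.2)

/-- the map to `ℝ^m` -/
noncomputable def F (o : (Fin (m + 1) → V) → ℤˣ) (x : D.space) : Fin m → ℝ :=
  D.Fc o (D.pick x) x

theorem Xc_eq_of_InCh {c c' : Fin (m + 1) → V} (hc : D.IsChamber c) (hc' : D.IsChamber c')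
    {x : D.space} (hx : D.InCh c x) (hx' : D.InCh c' x) : D.Xc c x = D.Xc c' x := by
  have h := Gap_congr hc.1.1 hc'.1.1 hx.2.1 hx'.2.1 0
  funext k
  unfold Xc lamOf
  rw [h]

theorem lamOf_nonneg {c : Fin (m + 1) → V} {p : V → ℝ} (hp : InSimp c p) (k : Fin m) :
    0 ≤ lamOf c p k := by
  unfold lamOf
  have := hp.Gap_nonneg (t := 0) le_rfl k.succ
  positivity

/-- the constraints of `Xc` vanish exactly with the gaps -/
theorem Lc_Xc_eq_zero_iff {c : Fin (m + 1) → V} (hc : D.IsChamber c)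
    {x : D.space} (hx : D.InCh c x) (i : Fin (m + 1)) :
    Lc (D.Xc c x) i = 0 ↔ Gap c (D.G x).1 (D.G x).2.1 i = 0 := by
  have hm := D.mpos'
  have hm' := D.mR_pos
  have ht := D.G_nonneg x.2
  refine Fin.cases ?_ (fun k => ?_) i
  · rw [Lc_zero, Gap_zero, div_eq_zero_iff, or_iff_left hm'.ne', sub_eq_zero]
    exact JobModel.sum_g_eq_one_iff m hm _ (lamOf_mem hc.1.1 hx.2.1) ht
  · rw [Lc_succ, ← lamOf_eq_zero_iff c _ (D.G x).2.1]
    exact JobModel.g_eq_zero_iff m (lamOf_nonneg hx.2.1 k)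

theorem Lc_Xc_nonneg {c : Fin (m + 1) → V} (hc : D.IsChamber c)
    {x : D.space} (hx : D.InCh c x) (i : Fin (m + 1)) : 0 ≤ Lc (D.Xc c x) i := by
  have hm := D.mpos'
  have hm' := D.mR_pos
  have ht := D.G_nonneg x.2
  refine Fin.cases ?_ (fun k => ?_) i
  · rw [Lc_zero]
    apply div_nonneg _ hm'.le
    have h1 : ∑ k, lamOf c (D.G x).1 k ≤ ∑ k, D.Xc c x k :=
      Finset.sum_le_sum fun k _ => JobModel.le_g m (lamOf_nonneg hx.2.1 k)
    have h2 := (lamOf_mem hc.1.1 hx.2.1).2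
    linarith
  · rw [Lc_succ]
    exact (lamOf_nonneg hx.2.1 k).trans (JobModel.le_g m (lamOf_nonneg hx.2.1 k))

theorem qt_Xc_nonneg {c : Fin (m + 1) → V} (hc : D.IsChamber c)
    {x : D.space} (hx : D.InCh c x) : 0 ≤ qt (D.Xc c x) :=
  qt_nonneg_iff.mpr fun i => D.Lc_Xc_nonneg hc hx i

theorem Gap_pos_iff {c : Fin (m + 1) → V} (hc : D.IsChamber c)
    {x : D.space} (hx : D.InCh c x) (i : Fin (m + 1)) :
    0 < Gap c (D.G x).1 (D.G x).2.1 i ↔ 0 < Lc (D.Xc c x) i := by
  have h1 := D.Lc_Xc_nonneg hc hx i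
  have h2 := hx.2.1.Gap_nonneg (D.G_nonneg x.2) i
  have h3 := D.Lc_Xc_eq_zero_iff hc hx i
  constructor
  · intro h
    rcases eq_or_lt_of_le h1 with h0 | h0
    · exact absurd (h3.mp h0.symm) h.ne'
    · exact h0
  · intro h
    rcases eq_or_lt_of_le h2 with h0 | h0
    · exact absurd (h3.mpr h0.symm) h.ne'
    · exact h0

variable {D}

theorem F_eq {o : (Fin (m + 1) → V) → ℤˣ} {c : Fin (m + 1) → V} (hc : D.IsChamber c)
    {x : D.space} (hx : D.InCh c x) : D.F o x = D.Fc o c x := by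
  obtain ⟨hp, hpx⟩ := D.pick_spec x
  have hX := D.Xc_eq_of_InCh hp hc hpx hx
  unfold F Fc
  rw [hX]
  by_cases h : c = D.pick x
  · rw [← h]
  · have hq : qt (D.Xc c x) = 0 := by
      by_contra hne
      have hpos : 0 < qt (D.Xc c x) :=
        lt_of_le_of_ne (D.qt_Xc_nonneg hc hx) (fun e => hne e.symm)
      apply h
      apply unique_interior hc hp hx hpx
      intro i
      rw [D.Gap_pos_iff hc hx]
      exact lt_of_lt_of_le hpos (qt_le _ i)
    rw [refl_of_qt_zero _ hq, refl_of_qt_zero _ hq]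

theorem qt_F {o : (Fin (m + 1) → V) → ℤˣ} {c : Fin (m + 1) → V} (hc : D.IsChamber c)
    {x : D.space} (hx : D.InCh c x) : qt (D.F o x) = ((o c : ℤˣ) : ℤ) * qt (D.Xc c x) := by
  rw [F_eq hc hx]
  exact qt_refl D.mpos' _ _

theorem Xc_eq_refl {o : (Fin (m + 1) → V) → ℤˣ} {c : Fin (m + 1) → V} (hc : D.IsChamber c)
    {x : D.space} (hx : D.InCh c x) : D.Xc c x = refl (o c) (D.F o x) := by
  rw [F_eq hc hx]
  exact (refl_refl D.mpos' _ _).symm

theorem sign_qt_F {o : (Fin (m + 1) → V) → ℤˣ} {c : Fin (m + 1) → V} (hc : D.IsChamber c)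
    {x : D.space} (hx : D.InCh c x) : 0 ≤ (((o c : ℤˣ) : ℤ) : ℝ) * qt (D.F o x) := by
  rw [qt_F hc hx]
  have h := D.qt_Xc_nonneg hc hx
  rcases Int.units_eq_one_or (o c) with h' | h' <;> rw [h'] <;> simpa using h

/-! ### sections -/

variable (D)

/-- the homeomorphism of the model -/
noncomputable def eM : (stdSimplex ℝ (Fin m)) × (Set.Ici (0 : ℝ)) ≃ₜ
    {X : Fin m → ℝ | (∀ k, 0 ≤ X k) ∧ 1 ≤ ∑ k, X k} :=
  Classical.choose (JobModel.exists_homeo m D.mpos')

theorem eM_spec (p : (stdSimplex ℝ (Fin m)) × (Set.Ici (0 : ℝ))) (k : Fin m) :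
    (D.eM p : Fin m → ℝ) k = JobModel.g m ((p.1 : Fin m → ℝ) k) (p.2 : ℝ) :=
  Classical.choose_spec (JobModel.exists_homeo m D.mpos') p k

/-- the closed half of `ℝ^m` belonging to a sign -/
def half (ε : ℤˣ) : Set (Fin m → ℝ) := {y | 0 ≤ ((ε : ℤ) : ℝ) * qt y}

theorem isClosed_half (ε : ℤˣ) : IsClosed (half ε : Set (Fin m → ℝ)) :=
  isClosed_le continuous_const (continuous_const.mul continuous_qt)

theorem mem_half_one {y : Fin m → ℝ} : y ∈ half (1 : ℤˣ) ↔ 0 ≤ qt y := by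
  simp [half]

theorem mem_half_neg_one {y : Fin m → ℝ} : y ∈ half (-1 : ℤˣ) ↔ qt y ≤ 0 := by
  simp [half]

include D in
theorem refl_mem_Q {ε : ℤˣ} {y : Fin m → ℝ} (hy : y ∈ half ε) :
    (∀ k, 0 ≤ refl ε y k) ∧ 1 ≤ ∑ k, refl ε y k := by
  rw [mem_Q_iff D.mpos', qt_refl D.mpos']
  exact hy

/-- the chamber coordinates of a point of the half space -/
noncomputable def coord (ε : ℤˣ) (y : (half ε : Set (Fin m → ℝ))) :
    (stdSimplex ℝ (Fin m)) × (Set.Ici (0 : ℝ)) :=
  D.eM.symm ⟨refl ε y, D.refl_mem_Q y.2⟩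

theorem continuous_coord (ε : ℤˣ) : Continuous (D.coord ε) := by
  unfold coord
  apply D.eM.symm.continuous.comp
  exact Continuous.subtype_mk ((continuous_refl ε).comp continuous_subtype_val) _

variable {D}

/-- the section over the half space belonging to a chamber -/
noncomputable def sec (o : (Fin (m + 1) → V) → ℤˣ) (c : D.Chamber)
    (y : (half (o c.1) : Set (Fin m → ℝ))) : D.space :=
  ⟨D.Fl (im c.1) (pcOf c.1 ((D.coord _ y).1 : Fin m → ℝ)) ((D.coord _ y).2 : ℝ),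
    D.Fl_mem c.2.1.2 (D.inv_of_mem c.2.1.2 (pcOf_InSimp c.2.1.1 (D.coord _ y).1.2).1
      (D.coord _ y).2.2)⟩

theorem continuous_sec (o : (Fin (m + 1) → V) → ℤˣ) (c : D.Chamber) :
    Continuous (sec o c) := by
  apply Continuous.subtype_mk
  have h := D.continuousOn_Fl c.2.1.2
  have h2 : Continuous (fun y : (half (o c.1) : Set (Fin m → ℝ)) =>
      ((pcOf c.1 ((D.coord _ y).1 : Fin m → ℝ), ((D.coord _ y).2 : ℝ)) : (V → ℝ) × ℝ)) := by
    apply Continuous.prodMk
    · exact (continuous_pcOf c.1).comp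
        (continuous_subtype_val.comp (continuous_fst.comp (D.continuous_coord _)))
    · exact continuous_subtype_val.comp (continuous_snd.comp (D.continuous_coord _))
  exact h.comp_continuous h2 fun y =>
    ⟨(pcOf_InSimp c.2.1.1 (D.coord _ y).1.2).1, (D.coord _ y).2.2⟩

theorem G_sec (o : (Fin (m + 1) → V) → ℤˣ) (c : D.Chamber)
    (y : (half (o c.1) : Set (Fin m → ℝ))) :
    (D.G (sec o c y)).1 = pcOf c.1 ((D.coord _ y).1 : Fin m → ℝ) ∧
    (D.G (sec o c y)).2.1 = ((D.coord _ y).2 : ℝ) :=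
  D.G_Fl_of_InSimp c.2 (pcOf_InSimp c.2.1.1 (D.coord _ y).1.2) (D.coord _ y).2.2

theorem sec_mem (o : (Fin (m + 1) → V) → ℤˣ) (c : D.Chamber)
    (y : (half (o c.1) : Set (Fin m → ℝ))) : D.InCh c.1 (sec o c y) :=
  D.InCh_Fl c.2 (pcOf_InSimp c.2.1.1 (D.coord _ y).1.2) (D.coord _ y).2.2

theorem Xc_sec (o : (Fin (m + 1) → V) → ℤˣ) (c : D.Chamber)
    (y : (half (o c.1) : Set (Fin m → ℝ))) : D.Xc c.1 (sec o c y) = refl (o c.1) y := by
  obtain ⟨h1, h2⟩ := G_sec o c y
  funext k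
  unfold Xc
  rw [h1, h2, lamOf_pcOf c.2.1.1, ← D.eM_spec (D.coord _ y) k]
  unfold coord
  rw [Homeomorph.apply_symm_apply]

theorem F_sec (o : (Fin (m + 1) → V) → ℤˣ) (c : D.Chamber)
    (y : (half (o c.1) : Set (Fin m → ℝ))) : D.F o (sec o c y) = y := by
  rw [F_eq c.2 (sec_mem o c y), Fc, Xc_sec, refl_refl D.mpos']

theorem F_mem_half (o : (Fin (m + 1) → V) → ℤˣ) (c : D.Chamber) {x : D.space}
    (hx : D.InCh c.1 x) : D.F o x ∈ (half (o c.1) : Set (Fin m → ℝ)) :=
  sign_qt_F c.2 hx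

theorem sec_F (o : (Fin (m + 1) → V) → ℤˣ) (c : D.Chamber) {x : D.space}
    (hx : D.InCh c.1 x) : sec o c ⟨D.F o x, F_mem_half o c hx⟩ = x := by
  have hl := lamOf_mem c.2.1.1 hx.2.1
  have ht := D.G_nonneg x.2
  have hco : D.coord (o c.1) ⟨D.F o x, F_mem_half o c hx⟩ =
      (⟨lamOf c.1 (D.G x).1, hl⟩, ⟨(D.G x).2.1, ht⟩) := by
    unfold coord
    rw [Homeomorph.symm_apply_eq]
    apply Subtype.ext
    funext k
    rw [D.eM_spec]
    have := congrFun (Xc_eq_refl (o := o) c.2 hx) k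
    simp only [Xc] at this
    exact this.symm
  apply Subtype.ext
  change D.Fl (im c.1) (pcOf c.1 ((D.coord _ _).1 : Fin m → ℝ)) ((D.coord _ _).2 : ℝ) = x
  rw [hco]
  change D.Fl (im c.1) (pcOf c.1 (lamOf c.1 (D.G x).1)) (D.G x).2.1 = x
  rw [pcOf_lamOf c.2.1.1 hx.2.1]
  exact hx.2.2

/-- `F` is injective on chambers -/
theorem F_injOn (o : (Fin (m + 1) → V) → ℤˣ) (c : D.Chamber) {x x' : D.space}
    (hx : D.InCh c.1 x) (hx' : D.InCh c.1 x') (h : D.F o x = D.F o x') : x = x' := by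
  rw [← sec_F o c hx, ← sec_F o c hx']
  congr 1
  exact Subtype.ext h

theorem continuous_g_comp {X : Type*} [TopologicalSpace X] (hm : 0 < m) {b t : X → ℝ}
    (hb : Continuous b) (ht : Continuous t) (hb0 : ∀ x, 0 ≤ b x) :
    Continuous (fun x => JobModel.g m (b x) (t x)) := by
  rw [continuous_iff_continuousAt]
  intro x
  obtain ⟨N, hN⟩ := exists_nat_ge ((m : ℝ) * (t x + 1))
  have h1 : Continuous (fun x => b x + ∑ k ∈ Finset.range N, min (b x) (max (t x - k / m) 0)) := by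
    apply hb.add
    apply continuous_finsetSum
    intro k _
    exact hb.min ((ht.sub continuous_const).max continuous_const)
  apply h1.continuousAt.congr_of_eventuallyEq
  have hev : ∀ᶠ y in 𝓝 x, t y < t x + 1 :=
    ht.continuousAt.eventually_lt continuousAt_const (by linarith)
  filter_upwards [hev] with y hy
  apply JobModel.g_eq m hm (hb0 y)
  have : (0 : ℝ) ≤ m := by positivity
  calc (m : ℝ) * t y ≤ m * (t x + 1) := by nlinarith
    _ ≤ N := hN

/-- continuity of `F` -/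
theorem continuous_F (o : (Fin (m + 1) → V) → ℤˣ) : Continuous (D.F o) := by
  apply D.locallyFinite_Ch.continuous
  · rw [Set.eq_univ_iff_forall]
    intro x
    obtain ⟨c, hc, hx⟩ := D.exists_chamber x.2
    exact Set.mem_iUnion.mpr ⟨⟨c, hc⟩, hx⟩
  · intro c
    exact D.isClosed_Ch c.2
  · intro c
    have h1 : ContinuousOn (fun x : D.space => D.Fc o c.1 x) (D.Ch c.1) := by
      apply (continuous_refl (o c.1)).comp_continuousOn
      rw [continuousOn_iff_continuous_domRestrict]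
      apply continuous_pi
      intro k
      change Continuous (fun x : D.Ch c.1 =>
        JobModel.g m (lamOf c.1 (D.G (x : D.space)).1 k) (D.G (x : D.space)).2.1)
      apply continuous_g_comp D.mpos'
      · exact (continuous_apply k).comp ((continuous_lamOf c.1).comp
          (D.continuous_R.comp continuous_subtype_val))
      · exact D.continuous_T.comp continuous_subtype_val
      · intro x
        exact lamOf_nonneg x.2.2.1 k
    apply h1.congr
    intro x hx
    exact F_eq c.2 hx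

end FlowData

end Pool.Agent.TH632
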