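import Pool.Agent.TH632.Topo
import Pool.Agent.TH158.J9

/-!
# Coordinates on chambers
-/

open Set Topology

namespace Pool.Agent.TH632

universe u

/-! ### The model: constraints, minimum, reflection -/

section Model

variable {m : ℕ}

/-- the `m+1` constraint functions cutting out `Q = {X ≥ 0, ∑ X ≥ 1}` -/
noncomputable def Lc (X : Fin m → ℝ) : Fin (m + 1) → ℝ :=
  Fin.cons ((∑ k, X k - 1) / m) X

theorem Lc_zero (X : Fin m → ℝ) : Lc X 0 = (∑ k, X k - 1) / m := rfl

theorem Lc_succ (X : Fin m → ℝ) (k : Fin m) : Lc X k.succ = X k := rfl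

/-- the minimum of the constraint functions -/
noncomputable def qt (X : Fin m → ℝ) : ℝ := ⨅ i : Fin (m + 1), Lc X i

theorem qt_le (X : Fin m → ℝ) (i : Fin (m + 1)) : qt X ≤ Lc X i :=
  ciInf_le (Finite.bddBelow_range _) i

theorem exists_eq_qt (X : Fin m → ℝ) : ∃ i, Lc X i = qt X :=
  exists_eq_ciInf_of_finite (f := fun i => Lc X i)

theorem le_qt {X : Fin m → ℝ} {a : ℝ} (h : ∀ i, a ≤ Lc X i) : a ≤ qt X := le_ciInf h

theorem qt_nonneg_iff {X : Fin m → ℝ} : 0 ≤ qt X ↔ ∀ i, 0 ≤ Lc X i :=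
  ⟨fun h i => h.trans (qt_le X i), le_qt⟩

theorem mem_Q_iff (hm : 0 < m) {X : Fin m → ℝ} :
    ((∀ k, 0 ≤ X k) ∧ 1 ≤ ∑ k, X k) ↔ 0 ≤ qt X := by
  rw [qt_nonneg_iff, Fin.forall_fin_succ]
  have hm' : (0 : ℝ) < m := by exact_mod_cast hm
  rw [Lc_zero]
  simp only [Lc_succ]
  constructor
  · rintro ⟨h1, h2⟩
    exact ⟨div_nonneg (by linarith) hm'.le, h1⟩
  · rintro ⟨h1, h2⟩
    refine ⟨h2, ?_⟩
    rw [le_div_iff₀ hm'] at h1
    linarith

theorem Lc_add (hm : 0 < m) (X : Fin m → ℝ) (s : ℝ) (i : Fin (m + 1)) :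
    Lc (fun k => X k + s) i = Lc X i + s := by
  have hm' : (0 : ℝ) < m := by exact_mod_cast hm
  refine Fin.cases ?_ (fun k => ?_) i
  · rw [Lc_zero, Lc_zero, Finset.sum_add_distrib]
    simp only [Finset.sum_const, Finset.card_univ, Fintype.card_fin, nsmul_eq_mul]
    field_simp
    ring
  · rw [Lc_succ, Lc_succ]

theorem qt_add (hm : 0 < m) (X : Fin m → ℝ) (s : ℝ) : qt (fun k => X k + s) = qt X + s := by
  apply le_antisymm
  · obtain ⟨i, hi⟩ := exists_eq_qt X
    rw [← hi, ← Lc_add hm]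
    exact qt_le _ i
  · apply le_qt
    intro i
    rw [Lc_add hm]
    have := qt_le X i
    linarith

theorem continuous_Lc (i : Fin (m + 1)) : Continuous (fun X : Fin m → ℝ => Lc X i) := by
  refine Fin.cases ?_ (fun k => ?_) i
  · simp only [Lc_zero]
    exact ((continuous_finsetSum _ fun k _ => continuous_apply k).sub continuous_const).div_const _
  · simp only [Lc_succ]
    exact continuous_apply k

theorem continuous_qt : Continuous (qt : (Fin m → ℝ) → ℝ) := by
  have h : (qt : (Fin m → ℝ) → ℝ) = fun X => Finset.univ.inf' Finset.univ_nonempty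
      (fun i : Fin (m + 1) => Lc X i) := by
    funext X
    rw [Finset.inf'_univ_eq_ciInf]
    rfl
  rw [h]
  exact Continuous.finset_inf'_apply _ fun i _ => continuous_Lc i

/-- the PL reflection in the boundary of `Q` for the sign `-1`, the identity for `1` -/
noncomputable def refl (ε : ℤˣ) (X : Fin m → ℝ) : Fin m → ℝ :=
  if ε = 1 then X else fun k => X k + (-2 * qt X)

theorem refl_one (X : Fin m → ℝ) : refl 1 X = X := by simp [refl]

theorem refl_neg_one (X : Fin m → ℝ) : refl (-1) X = fun k => X k + (-2 * qt X) := by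
  have : (-1 : ℤˣ) ≠ 1 := by decide
  simp [refl, this]

theorem qt_refl (hm : 0 < m) (ε : ℤˣ) (X : Fin m → ℝ) :
    qt (refl ε X) = (ε : ℤ) * qt X := by
  rcases Int.units_eq_one_or ε with h | h <;> subst h
  · rw [refl_one]; simp
  · rw [refl_neg_one, qt_add hm]; simp; ring

theorem refl_refl (hm : 0 < m) (ε : ℤˣ) (X : Fin m → ℝ) : refl ε (refl ε X) = X := by
  rcases Int.units_eq_one_or ε with h | h <;> subst h
  · rw [refl_one, refl_one]
  · rw [refl_neg_one (refl (-1) X), qt_refl hm, refl_neg_one]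
    funext k
    simp only [Units.val_neg, Units.val_one]
    push_cast
    ring

theorem refl_of_qt_zero (ε : ℤˣ) {X : Fin m → ℝ} (h : qt X = 0) : refl ε X = X := by
  rcases Int.units_eq_one_or ε with h' | h' <;> subst h'
  · rw [refl_one]
  · rw [refl_neg_one, h]; simp

theorem continuous_refl (ε : ℤˣ) : Continuous (refl ε : (Fin m → ℝ) → (Fin m → ℝ)) := by
  rcases Int.units_eq_one_or ε with h | h <;> subst h
  · have : (refl 1 : (Fin m → ℝ) → (Fin m → ℝ)) = id := by funext X; exact refl_one X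
    rw [this]; exact continuous_id
  · have : (refl (-1) : (Fin m → ℝ) → (Fin m → ℝ)) = fun X k => X k + (-2 * qt X) := by
      funext X; exact refl_neg_one X
    rw [this]
    exact continuous_pi fun k => (continuous_apply k).add (continuous_const.mul continuous_qt)

end Model

namespace FlowData

variable {V : Type u} {m : ℕ} (D : FlowData V m)

include D in
theorem mpos' : 0 < m := by have := D.mpos; omega

/-! ### the gap coordinates -/

/-- sorted coordinates, extended by zero -/
noncomputable def Bf (c : Fin (m + 1) → V) (p : V → ℝ) (n : ℕ) : ℝ :=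
  if h : n < m then p (c ⟨n + 1, by omega⟩) else 0

theorem Bf_val (c : Fin (m + 1) → V) (p : V → ℝ) (i : Fin m) : Bf c p i.val = p (c i.succ) := by
  unfold Bf
  rw [dif_pos i.2]
  rfl

theorem Gap_succ (c : Fin (m + 1) → V) (p : V → ℝ) (t : ℝ) (i : Fin m) :
    Gap c p t i.succ = Bf c p i.val - Bf c p (i.val + 1) := by
  have h0 : i.succ ≠ 0 := Fin.succ_ne_zero i
  rw [Bf_val]
  unfold Gap Bf
  rw [if_neg h0]
  simp only [Fin.val_succ]

/-- normalized gap coordinates -/
noncomputable def lamOf (c : Fin (m + 1) → V) (p : V → ℝ) : Fin m → ℝ := fun i =>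
  ((i.val : ℝ) + 1) * Gap c p 0 i.succ

theorem lamOf_eq (c : Fin (m + 1) → V) (p : V → ℝ) (t : ℝ) (i : Fin m) :
    lamOf c p i = ((i.val : ℝ) + 1) * Gap c p t i.succ := by
  unfold lamOf
  rw [Gap_succ, Gap_succ]

theorem lamOf_eq_zero_iff (c : Fin (m + 1) → V) (p : V → ℝ) (t : ℝ) (i : Fin m) :
    lamOf c p i = 0 ↔ Gap c p t i.succ = 0 := by
  rw [lamOf_eq c p t]
  have : ((i.val : ℝ) + 1) ≠ 0 := by positivity
  simp [this]

theorem abel_sum (B : ℕ → ℝ) (n : ℕ) :
    ∑ i ∈ Finset.range n, ((i : ℝ) + 1) * (B i - B (i + 1)) =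
      ∑ i ∈ Finset.range n, B i - n * B n := by
  induction n with
  | zero => simp
  | succ n ih =>
    rw [Finset.sum_range_succ, ih, Finset.sum_range_succ]
    push_cast
    ring

open scoped Classical in
theorem sum_im {c : Fin (m + 1) → V} (hc : Function.Injective c) (p : V → ℝ) :
    ∑ v ∈ im c, p v = p (c 0) + ∑ i : Fin m, p (c i.succ) := by
  rw [im, Finset.sum_image (fun i _ j _ h => hc h), Fin.sum_univ_succ]

theorem lamOf_mem {c : Fin (m + 1) → V} (hc : Function.Injective c) {p : V → ℝ}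
    (hp : InSimp c p) : lamOf c p ∈ stdSimplex ℝ (Fin m) := by
  constructor
  · intro i
    unfold lamOf
    have := hp.Gap_nonneg (t := 0) le_rfl i.succ
    positivity
  · have h1 : ∑ i : Fin m, lamOf c p i
        = ∑ i ∈ Finset.range m, ((i : ℝ) + 1) * (Bf c p i - Bf c p (i + 1)) := by
      rw [Finset.sum_range]
      apply Finset.sum_congr rfl
      intro i _
      rw [lamOf, Gap_succ]
    have hBm : Bf c p m = 0 := by simp [Bf]
    rw [h1, abel_sum, hBm, mul_zero, sub_zero, Finset.sum_range]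
    have h2 : ∑ i : Fin m, Bf c p i.val = ∑ i : Fin m, p (c i.succ) :=
      Finset.sum_congr rfl fun i _ => Bf_val c p i
    rw [h2]
    have h3 := hp.1.2.2
    rw [sum_im hc, hp.2.1, zero_add] at h3
    exact h3

/-- extension of a finite sequence by zero -/
noncomputable def ext0 (l : Fin m → ℝ) (n : ℕ) : ℝ := if h : n < m then l ⟨n, h⟩ else 0

/-- tail sums -/
noncomputable def bl (l : Fin m → ℝ) (n : ℕ) : ℝ :=
  ∑ j ∈ Finset.Ico n m, ext0 l j / ((j : ℝ) + 1)

theorem bl_sub (l : Fin m → ℝ) {n : ℕ} (hn : n < m) :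
    bl l n - bl l (n + 1) = ext0 l n / ((n : ℝ) + 1) := by
  unfold bl
  rw [Finset.sum_eq_sum_Ico_succ_bot hn]
  ring

theorem bl_of_ge (l : Fin m → ℝ) {n : ℕ} (hn : m ≤ n) : bl l n = 0 := by
  unfold bl
  rw [Finset.Ico_eq_empty (by omega), Finset.sum_empty]

theorem ext0_nonneg {l : Fin m → ℝ} (hl : ∀ i, 0 ≤ l i) (n : ℕ) : 0 ≤ ext0 l n := by
  unfold ext0
  split_ifs
  · exact hl _
  · exact le_rfl

theorem bl_nonneg {l : Fin m → ℝ} (hl : ∀ i, 0 ≤ l i) (n : ℕ) : 0 ≤ bl l n :=
  Finset.sum_nonneg fun j _ => div_nonneg (ext0_nonneg hl j) (by positivity)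

theorem bl_anti {l : Fin m → ℝ} (hl : ∀ i, 0 ≤ l i) {n n' : ℕ} (h : n ≤ n') :
    bl l n' ≤ bl l n := by
  apply Finset.sum_le_sum_of_subset_of_nonneg
  · exact Finset.Ico_subset_Ico_left h
  · intro j _ _
    exact div_nonneg (ext0_nonneg hl j) (by positivity)

theorem sum_bl (l : Fin m → ℝ) : ∑ i ∈ Finset.range m, bl l i = ∑ i, l i := by
  have h := abel_sum (bl l) m
  rw [bl_of_ge l le_rfl, mul_zero, sub_zero] at h
  rw [← h, Finset.sum_range]
  apply Finset.sum_congr rfl
  intro i _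
  rw [bl_sub l i.2]
  have : ((i.val : ℝ) + 1) ≠ 0 := by positivity
  have h2 : ext0 l i.val = l i := by simp [ext0]
  rw [h2]
  field_simp

open scoped Classical in
/-- the point of the chamber simplex with given gap coordinates -/
noncomputable def pcOf (c : Fin (m + 1) → V) (l : Fin m → ℝ) : V → ℝ := fun v =>
  ∑ i : Fin m, if c i.succ = v then bl l i.val else 0

theorem pcOf_succ {c : Fin (m + 1) → V} (hc : Function.Injective c) (l : Fin m → ℝ)
    (i : Fin m) : pcOf c l (c i.succ) = bl l i.val := by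
  unfold pcOf
  rw [Finset.sum_eq_single i]
  · simp
  · intro j _ hj
    rw [if_neg]
    intro h
    exact hj (Fin.succ_injective m (hc h))
  · intro h
    exact absurd (Finset.mem_univ i) h

theorem pcOf_zero {c : Fin (m + 1) → V} (hc : Function.Injective c) (l : Fin m → ℝ) :
    pcOf c l (c 0) = 0 := by
  unfold pcOf
  apply Finset.sum_eq_zero
  intro j _
  rw [if_neg]
  intro h
  exact Fin.succ_ne_zero j (hc h)

theorem pcOf_not_mem {c : Fin (m + 1) → V} (l : Fin m → ℝ) {v : V} (hv : v ∉ im c) :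
    pcOf c l v = 0 := by
  unfold pcOf
  apply Finset.sum_eq_zero
  intro j _
  rw [if_neg]
  intro h
  exact hv (h ▸ apply_mem_im c _)

theorem pcOf_InSimp {c : Fin (m + 1) → V} (hc : Function.Injective c) {l : Fin m → ℝ}
    (hl : l ∈ stdSimplex ℝ (Fin m)) : InSimp c (pcOf c l) := by
  have hl0 : ∀ i, 0 ≤ l i := hl.1
  refine ⟨⟨?_, ?_, ?_⟩, pcOf_zero hc l, ?_⟩
  · intro v
    unfold pcOf
    apply Finset.sum_nonneg
    intro i _
    split_ifs
    · exact bl_nonneg hl0 _
    · exact le_rfl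
  · intro v hv
    exact pcOf_not_mem l hv
  · rw [sum_im hc, pcOf_zero hc, zero_add]
    have h1 : ∑ i : Fin m, pcOf c l (c i.succ) = ∑ i ∈ Finset.range m, bl l i := by
      rw [Finset.sum_range]
      exact Finset.sum_congr rfl fun i _ => pcOf_succ hc l i
    rw [h1, sum_bl]
    exact hl.2
  · intro i j hi hij
    have hj : j ≠ 0 := by
      rintro rfl
      exact hi (le_antisymm hij (Fin.zero_le _))
    obtain ⟨i', rfl⟩ := Fin.exists_succ_eq.mpr hi
    obtain ⟨j', rfl⟩ := Fin.exists_succ_eq.mpr hj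
    rw [pcOf_succ hc, pcOf_succ hc]
    exact bl_anti hl0 (Fin.succ_le_succ_iff.mp hij)

theorem Bf_pcOf {c : Fin (m + 1) → V} (hc : Function.Injective c) (l : Fin m → ℝ) (n : ℕ) :
    Bf c (pcOf c l) n = bl l n := by
  by_cases h : n < m
  · exact (Bf_val c (pcOf c l) ⟨n, h⟩).trans (pcOf_succ hc l ⟨n, h⟩)
  · rw [bl_of_ge l (not_lt.mp h)]
    simp [Bf, h]

theorem lamOf_pcOf {c : Fin (m + 1) → V} (hc : Function.Injective c) (l : Fin m → ℝ) :
    lamOf c (pcOf c l) = l := by
  funext i
  rw [lamOf, Gap_succ, Bf_pcOf hc, Bf_pcOf hc, bl_sub l i.2]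
  have h2 : ext0 l i.val = l i := by simp [ext0]
  rw [h2]
  field_simp

theorem bl_lamOf (c : Fin (m + 1) → V) (p : V → ℝ) : ∀ k n : ℕ, n + k = m →
    bl (lamOf c p) n = Bf c p n := by
  intro k
  induction k with
  | zero =>
    intro n hn
    have hn' : n = m := by omega
    rw [bl_of_ge _ hn'.ge, hn']
    simp [Bf]
  | succ k ih =>
    intro n hn
    have h1 := ih (n + 1) (by omega)
    have hlt : n < m := by omega
    have h2 := bl_sub (lamOf c p) hlt
    have h3 : ext0 (lamOf c p) n = ((n : ℝ) + 1) * (Bf c p n - Bf c p (n + 1)) := by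
      unfold ext0
      rw [dif_pos hlt, lamOf, Gap_succ]
    rw [h3, h1] at h2
    have : ((n : ℝ) + 1) ≠ 0 := by positivity
    field_simp at h2
    linarith

theorem pcOf_lamOf {c : Fin (m + 1) → V} (hc : Function.Injective c) {p : V → ℝ}
    (hp : InSimp c p) : pcOf c (lamOf c p) = p := by
  funext v
  by_cases hv : v ∈ im c
  · obtain ⟨i, rfl⟩ := mem_im.mp hv
    by_cases hi : i = 0
    · rw [hi, pcOf_zero hc, hp.2.1]
    · obtain ⟨i', rfl⟩ := Fin.exists_succ_eq.mpr hi
      rw [pcOf_succ hc, bl_lamOf c p (m - i'.val) i'.val (by omega), Bf_val]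
  · rw [pcOf_not_mem _ hv, hp.1.2.1 v hv]

theorem continuous_Bf (c : Fin (m + 1) → V) (n : ℕ) : Continuous (fun p : V → ℝ => Bf c p n) := by
  unfold Bf
  split_ifs
  · exact continuous_apply _
  · exact continuous_const

theorem continuous_lamOf (c : Fin (m + 1) → V) : Continuous (lamOf c) := by
  apply continuous_pi
  intro i
  unfold lamOf
  simp only [Gap_succ]
  exact continuous_const.mul ((continuous_Bf c _).sub (continuous_Bf c _))

theorem continuous_ext0 (n : ℕ) : Continuous (fun l : Fin m → ℝ => ext0 l n) := by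
  unfold ext0
  split_ifs
  · exact continuous_apply _
  · exact continuous_const

theorem continuous_bl (n : ℕ) : Continuous (fun l : Fin m → ℝ => bl l n) :=
  continuous_finsetSum _ fun j _ => (continuous_ext0 j).div_const _

theorem continuous_pcOf (c : Fin (m + 1) → V) : Continuous (pcOf c) := by
  classical
  apply continuous_pi
  intro v
  unfold pcOf
  apply continuous_finsetSum
  intro i _
  split_ifs
  · exact continuous_bl _
  · exact continuous_const

end FlowData

end Pool.Agent.TH632
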