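import Pool.Agent.TH632.Defs

/-!
# A small calculus of piecewise affine maps
-/

open Set

namespace Pool.Agent.TH632

section

variable {E F G : Type*} [AddCommGroup E] [Module ℝ E] [AddCommGroup F] [Module ℝ F]
  [AddCommGroup G] [Module ℝ G]

/-- polyhedra indexed by an arbitrary finite type -/
theorem IsPolyhedron.of_finite {ι : Type*} [Finite ι] (l : ι → E →ₗ[ℝ] ℝ) (c : ι → ℝ) :
    IsPolyhedron {x | ∀ i, l i x ≤ c i} := by
  obtain ⟨n, ⟨e⟩⟩ := Finite.exists_equiv_fin ι
  refine ⟨n, fun i => l (e.symm i), fun i => c (e.symm i), ?_⟩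
  ext x
  constructor
  · intro h i
    exact h (e.symm i)
  · intro h i
    have := h (e i)
    simpa using this

theorem IsPolyhedron.univ : IsPolyhedron (Set.univ : Set E) := by
  refine ⟨0, fun i => i.elim0, fun i => i.elim0, ?_⟩
  ext x
  simp

theorem IsPolyhedron.inter {P Q : Set E} (hP : IsPolyhedron P) (hQ : IsPolyhedron Q) :
    IsPolyhedron (P ∩ Q) := by
  obtain ⟨n, l, c, rfl⟩ := hP
  obtain ⟨n', l', c', rfl⟩ := hQ
  have := IsPolyhedron.of_finite (Sum.elim l l') (Sum.elim c c')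
  convert this using 1
  ext x
  simp [Sum.forall]

/-- preimages of polyhedra under affine maps -/
theorem IsPolyhedron.preimage {P : Set F} (hP : IsPolyhedron P) (A : E →ᵃ[ℝ] F) :
    IsPolyhedron (A ⁻¹' P) := by
  obtain ⟨n, l, c, rfl⟩ := hP
  refine ⟨n, fun i => (l i).comp A.linear, fun i => c i - l i (A 0), ?_⟩
  ext x
  have hx : A x = A.linear x + A 0 := by
    have := A.map_vadd 0 x
    simpa using this
  simp only [Set.mem_preimage, Set.mem_ofPred_eq, LinearMap.comp_apply]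
  refine forall_congr' fun i => ?_
  rw [hx, map_add]
  constructor <;> intro h <;> linarith

theorem IsPolyhedron.halfspace (l : E →ₗ[ℝ] ℝ) (c : ℝ) : IsPolyhedron {x | l x ≤ c} := by
  have := IsPolyhedron.of_finite (fun _ : Unit => l) (fun _ => c)
  simpa using this

/-- globally piecewise affine maps, with finitely many pieces -/
def PWA (f : E → F) : Prop :=
  ∃ (ι : Type) (_ : Finite ι) (P : ι → Set E), (∀ i, IsPolyhedron (P i)) ∧ (∀ x, ∃ i, x ∈ P i) ∧
    ∀ i, ∃ A : E →ᵃ[ℝ] F, ∀ x ∈ P i, f x = A x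

theorem PWA.affine (A : E →ᵃ[ℝ] F) : PWA (fun x => A x) :=
  ⟨Unit, inferInstance, fun _ => Set.univ, fun _ => IsPolyhedron.univ, fun _ => ⟨(), trivial⟩,
    fun _ => ⟨A, fun _ _ => rfl⟩⟩

theorem PWA.linear (A : E →ₗ[ℝ] F) : PWA (fun x => A x) := PWA.affine A.toAffineMap

theorem PWA.const (b : F) : PWA (fun _ : E => b) := PWA.affine (AffineMap.const ℝ E b)

theorem PWA.comp {g : F → G} {f : E → F} (hg : PWA g) (hf : PWA f) : PWA (fun x => g (f x)) := by
  obtain ⟨ι, hι, P, hP, hPc, hPA⟩ := hf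
  obtain ⟨κ, hκ, Q, hQ, hQc, hQA⟩ := hg
  choose A hA using hPA
  choose B hB using hQA
  refine ⟨ι × κ, inferInstance, fun q => P q.1 ∩ (A q.1) ⁻¹' (Q q.2),
    fun q => (hP q.1).inter ((hQ q.2).preimage _), fun x => ?_, fun q =>
      ⟨(B q.2).comp (A q.1), fun x hx => ?_⟩⟩
  · obtain ⟨i, hi⟩ := hPc x
    obtain ⟨j, hj⟩ := hQc (f x)
    refine ⟨(i, j), hi, ?_⟩
    change A i x ∈ Q j
    rw [← hA i x hi]; exact hj
  · change g (f x) = B q.2 (A q.1 x)
    rw [hA q.1 x hx.1]
    exact hB q.2 _ hx.2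

theorem PWA.prodMk {f : E → F} {g : E → G} (hf : PWA f) (hg : PWA g) :
    PWA (fun x => (f x, g x)) := by
  obtain ⟨ι, hι, P, hP, hPc, hPA⟩ := hf
  obtain ⟨κ, hκ, Q, hQ, hQc, hQA⟩ := hg
  choose A hA using hPA
  choose B hB using hQA
  refine ⟨ι × κ, inferInstance, fun q => P q.1 ∩ Q q.2,
    fun q => (hP q.1).inter (hQ q.2), fun x => ?_, fun q =>
      ⟨(A q.1).prod (B q.2), fun x hx => ?_⟩⟩
  · obtain ⟨i, hi⟩ := hPc x
    obtain ⟨j, hj⟩ := hQc x
    exact ⟨(i, j), hi, hj⟩
  · simp only [AffineMap.prod_apply]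
    rw [hA q.1 x hx.1, hB q.2 x hx.2]

theorem PWA.pi {κ : Type} [Finite κ] {f : κ → E → F} (hf : ∀ k, PWA (f k)) :
    PWA (fun x k => f k x) := by
  choose ι hι P hP hPc hPA using hf
  choose A hA using hPA
  refine ⟨∀ k, ι k, inferInstance, fun q => ⋂ k, P k (q k), fun q => ?_, fun x => ?_, fun q =>
      ⟨AffineMap.pi (fun k => A k (q k)), fun x hx => ?_⟩⟩
  · choose n l c hlc using fun k => hP k (q k)
    have := IsPolyhedron.of_finite (ι := Σ k, Fin (n k)) (fun j => l j.1 j.2) (fun j => c j.1 j.2)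
    convert this using 1
    ext x
    simp only [Set.mem_iInter, Sigma.forall, Set.mem_ofPred_eq]
    refine forall_congr' fun k => ?_
    rw [hlc k]
    simp
  · choose i hi using fun k => hPc k x
    exact ⟨i, Set.mem_iInter.mpr hi⟩
  · funext k
    simp only [AffineMap.pi_apply]
    exact hA k (q k) x (Set.mem_iInter.mp hx k)

theorem PWA.add {f g : E → F} (hf : PWA f) (hg : PWA g) : PWA (fun x => f x + g x) :=
  (PWA.linear ((LinearMap.fst ℝ F F) + (LinearMap.snd ℝ F F))).comp (hf.prodMk hg)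

theorem PWA.smul (a : ℝ) {f : E → F} (hf : PWA f) : PWA (fun x => a • f x) :=
  (PWA.linear (a • (LinearMap.id : F →ₗ[ℝ] F))).comp hf

theorem PWA.sum {κ : Type*} (s : Finset κ) {f : κ → E → F} (hf : ∀ k ∈ s, PWA (f k)) :
    PWA (fun x => ∑ k ∈ s, f k x) := by
  classical
  induction s using Finset.induction_on with
  | empty => simpa using PWA.const (0 : F)
  | insert a s ha ih =>
    have h1 := ih (fun k hk => hf k (Finset.mem_insert_of_mem hk))
    have h2 := (hf a (Finset.mem_insert_self a s)).add h1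
    simpa [Finset.sum_insert ha] using h2

theorem PWA.min_real : PWA (fun x : ℝ × ℝ => min x.1 x.2) := by
  refine ⟨Bool, inferInstance, fun b => if b then {x | x.1 ≤ x.2} else {x | x.2 ≤ x.1}, ?_, ?_, ?_⟩
  · intro b
    cases b
    · have := IsPolyhedron.halfspace ((LinearMap.snd ℝ ℝ ℝ) - (LinearMap.fst ℝ ℝ ℝ)) 0
      convert this using 1
      ext x
      simp
    · have := IsPolyhedron.halfspace ((LinearMap.fst ℝ ℝ ℝ) - (LinearMap.snd ℝ ℝ ℝ)) 0
      convert this using 1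
      ext x
      simp
  · intro x
    rcases le_total x.1 x.2 with h | h
    · exact ⟨true, h⟩
    · exact ⟨false, h⟩
  · intro b
    cases b
    · exact ⟨(LinearMap.snd ℝ ℝ ℝ).toAffineMap, fun x hx => min_eq_right hx⟩
    · exact ⟨(LinearMap.fst ℝ ℝ ℝ).toAffineMap, fun x hx => min_eq_left hx⟩

theorem PWA.min {f g : E → ℝ} (hf : PWA f) (hg : PWA g) : PWA (fun x => min (f x) (g x)) :=
  PWA.min_real.comp (hf.prodMk hg)

theorem PWA.max {f g : E → ℝ} (hf : PWA f) (hg : PWA g) : PWA (fun x => max (f x) (g x)) := by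
  have h := ((hf.smul (-1)).min (hg.smul (-1))).smul (-1)
  convert h using 1
  funext x
  simp only [smul_eq_mul, neg_mul, one_mul, min_neg_neg, neg_neg]

end

end Pool.Agent.TH632
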