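import Pool.Agent.TH632.PL
import Pool.Agent.TH632.Cover2

/-!
# The map is piecewise affine on every cell
-/

open Set Topology

namespace Pool.Agent.TH632

universe u

/-! ### model functions -/

/-- coordinate functional -/
def pr {V : Type u} (v : V) : (V → ℝ) →ₗ[ℝ] ℝ := LinearMap.proj v

@[simp] theorem pr_apply {V : Type u} (v : V) (x : V → ℝ) : pr v x = x v := rfl

theorem pwa_coord {V : Type u} (v : V) : PWA (fun x : V → ℝ => x v) :=
  PWA.linear (pr v)

section

variable {m : ℕ}

theorem pwa_Lc (i : Fin (m + 1)) : PWA (fun X : Fin m → ℝ => Lc X i) := by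
  refine Fin.cases ?_ (fun k => ?_) i
  · have h1 : PWA (fun X : Fin m → ℝ => (1 / (m : ℝ)) • (∑ k, X k + (-1))) :=
      ((PWA.sum Finset.univ fun k _ => pwa_coord k).add (PWA.const (-1))).smul _
    convert h1 using 1
    funext X
    rw [Lc_zero]
    simp only [smul_eq_mul]
    ring
  · simp only [Lc_succ]
    exact pwa_coord k

theorem pwa_inf' {ι : Type*} {E : Type*} [AddCommGroup E] [Module ℝ E] (s : Finset ι)
    (hs : s.Nonempty) {f : ι → E → ℝ} (hf : ∀ i ∈ s, PWA (f i)) :
    PWA (fun x => s.inf' hs (fun i => f i x)) := by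
  classical
  induction hs using Finset.Nonempty.cons_induction with
  | singleton a =>
    simpa using hf a (Finset.mem_singleton_self a)
  | cons a s ha hs ih =>
    have h1 := ih (fun i hi => hf i (Finset.mem_cons_of_mem hi))
    have h2 := (hf a (Finset.mem_cons_self a s)).min h1
    convert h2 using 1
    funext x
    rw [Finset.inf'_cons hs]

theorem pwa_qt : PWA (qt : (Fin m → ℝ) → ℝ) := by
  have h : (qt : (Fin m → ℝ) → ℝ) = fun X => Finset.univ.inf' Finset.univ_nonempty
      (fun i : Fin (m + 1) => Lc X i) := by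
    funext X
    rw [Finset.inf'_univ_eq_ciInf]
    rfl
  rw [h]
  exact pwa_inf' _ _ fun i _ => pwa_Lc i

theorem pwa_refl (ε : ℤˣ) : PWA (refl ε : (Fin m → ℝ) → (Fin m → ℝ)) := by
  rcases Int.units_eq_one_or ε with h | h <;> subst h
  · have : (refl 1 : (Fin m → ℝ) → (Fin m → ℝ)) = fun X => (LinearMap.id : (Fin m → ℝ) →ₗ[ℝ] _) X := by
      funext X; exact refl_one X
    rw [this]; exact PWA.linear _
  · have : (refl (-1) : (Fin m → ℝ) → (Fin m → ℝ)) = fun X k => X k + (-2 : ℝ) • qt X := by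
      funext X; rw [refl_neg_one]; rfl
    rw [this]
    exact PWA.pi fun k => (pwa_coord k).add (pwa_qt.smul (-2))

/-- truncated `g` -/
noncomputable def gN (m N : ℕ) (b t : ℝ) : ℝ :=
  b + ∑ k ∈ Finset.range N, min b (max (t + (-(k / m : ℝ))) 0)

theorem pwa_gN (m N : ℕ) {E : Type*} [AddCommGroup E] [Module ℝ E] {b t : E → ℝ}
    (hb : PWA b) (ht : PWA t) : PWA (fun x => gN m N (b x) (t x)) := by
  unfold gN
  apply hb.add
  apply PWA.sum
  intro k _
  exact hb.min ((ht.add (PWA.const _)).max (PWA.const 0))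

theorem pwa_Bf {V : Type u} (c : Fin (m + 1) → V) (n : ℕ) :
    PWA (fun q : (V → ℝ) × ℝ => FlowData.Bf c q.1 n) := by
  unfold FlowData.Bf
  split_ifs with h
  · exact (pwa_coord _).comp (PWA.linear (LinearMap.fst ℝ (V → ℝ) ℝ))
  · exact PWA.const 0

theorem pwa_lamOf {V : Type u} (c : Fin (m + 1) → V) (k : Fin m) :
    PWA (fun q : (V → ℝ) × ℝ => FlowData.lamOf c q.1 k) := by
  unfold FlowData.lamOf
  simp only [FlowData.Gap_succ]
  have h := ((pwa_Bf c k.val).add ((pwa_Bf c (k.val + 1)).smul (-1))).smul ((k.val : ℝ) + 1)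
  convert h using 1
  funext q
  simp only [smul_eq_mul]
  ring

end

namespace FlowData

variable {V : Type u} {m : ℕ} (D : FlowData V m)

/-- moving in two portions -/
theorem Fl_mv {σ : Finset V} (hσ : σ ∈ D.C) {y : V → ℝ} (hy : y ∈ simplex σ) {a s : ℝ}
    (ha : 0 ≤ a) (ha' : a ≤ y (D.apex σ)) (hs : 0 ≤ s) :
    D.Fl σ y (a + s) = D.Fl σ (D.mv σ a y) s := by
  have hy' := D.mv_mem_simplex' hσ hy ha ha'
  have hinv := D.inv_of_mem hσ hy (add_nonneg ha hs)
  have hinv' := D.inv_of_mem hσ hy' hs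
  have hst : D.step σ (y, a + s) = D.step σ (D.mv σ a y, s) := by
    unfold step
    simp only
    rw [D.mv_apex, D.mv_mv]
    have e : min (a + s) (y (D.apex σ)) = a + min s (y (D.apex σ) - a) := by
      rw [min_def, min_def]
      split_ifs <;> linarith
    rw [e]
    ext1
    · rfl
    · simp only; ring
  obtain ⟨k, hk⟩ := D.exists_end (D.par_mem σ hσ) (D.step_inv hσ hinv)
  have h1 : (D.Fn (k + 1) σ (y, a + s)).2 = 0 := by rw [Fn_succ]; exact hk
  have h2 : (D.Fn (k + 1) σ (D.mv σ a y, s)).2 = 0 := by rw [Fn_succ, ← hst]; exact hk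
  rw [D.Fl_eq hσ hinv h1, D.Fl_eq hσ hinv' h2, Fn_succ, Fn_succ, hst]

open scoped Classical in
/-- the linear map giving the entry point on the piece where `v` has minimal coordinate -/
noncomputable def Bv (σ : Finset V) (v : V) : (V → ℝ) →ₗ[ℝ] (V → ℝ) :=
  LinearMap.pi fun w =>
    if w = D.apex σ then pr w + (m : ℝ) • pr v
    else if w ∈ σ then pr w - pr v else pr w

theorem Bv_eq {σ : Finset V} {v : V} {x : V → ℝ} (h : x v = D.mu σ x) (hm : 0 < m) :
    D.Bv σ v x = D.bk σ x := by
  classical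
  have hm' : (m : ℝ) ≠ 0 := by positivity
  funext w
  simp only [Bv, bk, mv, LinearMap.pi_apply]
  split_ifs
  · simp [h]
  · simp only [LinearMap.sub_apply, pr_apply, h]
    field_simp
    ring
  · simp

theorem two_G {σ : Finset V} (hσ : σ ∈ D.C) {x : V → ℝ} (hx : x ∈ simplex σ) :
    two (D.G x) = ((two (D.base σ (D.bk σ x))).1,
      (two (D.base σ (D.bk σ x))).2 + m * D.mu σ x) := by
  rw [D.G_eq hσ hx, D.Ps_eq_comb_base, two_comb]

/-- polyhedral pieces of a cell lying in one chamber, with affine flow data -/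
theorem exists_pieces : ∀ (n : ℕ) {σ : Finset V} (_ : D.rank σ = n) (_ : σ ∈ D.C),
    ∃ (ι : Type) (_ : Finite ι) (P : ι → Set (V → ℝ)), (∀ i, IsPolyhedron (P i)) ∧
      (∀ x ∈ simplex σ, ∃ i, x ∈ P i) ∧
      ∀ i, ∃ (c : Fin (m + 1) → V) (A : (V → ℝ) →ᵃ[ℝ] (V → ℝ) × ℝ), D.IsChamber c ∧
        ∀ x ∈ simplex σ, x ∈ P i → two (D.G x) = A x ∧ InSimp c (D.G x).1 ∧
          ∀ s, 0 ≤ s → D.Fl (im c) (D.G x).1 ((D.G x).2.1 + s) = D.Fl σ x s := by
  intro n
  induction n using Nat.strong_induction_on with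
  | _ n ih =>
    intro σ hn hσ
    classical
    have hm := D.mpos'
    have hmR := D.mR_pos
    -- it is enough to treat each region `v` minimal
    have key : ∀ v : {v // v ∈ σ ∧ v ≠ D.apex σ},
        ∃ (ι : Type) (_ : Finite ι) (P : ι → Set (V → ℝ)), (∀ i, IsPolyhedron (P i)) ∧
          (∀ x ∈ simplex σ, x v = D.mu σ x → ∃ i, x ∈ P i) ∧
          ∀ i, ∃ (c : Fin (m + 1) → V) (A : (V → ℝ) →ᵃ[ℝ] (V → ℝ) × ℝ), D.IsChamber c ∧
            ∀ x ∈ simplex σ, x v = D.mu σ x → x ∈ P i → two (D.G x) = A x ∧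
              InSimp c (D.G x).1 ∧
              ∀ s, 0 ≤ s → D.Fl (im c) (D.G x).1 ((D.G x).2.1 + s) = D.Fl σ x s := by
      rintro ⟨v, hv, hne⟩
      simp only
      have hentry : ∀ x ∈ simplex σ, x v = D.mu σ x →
          D.bk σ x ∈ simplex σ ∧ D.bk σ x v = 0 ∧ 0 ≤ (m : ℝ) * D.mu σ x ∧
          (m : ℝ) * D.mu σ x ≤ D.bk σ x (D.apex σ) := by
        intro x hx hxv
        refine ⟨D.bk_mem_simplex hσ hx, by rw [D.bk_of_mem x hv hne, hxv, sub_self],
          mul_nonneg hmR.le (D.mu_nonneg hσ hx), ?_⟩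
        rw [D.bk_apex]
        have := hx.1 (D.apex σ)
        linarith
      by_cases hex : ∃ κ ∈ D.C, D.par κ = σ ∧ v ∉ κ
      · obtain ⟨κ, hκ, hpar, hvκ⟩ := hex
        have hr := D.rank_lt κ hκ
        rw [hpar, hn] at hr
        obtain ⟨ι, hι, P, hP, hPc, hPA⟩ := ih _ hr rfl hκ
        refine ⟨ι, hι, fun i => (D.Bv σ v).toAffineMap ⁻¹' (P i),
          fun i => (hP i).preimage _, ?_, ?_⟩
        · intro x hx hxv
          obtain ⟨h1, h2, _, _⟩ := hentry x hx hxv
          obtain ⟨i, hi⟩ := hPc _ (D.mem_child hκ hpar h1 hv hvκ h2)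
          refine ⟨i, ?_⟩
          change D.Bv σ v x ∈ P i
          rw [D.Bv_eq hxv hm]
          exact hi
        · intro i
          obtain ⟨c, A, hc, hcA⟩ := hPA i
          refine ⟨c, (A.comp (D.Bv σ v).toAffineMap) +
            (((0 : (V → ℝ) →ₗ[ℝ] (V → ℝ)).prod ((m : ℝ) • pr v)).toAffineMap),
            hc, ?_⟩
          intro x hx hxv hxi
          obtain ⟨h1, h2, h3, h4⟩ := hentry x hx hxv
          have hxi' : D.bk σ x ∈ P i := by
            have : D.Bv σ v x ∈ P i := hxi
            rwa [D.Bv_eq hxv hm] at this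
          have hyκ := D.mem_child hκ hpar h1 hv hvκ h2
          obtain ⟨i1, i2, i3⟩ := hcA _ hyκ hxi'
          have hbase : D.base σ (D.bk σ x) = D.G (D.bk σ x) := by
            rw [D.base_child hκ hpar h1 hv hvκ h2, D.G_eq hκ hyκ]
          have hG := D.two_G hσ hx
          rw [hbase] at hG
          have hG1 : (D.G x).1 = (D.G (D.bk σ x)).1 := by
            have e := congrArg Prod.fst hG
            exact e
          have hG2 : (D.G x).2.1 = (D.G (D.bk σ x)).2.1 + m * D.mu σ x := by
            have e := congrArg Prod.snd hG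
            exact e
          refine ⟨?_, ?_, ?_⟩
          · rw [hG]
            change _ = A (D.Bv σ v x) + ((0 : V → ℝ), (m : ℝ) * x v)
            rw [D.Bv_eq hxv hm, ← i1, hxv]
            ext1
            · simp
            · simp
          · rw [hG1]; exact i2
          · intro s hs
            rw [hG1, hG2]
            have e1 := i3 (m * D.mu σ x + s) (by linarith)
            have e2 : (D.G (D.bk σ x)).2.1 + (m * D.mu σ x + s)
                = (D.G (D.bk σ x)).2.1 + m * D.mu σ x + s := by ring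
            rw [e2] at e1
            rw [e1]
            have ha : D.bk σ x (D.apex κ) = 0 := h1.2.1 _ (D.apex_not_mem_of_child hκ hpar)
            rw [D.Fl_par hκ hyκ ha (by linarith), hpar, D.Fl_mv hσ h1 h3 h4 hs, D.mv_bk]
      · push Not at hex
        -- the free case: one piece for each ordering
        let ι := {c : Fin (m + 1) → {w // w ∈ σ} // Function.Injective c ∧ (c 0 : V) = v}
        have hfin : Finite ι := inferInstance
        have himι : ∀ c : ι, im (fun i => (c.1 i : V)) = σ ∧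
            Function.Injective (fun i => (c.1 i : V)) := by
          intro c
          have hinj : Function.Injective (fun i => (c.1 i : V)) :=
            Subtype.val_injective.comp c.2.1
          refine ⟨Finset.eq_of_subset_of_card_le ?_ (by rw [card_im hinj, D.card σ hσ]), hinj⟩
          intro w hw
          obtain ⟨i, hi⟩ := mem_im.mp hw
          rw [← hi]; exact (c.1 i).2
        obtain ⟨nι, ⟨eι⟩⟩ := Finite.exists_equiv_fin ι
        refine ⟨Fin nι, inferInstance, fun i => (D.Bv σ v).toAffineMap ⁻¹'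
          {p | ∀ q : {q : Fin (m + 1) × Fin (m + 1) // q.1 ≠ 0 ∧ q.1 ≤ q.2},
            (pr ((eι.symm i).1 q.1.2 : V) - pr ((eι.symm i).1 q.1.1 : V)) p ≤ 0},
          fun i => (IsPolyhedron.of_finite _ _).preimage _, ?_, ?_⟩
        · intro x hx hxv
          obtain ⟨c, hinj, him, hc0, hanti⟩ := exists_sorted (D.card σ hσ) hv (D.bk σ x)
          let c' : ι := ⟨fun i => ⟨c i, him ▸ apply_mem_im c i⟩,
            fun i j h => hinj (congrArg Subtype.val h), hc0⟩
          refine ⟨eι c', ?_⟩
          change ∀ q : {q : Fin (m + 1) × Fin (m + 1) // q.1 ≠ 0 ∧ q.1 ≤ q.2},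
            (pr ((eι.symm (eι c')).1 q.1.2 : V) - pr ((eι.symm (eι c')).1 q.1.1 : V))
              (D.Bv σ v x) ≤ 0
          rw [D.Bv_eq hxv hm]
          rintro ⟨⟨i, j⟩, hi, hij⟩
          simp only [Equiv.symm_apply_apply, LinearMap.sub_apply, pr_apply]
          have := hanti i j hi hij
          change D.bk σ x (c j) - D.bk σ x (c i) ≤ 0
          linarith
        · intro i
          set c' := eι.symm i with hc'
          set c : Fin (m + 1) → V := fun i => (c'.1 i : V) with hcdef
          obtain ⟨him, hinj⟩ := himι c'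
          have hc0 : c 0 = v := c'.2.2
          have hch : D.IsChamber c := by
            refine ⟨⟨hinj, him ▸ hσ⟩, ?_, ?_⟩
            · rw [hc0, him]; exact hne
            · intro κ hκ hp
              rw [hc0]
              exact hex κ hκ (hp.trans him)
          refine ⟨c, ((D.Bv σ v).prod ((m : ℝ) • pr v)).toAffineMap, hch, ?_⟩
          intro x hx hxv hxi
          obtain ⟨h1, h2, h3, h4⟩ := hentry x hx hxv
          have hbase := D.base_free h1 hv h2 hex
          have hG := D.two_G hσ hx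
          rw [hbase] at hG
          have hG1 : (D.G x).1 = D.bk σ x := by
            have e := congrArg Prod.fst hG
            exact e
          have hG2 : (D.G x).2.1 = m * D.mu σ x := by
            have := congrArg Prod.snd hG
            simpa [two] using this
          have hS : InSimp c (D.bk σ x) := by
            refine ⟨by rw [him]; exact h1, by rw [hc0]; exact h2, ?_⟩
            intro a b ha hab
            have hxi' : ∀ q : {q : Fin (m + 1) × Fin (m + 1) // q.1 ≠ 0 ∧ q.1 ≤ q.2},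
              (pr ((eι.symm i).1 q.1.2 : V) - pr ((eι.symm i).1 q.1.1 : V)) (D.Bv σ v x) ≤ 0 := hxi
            have := hxi' ⟨(a, b), ha, hab⟩
            rw [D.Bv_eq hxv hm] at this
            simp only [LinearMap.sub_apply, pr_apply] at this
            change D.bk σ x (c b) ≤ D.bk σ x (c a)
            have h5 : D.bk σ x (c b) - D.bk σ x (c a) ≤ 0 := this
            linarith
          refine ⟨?_, by rw [hG1]; exact hS, ?_⟩
          · rw [hG]
            change _ = (D.Bv σ v x, (m : ℝ) * x v)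
            rw [D.Bv_eq hxv hm, hxv]
            simp [two]
          · intro s hs
            rw [hG1, hG2, him, D.Fl_mv hσ h1 h3 h4 hs, D.mv_bk]
    -- assemble
    choose ι hι P hP hPc hPA using key
    have hfinb : Finite {v // v ∈ σ ∧ v ≠ D.apex σ} := D.finite_base σ
    obtain ⟨nb, ⟨eb⟩⟩ := Finite.exists_equiv_fin {v // v ∈ σ ∧ v ≠ D.apex σ}
    refine ⟨Σ j : Fin nb, ι (eb.symm j), inferInstance, fun q => P (eb.symm q.1) q.2 ∩
      {x | ∀ w : {w // w ∈ σ ∧ w ≠ D.apex σ},
        (pr ((eb.symm q.1 : {v // v ∈ σ ∧ v ≠ D.apex σ}) : V) - pr (w : V)) x ≤ 0}, fun q => (hP _ _).inter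
            (IsPolyhedron.of_finite _ _), ?_, ?_⟩
    · intro x hx
      obtain ⟨v, hv, hne, hxv⟩ := D.exists_eq_mu hσ x
      obtain ⟨i, hi⟩ := hPc ⟨v, hv, hne⟩ x hx hxv
      obtain ⟨j, hj⟩ := eb.symm.surjective ⟨v, hv, hne⟩
      have hgen : ∀ (v' : {v // v ∈ σ ∧ v ≠ D.apex σ}) (hv' : v' = ⟨v, hv, hne⟩),
          ∃ i : ι v', x ∈ P v' i := by
        rintro v' rfl
        exact ⟨i, hi⟩
      obtain ⟨i', hi'⟩ := hgen _ hj
      refine ⟨⟨j, i'⟩, hi', ?_⟩
      rintro ⟨w, hw, hwne⟩
      have hjv : ((eb.symm j : {v // v ∈ σ ∧ v ≠ D.apex σ}) : V) = v := by rw [hj]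
      simp only [LinearMap.sub_apply, pr_apply, hjv]
      have := D.mu_le x hw hwne
      rw [hxv]
      linarith
    · rintro ⟨j, i⟩
      obtain ⟨c, A, hc, hcA⟩ := hPA (eb.symm j) i
      refine ⟨c, A, hc, ?_⟩
      rintro x hx ⟨hx1, hx2⟩
      apply hcA x hx _ hx1
      symm
      apply D.mu_eq_of hσ (eb.symm j).2.1 (eb.symm j).2.2
      intro w hw hwne
      have hx2' : ∀ w : {w // w ∈ σ ∧ w ≠ D.apex σ},
        (pr ((eb.symm j : {v // v ∈ σ ∧ v ≠ D.apex σ}) : V) - pr (w : V)) x ≤ 0 := hx2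
      have := hx2' ⟨w, hw, hwne⟩
      simp only [LinearMap.sub_apply, pr_apply] at this
      linarith

end FlowData

end Pool.Agent.TH632
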