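import Pool.Agent.TH632.PLMap

/-!
# The map is PL
-/

open Set Topology

namespace Pool.Agent.TH632

universe u

theorem simplex_le_one {V : Type u} {s : Finset V} {x : V → ℝ} (hx : x ∈ simplex s) (v : V) :
    x v ≤ 1 := by
  by_cases hv : v ∈ s
  · rw [← hx.2.2]
    exact Finset.single_le_sum (f := x) (fun w _ => hx.1 w) hv
  · rw [hx.2.1 v hv]; norm_num

theorem simplex_mono {V : Type u} {s t : Finset V} (h : s ⊆ t) : simplex s ⊆ simplex t := by
  intro x hx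
  refine ⟨hx.1, fun v hv => hx.2.1 v (fun hs => hv (h hs)), ?_⟩
  rw [← hx.2.2]
  symm
  apply Finset.sum_subset h
  intro v _ hv
  exact hx.2.1 v hv

namespace FlowData

variable {V : Type u} {m : ℕ} (D : FlowData V m)

theorem time_le : ∀ (n : ℕ) {σ : Finset V} (_ : D.rank σ = n) (_ : σ ∈ D.C)
    {x : V → ℝ} (_ : x ∈ simplex σ), (D.G x).2.1 ≤ m * ((n : ℝ) + 1) := by
  intro n
  induction n using Nat.strong_induction_on with
  | _ n ih =>
    intro σ hn hσ x hx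
    have hmR := D.mR_pos
    obtain ⟨v, hv, hne, hxv⟩ := D.exists_eq_mu hσ x
    have h1 := D.bk_mem_simplex hσ hx
    have h2 : D.bk σ x v = 0 := by rw [D.bk_of_mem x hv hne, hxv, sub_self]
    have h3 : D.mu σ x ≤ 1 := by rw [← hxv]; exact simplex_le_one hx v
    have hG := congrArg Prod.snd (D.two_G hσ hx)
    have hG' : (D.G x).2.1 = (D.base σ (D.bk σ x)).2.1 + m * D.mu σ x := hG
    have hmu : (m : ℝ) * D.mu σ x ≤ m := by nlinarith
    by_cases hex : ∃ κ ∈ D.C, D.par κ = σ ∧ v ∉ κ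
    · obtain ⟨κ, hκ, hpar, hvκ⟩ := hex
      have hr := D.rank_lt κ hκ
      rw [hpar, hn] at hr
      have hyκ := D.mem_child hκ hpar h1 hv hvκ h2
      have h4 := ih _ hr rfl hκ hyκ
      rw [hG', D.base_child hκ hpar h1 hv hvκ h2, ← D.G_eq hκ hyκ]
      have h5 : ((D.rank κ : ℝ)) + 1 ≤ n := by exact_mod_cast hr
      have h6 : (m : ℝ) * ((D.rank κ : ℝ) + 1) ≤ m * n := by nlinarith
      nlinarith
    · push Not at hex
      rw [hG', D.base_free h1 hv h2 hex]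
      simp only
      have : (0 : ℝ) ≤ n := by positivity
      nlinarith

theorem exists_PL (o : (Fin (m + 1) → V) → ℤˣ) {σ : Finset V} (hσ : σ ∈ D.C) :
    ∃ (n : ℕ) (P : Fin n → Set (V → ℝ)),
      (∀ i, IsPolyhedron (P i)) ∧ simplex σ ⊆ ⋃ i, P i ∧
      ∀ i, ∃ A : (V → ℝ) →ᵃ[ℝ] (Fin m → ℝ), ∀ x : D.space, (x : V → ℝ) ∈ simplex σ →
        (x : V → ℝ) ∈ P i → D.F o x = A x := by
  obtain ⟨ι, hι, P, hP, hPc, hPA⟩ := D.exists_pieces _ rfl hσ
  choose c A hc hcA using hPA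
  obtain ⟨N, hN⟩ := exists_nat_ge ((m : ℝ) * (m * ((D.rank σ : ℝ) + 1)))
  have hh : ∀ i, PWA (fun x : V → ℝ => refl (o (c i)) (fun k : Fin m =>
      gN m N (lamOf (c i) (A i x).1 k) (A i x).2)) := by
    intro i
    have h1 : PWA (fun x : V → ℝ => A i x) := PWA.affine (A i)
    have h2 : PWA (fun q : (V → ℝ) × ℝ => fun k : Fin m => gN m N (lamOf (c i) q.1 k) q.2) :=
      PWA.pi fun k => pwa_gN m N (pwa_lamOf (c i) k) (PWA.linear (LinearMap.snd ℝ (V → ℝ) ℝ))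
    exact (pwa_refl (o (c i))).comp (h2.comp h1)
  choose κ hκ Q hQ hQc B hB using hh
  obtain ⟨n, ⟨e⟩⟩ := Finite.exists_equiv_fin (Σ i, κ i)
  refine ⟨n, fun j => P (e.symm j).1 ∩ Q (e.symm j).1 (e.symm j).2,
    fun j => (hP _).inter (hQ _ _), ?_, ?_⟩
  · intro x hx
    obtain ⟨i, hi⟩ := hPc x hx
    obtain ⟨j, hj⟩ := hQc i x
    refine Set.mem_iUnion.mpr ⟨e ⟨i, j⟩, ?_⟩
    rw [Equiv.symm_apply_apply]
    exact ⟨hi, hj⟩
  · intro j
    refine ⟨B (e.symm j).1 (e.symm j).2, ?_⟩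
    rintro x hx ⟨hx1, hx2⟩
    obtain ⟨g1, g2, g3⟩ := hcA (e.symm j).1 x hx hx1
    have hIn : D.InCh (c (e.symm j).1) x := by
      refine ⟨x.2, g2, ?_⟩
      have := g3 0 le_rfl
      rw [add_zero, D.Fl_zero hσ hx] at this
      exact this
    rw [F_eq (hc _) hIn, ← hB (e.symm j).1 (e.symm j).2 x hx2]
    unfold Fc
    congr 1
    funext k
    unfold Xc
    have e1 : (D.G x).1 = (A (e.symm j).1 x).1 := congrArg Prod.fst g1
    have e2 : (D.G x).2.1 = (A (e.symm j).1 x).2 := congrArg Prod.snd g1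
    rw [← e1, ← e2]
    have hg := JobModel.g_eq m D.mpos' (N := N) (lamOf_nonneg g2 k) (t := (D.G x).2.1) (by
      refine le_trans ?_ hN
      have := D.time_le _ rfl hσ hx
      have hmR := D.mR_pos
      nlinarith)
    rw [hg]
    unfold gN
    simp only [sub_eq_add_neg]

end FlowData

end Pool.Agent.TH632
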