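import Pool.Agent.TH632.Chamber3

/-!
# Topology: continuity of the flow, local finiteness of the chambers
-/

open Set Topology

namespace Pool.Agent.TH632

universe u

theorem isClosed_simplex {V : Type u} (s : Finset V) : IsClosed (simplex s) := by
  have h1 : IsClosed {x : V → ℝ | ∀ v, 0 ≤ x v} := by
    simp only [Set.ofPred_forall]
    exact isClosed_iInter fun v => isClosed_le continuous_const (continuous_apply v)
  have h2 : IsClosed {x : V → ℝ | ∀ v, v ∉ s → x v = 0} := by
    simp only [Set.ofPred_forall]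
    exact isClosed_iInter fun v => isClosed_iInter fun _ =>
      isClosed_eq (continuous_apply v) continuous_const
  have h3 : IsClosed {x : V → ℝ | ∑ v ∈ s, x v = 1} :=
    isClosed_eq (continuous_finsetSum s fun v _ => continuous_apply v) continuous_const
  exact h1.inter (h2.inter h3)

theorem exists_pos_coord {V : Type u} {s : Finset V} {x : V → ℝ} (hx : x ∈ simplex s) :
    ∃ v ∈ s, 0 < x v := by
  by_contra hc
  push Not at hc
  have h1 : ∑ v ∈ s, x v ≤ 0 := Finset.sum_nonpos hc
  rw [hx.2.2] at h1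
  linarith

namespace FlowData

variable {V : Type u} {m : ℕ} (D : FlowData V m)

theorem continuous_mv (σ : Finset V) :
    Continuous (fun q : (V → ℝ) × ℝ => D.mv σ q.2 q.1) := by
  apply continuous_pi
  intro v
  unfold mv
  split_ifs
  · exact ((continuous_apply v).comp continuous_fst).sub continuous_snd
  · exact ((continuous_apply v).comp continuous_fst).add (continuous_snd.div_const _)
  · exact (continuous_apply v).comp continuous_fst

theorem continuous_mu {σ : Finset V} (hσ : σ ∈ D.C) : Continuous (D.mu σ) := by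
  classical
  have := D.nonempty_base hσ
  have : Fintype {v // v ∈ σ ∧ v ≠ D.apex σ} := Fintype.ofFinite _
  have h : D.mu σ = fun x => Finset.univ.inf' Finset.univ_nonempty
      (fun v : {v // v ∈ σ ∧ v ≠ D.apex σ} => x v) := by
    funext x
    rw [Finset.inf'_univ_eq_ciInf]
    rfl
  rw [h]
  apply Continuous.finset_inf'_apply
  intro v _
  exact continuous_apply (v : V)

theorem continuous_bk {σ : Finset V} (hσ : σ ∈ D.C) : Continuous (D.bk σ) := by
  unfold bk
  exact (D.continuous_mv σ).comp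
    (continuous_id.prodMk ((continuous_const.mul (D.continuous_mu hσ)).neg))

/-- the continuous part of the flow data -/
noncomputable def two (r : (V → ℝ) × ℝ × Option (Finset V)) : (V → ℝ) × ℝ := (r.1, r.2.1)

theorem two_comb (r : (V → ℝ) × ℝ × Option (Finset V)) (s : ℝ) (σ : Finset V) :
    two (comb r s σ) = ((two r).1, (two r).2 + s) := rfl

theorem continuousOn_Ps : ∀ (n : ℕ) {σ : Finset V} (_ : D.rank σ = n) (_ : σ ∈ D.C),
    ContinuousOn (fun x => two (D.Ps σ x)) (simplex σ) := by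
  intro n
  induction n using Nat.strong_induction_on with
  | _ n ih =>
    intro σ hn hσ
    -- continuity of the base on each facet
    have hbase : ContinuousOn (fun y => two (D.base σ y))
        (⋃ v : {v // v ∈ σ ∧ v ≠ D.apex σ}, {y | y ∈ simplex σ ∧ y v = 0}) := by
      apply (locallyFinite_of_finite _).continuousOn_iUnion
      · intro v
        exact (isClosed_simplex σ).inter (isClosed_eq (continuous_apply _) continuous_const)
      · rintro ⟨v, hv, hne⟩
        by_cases hex : ∃ κ ∈ D.C, D.par κ = σ ∧ v ∉ κ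
        · obtain ⟨κ, hκ, hpar, hvκ⟩ := hex
          have hr := D.rank_lt κ hκ
          rw [hpar, hn] at hr
          have h1 := ih _ hr rfl hκ
          apply (h1.mono _).congr
          · rintro y ⟨hy, hyv⟩
            change two (D.base σ y) = two (D.Ps κ y)
            rw [D.base_child hκ hpar hy hv hvκ hyv]
          · rintro y ⟨hy, hyv⟩
            exact D.mem_child hκ hpar hy hv hvκ hyv
        · push Not at hex
          have h1 : ContinuousOn (fun y : V → ℝ => ((y, 0) : (V → ℝ) × ℝ))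
              {y | y ∈ simplex σ ∧ y v = 0} := by fun_prop
          apply h1.congr
          rintro y ⟨hy, hyv⟩
          change two (D.base σ y) = (y, 0)
          rw [D.base_free hy hv hyv hex]
          rfl
    have hcomp : ContinuousOn (fun x => two (D.base σ (D.bk σ x))) (simplex σ) := by
      apply hbase.comp (D.continuous_bk hσ).continuousOn
      intro x hx
      obtain ⟨v, hv, hne, hxv⟩ := D.exists_eq_mu hσ x
      refine Set.mem_iUnion.mpr ⟨⟨v, hv, hne⟩, D.bk_mem_simplex hσ hx, ?_⟩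
      change D.bk σ x v = 0
      rw [D.bk_of_mem x hv hne, hxv, sub_self]
    have : (fun x => two (D.Ps σ x)) = fun x =>
        ((two (D.base σ (D.bk σ x))).1, (two (D.base σ (D.bk σ x))).2 + m * D.mu σ x) := by
      funext x
      rw [D.Ps_eq_comb_base, two_comb]
    rw [this]
    exact (continuous_fst.comp_continuousOn hcomp).prodMk
      ((continuous_snd.comp_continuousOn hcomp).add
        (continuous_const.mul (D.continuous_mu hσ)).continuousOn)

theorem locallyFinite_cells :
    LocallyFinite (fun σ : {σ // σ ∈ D.C} => {x : D.space | (x : V → ℝ) ∈ simplex σ.1}) := by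
  rintro ⟨x, hx⟩
  obtain ⟨τ, hτ, hxτ⟩ := hx
  obtain ⟨v, hv, hpos⟩ := exists_pos_coord hxτ
  refine ⟨{y : D.space | 0 < (y : V → ℝ) v}, ?_, ?_⟩
  · have hop : IsOpen {y : D.space | 0 < (y : V → ℝ) v} :=
      isOpen_lt continuous_const ((continuous_apply v).comp continuous_subtype_val)
    exact hop.mem_nhds hpos
  · have hfin := D.locfin v
    apply (hfin.preimage (f := fun σ : {σ // σ ∈ D.C} => σ.1)
      (Subtype.val_injective.injOn)).subset
    rintro σ ⟨y, hy1, hy2⟩
    refine ⟨σ.2, ?_⟩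
    by_contra hc
    have := hy1.2.1 v hc
    have h2 : 0 < (y : V → ℝ) v := hy2
    rw [this] at h2
    exact lt_irrefl _ h2

theorem continuous_G : Continuous (fun x : D.space => two (D.G x)) := by
  apply D.locallyFinite_cells.continuous
  · rw [Set.eq_univ_iff_forall]
    rintro ⟨x, σ, hσ, hx⟩
    exact Set.mem_iUnion.mpr ⟨⟨σ, hσ⟩, hx⟩
  · intro σ
    exact (isClosed_simplex σ.1).preimage continuous_subtype_val
  · rintro ⟨σ, hσ⟩
    have h := D.continuousOn_Ps _ rfl hσ
    have h2 : ContinuousOn (fun x : D.space => two (D.Ps σ x))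
        {x : D.space | (x : V → ℝ) ∈ simplex σ} :=
      h.comp continuous_subtype_val.continuousOn (fun x hx => hx)
    apply h2.congr
    intro x hx
    change two (D.G x) = two (D.Ps σ x)
    rw [D.G_eq hσ hx]

theorem continuous_R : Continuous (fun x : D.space => (D.G x).1) := by
  have := continuous_fst.comp D.continuous_G
  exact this

theorem continuous_T : Continuous (fun x : D.space => (D.G x).2.1) := by
  have := continuous_snd.comp D.continuous_G
  exact this

theorem continuous_step (σ : Finset V) : Continuous (D.step σ) := by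
  have h1 : Continuous (fun q : (V → ℝ) × ℝ => min q.2 (q.1 (D.apex σ))) :=
    continuous_snd.min ((continuous_apply _).comp continuous_fst)
  exact ((D.continuous_mv σ).comp (continuous_fst.prodMk h1)).prodMk (continuous_snd.sub h1)

theorem continuous_Fn (k : ℕ) (σ : Finset V) : Continuous (D.Fn k σ) := by
  induction k generalizing σ with
  | zero => exact continuous_id
  | succ k ih => exact (ih (D.par σ)).comp (D.continuous_step σ)

theorem continuousOn_Fl {σ : Finset V} (hσ : σ ∈ D.C) :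
    ContinuousOn (fun q : (V → ℝ) × ℝ => D.Fl σ q.1 q.2) {q | q.1 ∈ simplex σ ∧ 0 ≤ q.2} := by
  rintro ⟨p, t⟩ ⟨hp, ht⟩
  obtain ⟨k, hk⟩ := D.exists_uniform hσ (t + 1)
  have h1 : ContinuousWithinAt (fun q : (V → ℝ) × ℝ => (D.Fn k σ q).1)
      {q | q.1 ∈ simplex σ ∧ 0 ≤ q.2} (p, t) :=
    (continuous_fst.comp (D.continuous_Fn k σ)).continuousWithinAt
  have hev : ∀ q : (V → ℝ) × ℝ, q ∈ {q : (V → ℝ) × ℝ | q.1 ∈ simplex σ ∧ 0 ≤ q.2} →
      q.2 ≤ t + 1 → D.Fl σ q.1 q.2 = (D.Fn k σ q).1 := by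
    rintro ⟨p', t'⟩ ⟨hp', ht'⟩ hle
    have hinv := D.inv_of_mem hσ hp' ht'
    exact D.Fl_eq hσ hinv (hk _ hinv hle)
  apply h1.congr_of_eventuallyEq
  · have hnhds : {q : (V → ℝ) × ℝ | q.2 < t + 1} ∈ 𝓝 ((p, t) : (V → ℝ) × ℝ) := by
      apply IsOpen.mem_nhds (isOpen_lt continuous_snd continuous_const)
      change t < t + 1
      linarith
    filter_upwards [self_mem_nhdsWithin, mem_nhdsWithin_of_mem_nhds hnhds] with q hq1 hq2
    exact hev q hq1 (le_of_lt hq2)
  · exact hev (p, t) ⟨hp, ht⟩ (by simp)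

/-- the closed subset of the space given by a chamber -/
def Ch (c : Fin (m + 1) → V) : Set D.space := {x | D.InCh c x}

theorem isClosed_InSimp (c : Fin (m + 1) → V) : IsClosed {p : V → ℝ | InSimp c p} := by
  have h1 := isClosed_simplex (im c)
  have h2 : IsClosed {p : V → ℝ | p (c 0) = 0} :=
    isClosed_eq (continuous_apply _) continuous_const
  have h3 : IsClosed {p : V → ℝ | ∀ i j : Fin (m + 1), i ≠ 0 → i ≤ j → p (c j) ≤ p (c i)} := by
    simp only [Set.ofPred_forall]
    exact isClosed_iInter fun i => isClosed_iInter fun j => isClosed_iInter fun _ =>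
      isClosed_iInter fun _ => isClosed_le (continuous_apply _) (continuous_apply _)
  exact h1.inter (h2.inter h3)

theorem isClosed_Ch {c : Fin (m + 1) → V} (hc : D.IsChamber c) : IsClosed (D.Ch c) := by
  have hS : IsClosed {x : D.space | InSimp c (D.G x).1} :=
    (isClosed_InSimp c).preimage D.continuous_R
  have hF : ContinuousOn (fun x : D.space => ((D.Fl (im c) (D.G x).1 (D.G x).2.1 : V → ℝ),
      (x : V → ℝ))) {x : D.space | InSimp c (D.G x).1} := by
    apply ContinuousOn.prodMk _ continuous_subtype_val.continuousOn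
    exact (D.continuousOn_Fl hc.1.2).comp D.continuous_G.continuousOn
      (fun x hx => ⟨hx.1, D.G_nonneg x.2⟩)
  have := hF.preimage_isClosed_of_isClosed hS
    (isClosed_eq (continuous_fst (X := V → ℝ) (Y := V → ℝ)) continuous_snd)
  convert this using 1
  ext x
  simp only [Ch, InCh, Set.mem_ofPred_eq, Set.mem_inter_iff, Set.mem_preimage]
  exact ⟨fun h => ⟨h.2.1, h.2.2⟩, fun h => ⟨x.2, h.1, h.2⟩⟩

/-! ### local finiteness -/

theorem Fn_mem_iter (k : ℕ) {σ : Finset V} (hσ : σ ∈ D.C) {q : (V → ℝ) × ℝ}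
    (hq : q.1 ∈ simplex σ) (ht : 0 ≤ q.2) : ∃ j, (D.Fn k σ q).1 ∈ simplex (D.par^[j] σ) := by
  induction k generalizing σ q with
  | zero => exact ⟨0, hq⟩
  | succ k ih =>
    have hinv : D.Inv σ q := ⟨ht, ⟨σ, hσ, hq⟩, fun _ => hq⟩
    have hs : (D.step σ q).1 ∈ simplex σ :=
      D.mv_mem_simplex' hσ hq (le_min ht (hq.1 _)) (min_le_right _ _)
    have hinv' := D.step_inv hσ hinv
    rw [Fn_succ]
    rcases eq_or_lt_of_le hinv'.1 with h0 | h0
    · refine ⟨0, ?_⟩
      rw [D.Fn_of_zero k _ hinv'.2.1 h0.symm]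
      exact hs
    · obtain ⟨j, hj⟩ := ih (D.par_mem σ hσ) (hinv'.2.2 h0) h0.le
      exact ⟨j + 1, by rw [Function.iterate_succ_apply]; exact hj⟩

theorem finite_descendants : ∀ (n : ℕ) {κ : Finset V} (_ : D.rank κ = n) (_ : κ ∈ D.C),
    {σ | σ ∈ D.C ∧ ∃ j, D.par^[j] σ = κ}.Finite := by
  intro n
  induction n using Nat.strong_induction_on with
  | _ n ih =>
    intro κ hn hκ
    -- children
    have hch : {σ | σ ∈ D.C ∧ D.par σ = κ}.Finite := by
      have : {σ | σ ∈ D.C ∧ D.par σ = κ} ⊆ ⋃ v ∈ (κ : Set V), {σ | σ ∈ D.C ∧ v ∈ σ} := by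
        rintro σ ⟨hσ, hpar⟩
        obtain ⟨v, hv, hne⟩ := (D.nonempty_base hσ)
        refine Set.mem_biUnion (x := v) ?_ ⟨hσ, hv⟩
        rw [← hpar]
        exact D.par_sub σ hσ v hv hne
      exact (Set.Finite.biUnion κ.finite_toSet (fun v _ => D.locfin v)).subset this
    have : {σ | σ ∈ D.C ∧ ∃ j, D.par^[j] σ = κ} ⊆
        {κ} ∪ ⋃ τ ∈ {σ | σ ∈ D.C ∧ D.par σ = κ}, {σ | σ ∈ D.C ∧ ∃ j, D.par^[j] σ = τ} := by
      rintro σ ⟨hσ, j, hj⟩
      cases j with
      | zero => left; exact hj
      | succ j =>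
        right
        rw [Function.iterate_succ_apply'] at hj
        exact Set.mem_biUnion (x := D.par^[j] σ) ⟨D.iter_par_mem hσ j, hj⟩ ⟨hσ, j, rfl⟩
    refine ((Set.finite_singleton κ).union (Set.Finite.biUnion hch ?_)).subset this
    rintro τ ⟨hτ, hpar⟩
    have hr := D.rank_lt τ hτ
    rw [hpar, hn] at hr
    exact ih _ hr rfl hτ

/-- the index type of chambers -/
abbrev Chamber : Type u := {c : Fin (m + 1) → V // D.IsChamber c}

theorem finite_near (v : V) :
    {c : D.Chamber | ∃ x : D.space, x ∈ D.Ch c.1 ∧ 0 < (x : V → ℝ) v}.Finite := by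
  classical
  -- the possible cells
  have hcells : (⋃ κ ∈ {κ | κ ∈ D.C ∧ v ∈ κ}, {σ | σ ∈ D.C ∧ ∃ j, D.par^[j] σ = κ}).Finite :=
    Set.Finite.biUnion (D.locfin v) (fun κ hκ => D.finite_descendants _ rfl hκ.1)
  have hfun : (⋃ σ ∈ (⋃ κ ∈ {κ | κ ∈ D.C ∧ v ∈ κ}, {σ | σ ∈ D.C ∧ ∃ j, D.par^[j] σ = κ}),
      {c : Fin (m + 1) → V | ∀ i, c i ∈ σ}).Finite := by
    apply Set.Finite.biUnion hcells
    intro σ _
    have : {c : Fin (m + 1) → V | ∀ i, c i ∈ σ} = Set.pi Set.univ (fun _ => (σ : Set V)) := by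
      ext c; simp
    rw [this]
    exact Set.Finite.pi' (fun _ => σ.finite_toSet) |>.subset (by
      intro c hc i
      exact hc i (Set.mem_univ i))
  apply (hfun.preimage (f := fun c : D.Chamber => c.1) Subtype.val_injective.injOn).subset
  rintro ⟨c, hc⟩ ⟨x, hx, hxv⟩
  have hinv := D.inv_of_mem hc.1.2 hx.2.1.1 (D.G_nonneg x.2)
  obtain ⟨k, hk⟩ := D.exists_end hc.1.2 hinv
  obtain ⟨j, hj⟩ := D.Fn_mem_iter k hc.1.2 (q := ((D.G x).1, (D.G x).2.1)) hx.2.1.1
    (D.G_nonneg x.2)
  rw [← D.Fl_eq hc.1.2 hinv hk, hx.2.2] at hj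
  have hvj : v ∈ D.par^[j] (im c) := by
    by_contra hn
    have := hj.2.1 v hn
    rw [this] at hxv
    exact lt_irrefl _ hxv
  refine Set.mem_biUnion (x := im c) (Set.mem_biUnion (x := D.par^[j] (im c))
    ⟨D.iter_par_mem hc.1.2 j, hvj⟩ ⟨hc.1.2, j, rfl⟩) ?_
  intro i
  exact apply_mem_im c i

theorem locallyFinite_Ch : LocallyFinite (fun c : D.Chamber => D.Ch c.1) := by
  rintro ⟨x, hx⟩
  obtain ⟨τ, hτ, hxτ⟩ := hx
  obtain ⟨v, hv, hpos⟩ := exists_pos_coord hxτ
  refine ⟨{y : D.space | 0 < (y : V → ℝ) v}, ?_, ?_⟩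
  · have hop : IsOpen {y : D.space | 0 < (y : V → ℝ) v} :=
      isOpen_lt continuous_const ((continuous_apply v).comp continuous_subtype_val)
    exact hop.mem_nhds hpos
  · apply (D.finite_near v).subset
    rintro c ⟨y, hy1, hy2⟩
    exact ⟨y, hy1, hy2⟩

end FlowData

end Pool.Agent.TH632
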